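import Pool.Agent.Helper89.P2.K25C

/-!
# MP_2b6189_al: `n = 25 m`, all prime divisors of `m` are `2` or a prime `r ≥ 7`
-/

set_option autoImplicit false

namespace Pool.Agent.Helper89.P2

open Matrix ComplexConjugate Pool.Agent.Helper94.YG
open Pool.Agent.Helper94.YF hiding StORB
open Pool.Agent.Helper89.OS (PI Idp)
open Pool.Agent.Helper89.OC (TanSet Sf)

section

variable {I : Type} [Fintype I] [DecidableEq I]

/-- For `p` odd and `n = p ^ 2 m` without Tannakian sets: the dimensions of the elements `≠ o` of the principal block with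
`t = 1` are neither `1` nor prime powers. -/
theorem dims (Z : CentreData I) (hT : ¬ ∃ D : I → Prop, TanSet Z D) (p a : ℕ) (hp : p.Prime)
    (hp2 : p ≠ 2) (X : PK I p a (p ^ 2)) (ho : X.o = Z.o) (hd : X.d = Z.d) (hth : X.th = Z.th)
    (hchi : X.chi = Pool.Agent.Helper89.OS.Cchi Z) {Q : ℂ → Prop} (B : BK X Q) (i : I)
    (hio : i ≠ X.o) (hyi : X.y i ≠ 0) (hti : X.t i = 1) : 1 < X.d i ∧ ¬ IsPrimePow (X.d i) := by
  have hthK : ∀ i, X.y i ≠ 0 → X.t i = 1 → Z.th i = 1 := by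
    intro i h1 h2
    rw [← hth]
    exact X.th_of i h1 h2
  have hd1 : X.d i ≠ 1 := by
    intro h4
    exact hT (Pool.Agent.Helper89.MG.boson Z i (by rw [← ho]; exact hio) (by rw [← hd]; exact h4)
      (hthK i hyi hti))
  refine ⟨by have := X.d_pos i; omega, ?_⟩
  intro h4
  rw [hd] at h4
  obtain ⟨δ, h5, -, h6, -, h7⟩ := Pool.Agent.Helper79.P2.fermion_of_pp Z hT i h4
  refine h7 i h4 (hthK i hyi hti) ?_
  rcases Pool.Agent.Helper79.P2.inv_pm Z i δ h5 h6 with h8 | h8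
  · exact h8
  exfalso
  have h9 := B.mem i hyi δ
  have A := Helper36.OC.hGLA I Z
  have hdi : (Z.d i : ℂ) ≠ 0 := by exact_mod_cast (Z.d_pos i).ne'
  have h10 : Pool.Agent.Helper89.OS.Cchi Z i δ = -1 := by
    have h11 := A.Sf_chi i δ
    rw [h8] at h11
    apply mul_left_cancel₀ hdi
    rw [← h11]
    ring
  rw [hchi, hd, h5, h10] at h9
  have h11 : Q ((-2 : ℤ) : ℂ) := by
    have h12 : ((-2 : ℤ) : ℂ) = -1 - ((1 : ℕ) : ℂ) := by
      push_cast
      ring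
    rw [h12]
    exact h9
  have h12 := (B.pi.int_iff _).1 h11
  rw [dvd_neg] at h12
  have h13 : p ∣ 2 := by exact_mod_cast h12
  exact hp2 ((Nat.prime_dvd_prime_iff_eq hp Nat.prime_two).1 h13)

/-- **Theorem K25.**  Let `n = 25 m`, `5` does not divide `m`, and all prime divisors of `m` are `2` or a prime `r ≥ 7`.  Then
there is a nontrivial Tannakian set. -/
theorem k25 (Z : CentreData I) (m r : ℕ) (hr : r.Prime) (h7 : 7 ≤ r) (hn : Z.n = 25 * m)
    (hpm : ¬ 5 ∣ m) (hm : ∀ l : ℕ, l.Prime → l ∣ m → l = 2 ∨ l = r) :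
    ∃ D : I → Prop, TanSet Z D := by
  classical
  by_contra hT
  have hp : Nat.Prime 5 := by norm_num
  obtain ⟨a, b, X, hI, -, ho, hst, hd, hmX, hkp, hth, ht, hs, hchi, hN, hz⟩ :=
    Pool.Agent.Helper52.P2.toPK I Z 5 2 (5 ^ 2) m hp (by norm_num) rfl
      (by rw [hn]; norm_num) hpm
  obtain ⟨Q, hQ⟩ := Helper66.OS.hPID hRAT' 5 hp
  have B : BK X Q := Pool.Agent.Helper94.P2.hBK hRAT' X Q hQ
  have hpr : ∀ i, ∀ l : ℕ, l.Prime → l ∣ X.d i → l = 5 ∨ l = 2 ∨ l = r := by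
    intro i l hl hli
    have h1 := hli.trans (X.d_dvd i)
    rw [hmX] at h1
    rcases (Nat.Prime.dvd_mul hl).1 h1 with h2 | h2
    · left
      exact (Nat.prime_dvd_prime_iff_eq hl hp).1 (hl.dvd_of_dvd_pow h2)
    · right
      exact hm l hl h2
  have hdim := dims Z hT 5 a hp (by norm_num) X ho hd hth hchi B
  -- two primes
  have h1 : ∀ i, i ≠ X.o → X.y i ≠ 0 → X.t i = 1 → (¬ 5 ∣ X.d i → 2 ∣ X.d i ∧ r ∣ X.d i) ∧
      (5 ∣ X.d i → 2 ∣ X.d i ∨ r ∣ X.d i) := by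
    intro i e1 e2 e3
    obtain ⟨f1, f2⟩ := hdim i e1 e2 e3
    obtain ⟨l, l', hl, hl', hne, hli, hli'⟩ := Pool.Agent.Helper46.WG.two_primes f1 f2
    have g1 := hpr i l hl hli
    have g2 := hpr i l' hl' hli'
    constructor
    · intro h5
      rcases g1 with h | h | h
      · exact absurd (h ▸ hli) h5
      · rcases g2 with h' | h' | h'
        · exact absurd (h' ▸ hli') h5
        · exact absurd (h.trans h'.symm) hne
        · exact ⟨h ▸ hli, h' ▸ hli'⟩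
      · rcases g2 with h' | h' | h'
        · exact absurd (h' ▸ hli') h5
        · exact ⟨h' ▸ hli', h ▸ hli⟩
        · exact absurd (h.trans h'.symm) hne
    · intro _
      rcases g1 with h | h | h
      · rcases g2 with h' | h' | h'
        · exact absurd (h.trans h'.symm) hne
        · exact Or.inl (h' ▸ hli')
        · exact Or.inr (h' ▸ hli')
      · exact Or.inl (h ▸ hli)
      · exact Or.inr (h ▸ hli)
  -- positive height: `r` does not divide `d`
  have h2 : ∀ i, i ≠ X.o → X.y i ≠ 0 → X.t i = 1 → 5 ∣ X.d i → ¬ r ∣ X.d i := by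
    intro i e1 e2 e3 h5 hri
    have f1 := L3' X hRAT' B hr (by omega)
      (fun l g1 g2 g3 g4 => ((h1 l g1 g2 (X.z_t l g3)).1 g4).2) i e2 e3 h5 hri
    have f2 : (5 : ℤ) ∣ X.y i := by exact_mod_cast (dy X B e2).1 h5
    have f3 := L1y X hRAT' B i e2 e3 h5
    have hco : IsCoprime (5 : ℤ) (r : ℤ) := by
      have := Nat.isCoprime_iff_coprime.2 ((Nat.coprime_primes hp hr).2 (by omega))
      exact_mod_cast this
    obtain ⟨u, hu⟩ := hco.mul_dvd f2 f1
    have hu0 : u ≠ 0 := by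
      rintro rfl
      rw [mul_zero] at hu
      exact e2 hu
    have hu1 : 1 ≤ u ^ 2 := by
      have : 0 < u ^ 2 := by positivity
      omega
    have h7z : (7 : ℤ) ≤ r := by exact_mod_cast h7
    have h49 : (49 : ℤ) ≤ (r : ℤ) ^ 2 := by nlinarith
    have h3 : (49 : ℤ) * 1 ≤ (r : ℤ) ^ 2 * u ^ 2 := mul_le_mul h49 hu1 (by norm_num) (by positivity)
    have h4 : X.y i ^ 2 = 25 * ((r : ℤ) ^ 2 * u ^ 2) := by rw [hu]; ring
    rw [h4] at f3
    push_cast at f3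
    linarith
  have H : ∀ i, i ≠ X.o → X.y i ≠ 0 → X.t i = 1 → 2 ∣ X.d i ∧ (¬ 5 ∣ X.d i → r ∣ X.d i) ∧
      (5 ∣ X.d i → ¬ r ∣ X.d i) := by
    intro i e1 e2 e3
    refine ⟨?_, fun h5 => ((h1 i e1 e2 e3).1 h5).2, h2 i e1 e2 e3⟩
    by_cases h5 : 5 ∣ X.d i
    · exact ((h1 i e1 e2 e3).2 h5).resolve_right (h2 i e1 e2 e3 h5)
    · exact ((h1 i e1 e2 e3).1 h5).1
  have hkap : ∀ i, ∑ k, X.s i k * (X.kap k : ℂ) = 25 * X.kap i := by
    intro i
    have h3 := Z.kap_inv (s2 b) i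
    rw [hkp, hs, ← h3, Finset.mul_sum]
    refine Finset.sum_congr rfl fun k _ => ?_
    push_cast
    ring
  by_cases hB : ∃ j, j ≠ X.o ∧ X.y j ≠ 0 ∧ X.t j = 1 ∧ 5 ∣ X.d j
  · obtain ⟨j, g1, g2, g3, g4⟩ := hB
    exact caseB X hRAT' B hr h7 H hpr hkap j g1 g2 g3 g4
  · push Not at hB
    refine caseA X hRAT' B hr h7 fun i e1 e2 e3 => ?_
    have h5 := hB i e1 e2 e3
    exact ⟨h5, (H i e1 e2 e3).1, (H i e1 e2 e3).2.1 h5⟩

end

end Pool.Agent.Helper89.P2
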