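import Pool.Agent.Helper89.P2.Gsq
import Pool.Agent.Helper89.P2.K25

/-!
# MP_2b6189_al: three primes, `p ^ 2` exactly divides `n`, `p < q ^ 2`, `p < r ^ 2`
-/

set_option autoImplicit false

namespace Pool.Agent.Helper89.P2

open Matrix ComplexConjugate Pool.Agent.Helper94.YG
open Pool.Agent.Helper94.YF hiding StORB
open Pool.Agent.Helper89.OS (PI Idp)
open Pool.Agent.Helper89.OC (TanSet Sf)

section

variable {I : Type} [Fintype I] [DecidableEq I]

/-- a prime `l` with `p < l ^ 2` does not divide both `y i` and `d i`, `p ∣ d i` -/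
theorem big {p a : ℕ} (X : PK I p a (p ^ 2)) (hR : StRAT) {Q : ℂ → Prop} (B : BK X Q) {l : ℕ}
    (hl : l.Prime) (hlp : l ≠ p) (hl2 : p < l ^ 2) (i : I) (hi : X.y i ≠ 0) (ht : X.t i = 1)
    (hd : p ∣ X.d i) (hly : (l : ℤ) ∣ X.y i) : False := by
  have h1 := L1y X hR B i hi ht hd
  have h2 : (p : ℤ) ∣ X.y i := (dy X B hi).1 hd
  have hco : IsCoprime (p : ℤ) (l : ℤ) :=
    Nat.isCoprime_iff_coprime.2 ((Nat.coprime_primes X.prime hl).2 (Ne.symm hlp))
  obtain ⟨u, hu⟩ := hco.mul_dvd h2 hly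
  have hu0 : u ≠ 0 := by
    rintro rfl
    rw [mul_zero] at hu
    exact hi hu
  have hu1 : 1 ≤ u ^ 2 := by
    have : 0 < u ^ 2 := by positivity
    omega
  have hpz : (0 : ℤ) < p := by exact_mod_cast X.prime.pos
  have hl2z : (p : ℤ) < (l : ℤ) ^ 2 := by exact_mod_cast hl2
  have h3 : X.y i ^ 2 = (p : ℤ) ^ 2 * (l : ℤ) ^ 2 * u ^ 2 := by rw [hu]; ring
  have h4 : (p : ℤ) ^ 3 < (p : ℤ) ^ 2 * (l : ℤ) ^ 2 := by
    have : (p : ℤ) ^ 3 = (p : ℤ) ^ 2 * p := by ring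
    rw [this]
    exact mul_lt_mul_of_pos_left hl2z (by positivity)
  have h5 : (p : ℤ) ^ 2 * (l : ℤ) ^ 2 ≤ X.y i ^ 2 := by
    rw [h3]
    exact le_mul_of_one_le_right (by positivity) hu1
  linarith

/-- **Theorem K2b.**  Let `p, q, r` be primes, `q, r ≠ p`, `n = p ^ 2 m`, `p` does not divide `m`, all prime divisors of
`m` are `q` or `r`, and `p < q ^ 2`, `p < r ^ 2`.  Then there is a nontrivial Tannakian set. -/
theorem k2b (Z : CentreData I) (p m q r : ℕ) (hp : p.Prime) (hq : q.Prime) (hr : r.Prime)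
    (hn : Z.n = p ^ 2 * m) (hpm : ¬ p ∣ m) (hm : ∀ l : ℕ, l.Prime → l ∣ m → l = q ∨ l = r)
    (hqp : q ≠ p) (hrp : r ≠ p) (hq2 : p < q ^ 2) (hr2 : p < r ^ 2) :
    ∃ D : I → Prop, TanSet Z D := by
  classical
  by_cases hp2 : p = 2
  · subst hp2
    have hq3 : 3 ≤ q := by
      have := hq.two_le
      omega
    have hr3 : 3 ≤ r := by
      have := hr.two_le
      omega
    exact k2 Z 2 m q r hp hq hr hn hpm hm hqp hrp hq2 hr2 (by nlinarith)
  by_contra hT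
  obtain ⟨a, b, X, hI, -, ho, hst, hd, hmX, hkp, hth, ht, hs, hchi, hN, hz⟩ :=
    Pool.Agent.Helper52.P2.toPK I Z p 2 (p ^ 2) m hp (by norm_num) rfl hn hpm
  obtain ⟨Q, hQ⟩ := Helper66.OS.hPID hRAT' p hp
  have B : BK X Q := Pool.Agent.Helper94.P2.hBK hRAT' X Q hQ
  have C : CM X := CM_of Z X b hI.idem hd hkp ht hs hchi
  have hpr : ∀ i, ∀ l : ℕ, l.Prime → l ∣ X.d i → l = p ∨ l = q ∨ l = r := by
    intro i l hl hli
    have h1 := hli.trans (X.d_dvd i)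
    rw [hmX] at h1
    rcases (Nat.Prime.dvd_mul hl).1 h1 with h2 | h2
    · left
      exact (Nat.prime_dvd_prime_iff_eq hl hp).1 (hl.dvd_of_dvd_pow h2)
    · right
      exact hm l hl h2
  have hdim := dims Z hT p a hp hp2 X ho hd hth hchi B
  -- two primes
  have h1 : ∀ i, i ≠ X.o → X.y i ≠ 0 → X.t i = 1 → (¬ p ∣ X.d i → q ≠ r ∧ q ∣ X.d i ∧ r ∣ X.d i) ∧
      (p ∣ X.d i → q ∣ X.d i ∨ r ∣ X.d i) := by
    intro i e1 e2 e3
    obtain ⟨f1, f2⟩ := hdim i e1 e2 e3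
    obtain ⟨l, l', hl, hl', hne, hli, hli'⟩ := Pool.Agent.Helper46.WG.two_primes f1 f2
    have g1 := hpr i l hl hli
    have g2 := hpr i l' hl' hli'
    constructor
    · intro h5
      rcases g1 with h | h | h
      · exact absurd (h ▸ hli) h5
      · rcases g2 with h' | h' | h'
        · exact absurd (h' ▸ hli') h5
        · exact absurd (h.trans h'.symm) hne
        · exact ⟨fun h'' => hne (h.trans (h''.trans h'.symm)), h ▸ hli, h' ▸ hli'⟩
      · rcases g2 with h' | h' | h'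
        · exact absurd (h' ▸ hli') h5
        · exact ⟨fun h'' => hne (h.trans (h''.symm.trans h'.symm)), h' ▸ hli', h ▸ hli⟩
        · exact absurd (h.trans h'.symm) hne
    · intro _
      rcases g1 with h | h | h
      · rcases g2 with h' | h' | h'
        · exact absurd (h.trans h'.symm) hne
        · exact Or.inl (h' ▸ hli')
        · exact Or.inr (h' ▸ hli')
      · exact Or.inl (h ▸ hli)
      · exact Or.inr (h ▸ hli)
  -- no positive height
  have h2 : ∀ i, i ≠ X.o → X.y i ≠ 0 → X.t i = 1 → ¬ p ∣ X.d i := by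
    intro i e1 e2 e3 h5
    rcases (h1 i e1 e2 e3).2 h5 with h6 | h6
    · exact big X hRAT' B hq hqp hq2 i e2 e3 h5 (L3' X hRAT' B hq hqp
        (fun l g1 g2 g3 g4 => ((h1 l g1 g2 (X.z_t l g3)).1 g4).2.1) i e2 e3 h5 h6)
    · exact big X hRAT' B hr hrp hr2 i e2 e3 h5 (L3' X hRAT' B hr hrp
        (fun l g1 g2 g3 g4 => ((h1 l g1 g2 (X.z_t l g3)).1 g4).2.2) i e2 e3 h5 h6)
  have h3 : ∀ i, i ≠ X.o → X.y i ≠ 0 → X.t i = 1 → q ≠ r ∧ q ∣ X.d i ∧ r ∣ X.d i :=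
    fun i e1 e2 e3 => (h1 i e1 e2 e3).1 (h2 i e1 e2 e3)
  obtain ⟨i, hio, hti, hpy⟩ := exK X B
  have hyi : X.y i ≠ 0 := by
    intro h
    exact hpy (by rw [h]; exact dvd_zero _)
  have hqr := (h3 i hio hyi hti).1
  have hco : Nat.Coprime q r := (Nat.coprime_primes hq hr).2 hqr
  have h4 := gsq X hRAT' B C (q * r) (Nat.mul_ne_zero hq.ne_zero hr.ne_zero)
    (fun j e1 e2 e3 => hco.mul_dvd_of_dvd_of_dvd (h3 j e1 e2 e3).2.1 (h3 j e1 e2 e3).2.2)
    (fun j e1 e2 e3 => by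
      have f1 := L4 X hRAT' B hq hqp (fun l g1 g2 g3 => (h3 l g1 g2 (X.z_t l g3)).2.1) j e2
        (h3 j e1 e2 e3).2.1
      have f2 := L4 X hRAT' B hr hrp (fun l g1 g2 g3 => (h3 l g1 g2 (X.z_t l g3)).2.2) j e2
        (h3 j e1 e2 e3).2.2
      push_cast
      exact (Nat.isCoprime_iff_coprime.2 hco).mul_dvd f1 f2)
  obtain ⟨h5, h6⟩ := x_bd X (pow_pos hp.pos 2) i hio hyi hti
  have h7 := Int.le_of_dvd h5 h4
  have h8 : ((p : ℤ) + 1) ≤ (q : ℤ) ^ 2 := by exact_mod_cast hq2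
  have h9 : ((p : ℤ) + 1) ≤ (r : ℤ) ^ 2 := by exact_mod_cast hr2
  have hpz : (0 : ℤ) < p := by exact_mod_cast hp.pos
  have h10 : ((p : ℤ) + 1) * (p + 1) ≤ (q : ℤ) ^ 2 * (r : ℤ) ^ 2 :=
    mul_le_mul h8 h9 (by positivity) (by positivity)
  push_cast at h6 h7
  have h11 : 0 < (p : ℤ) + X.y X.o := by
    have : 0 < (p : ℤ) * (p + X.y X.o) := by nlinarith
    exact (pos_iff_pos_of_mul_pos this).1 hpz
  nlinarith

end

end Pool.Agent.Helper89.P2
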