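import Pool.Agent.Helper89.P2.K25D
import Pool.Agent.Helper89.P2.K2b
import Pool.Agent.Helper79.P2.TwoAll

/-!
# MP_2b6189_al: `n = 25 m`, all prime divisors of `m` are `2` or a prime `r`
-/

set_option autoImplicit false

namespace Pool.Agent.Helper89.P2

open Matrix ComplexConjugate Pool.Agent.Helper94.YG
open Pool.Agent.Helper94.YF hiding StORB
open Pool.Agent.Helper89.OS (PI Idp)
open Pool.Agent.Helper89.OC (TanSet Sf)

section

variable {I : Type} [Fintype I] [DecidableEq I]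

/-- **Theorem K25b.**  Let `n = 25 m`, `5` does not divide `m`, and all prime divisors of `m` are `2` or a prime `r`.  Then
there is a nontrivial Tannakian set. -/
theorem k25b (Z : CentreData I) (m r : ℕ) (hr : r.Prime) (hn : Z.n = 25 * m)
    (hpm : ¬ 5 ∣ m) (hm : ∀ l : ℕ, l.Prime → l ∣ m → l = 2 ∨ l = r) :
    ∃ D : I → Prop, TanSet Z D := by
  classical
  have hp : Nat.Prime 5 := by norm_num
  have hm0 : m ≠ 0 := by
    rintro rfl
    exact hpm (dvd_zero _)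
  have hn1 : 1 < Z.n := by omega
  have hpr0 : ∀ l : ℕ, l.Prime → l ∣ Z.n → l = 5 ∨ (l = 2 ∨ l = r) := by
    intro l hl hli
    rw [hn] at hli
    rcases (Nat.Prime.dvd_mul hl).1 hli with h | h
    · left
      have h1 : l ∣ 5 ^ 2 := by
        norm_num
        exact h
      exact (Nat.prime_dvd_prime_iff_eq hl hp).1 (hl.dvd_of_dvd_pow h1)
    · exact Or.inr (hm l hl h)
  by_cases hr2 : r = 2
  · refine Pool.Agent.Helper79.P2.twoPrimes Z hn1 5 2 fun l hl hli => ?_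
    rcases hpr0 l hl hli with h | h | h
    · exact Or.inl h
    · exact Or.inr h
    · exact Or.inr (h.trans hr2)
  by_cases hr5 : r = 5
  · refine Pool.Agent.Helper79.P2.twoPrimes Z hn1 5 2 fun l hl hli => ?_
    rcases hpr0 l hl hli with h | h | h
    · exact Or.inl h
    · exact Or.inr h
    · exact Or.inl (h.trans hr5)
  have h3r : 3 ≤ r := by
    have := hr.two_le
    omega
  by_contra hT
  obtain ⟨a, b, X, hI, -, ho, hst, hd, hmX, hkp, hth, ht, hs, hchi, hN, hz⟩ :=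
    Pool.Agent.Helper52.P2.toPK I Z 5 2 (5 ^ 2) m hp (by norm_num) rfl
      (by rw [hn]; norm_num) hpm
  obtain ⟨Q, hQ⟩ := Helper66.OS.hPID hRAT' 5 hp
  have B : BK X Q := Pool.Agent.Helper94.P2.hBK hRAT' X Q hQ
  have C : CM X := CM_of Z X b hI.idem hd hkp ht hs hchi
  have hpr : ∀ i, ∀ l : ℕ, l.Prime → l ∣ X.d i → l = 5 ∨ l = 2 ∨ l = r := by
    intro i l hl hli
    have h1 := hli.trans (X.d_dvd i)
    rw [hmX] at h1
    rcases (Nat.Prime.dvd_mul hl).1 h1 with h2 | h2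
    · left
      exact (Nat.prime_dvd_prime_iff_eq hl hp).1 (hl.dvd_of_dvd_pow h2)
    · right
      exact hm l hl h2
  have hdim := dims Z hT 5 a hp (by norm_num) X ho hd hth hchi B
  -- two primes
  have h1 : ∀ i, i ≠ X.o → X.y i ≠ 0 → X.t i = 1 → (¬ 5 ∣ X.d i → 2 ∣ X.d i ∧ r ∣ X.d i) ∧
      (5 ∣ X.d i → 2 ∣ X.d i ∨ r ∣ X.d i) := by
    intro i e1 e2 e3
    obtain ⟨f1, f2⟩ := hdim i e1 e2 e3
    obtain ⟨l, l', hl, hl', hne, hli, hli'⟩ := Pool.Agent.Helper46.WG.two_primes f1 f2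
    have g1 := hpr i l hl hli
    have g2 := hpr i l' hl' hli'
    constructor
    · intro h5
      rcases g1 with h | h | h
      · exact absurd (h ▸ hli) h5
      · rcases g2 with h' | h' | h'
        · exact absurd (h' ▸ hli') h5
        · exact absurd (h.trans h'.symm) hne
        · exact ⟨h ▸ hli, h' ▸ hli'⟩
      · rcases g2 with h' | h' | h'
        · exact absurd (h' ▸ hli') h5
        · exact ⟨h' ▸ hli', h ▸ hli⟩
        · exact absurd (h.trans h'.symm) hne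
    · intro _
      rcases g1 with h | h | h
      · rcases g2 with h' | h' | h'
        · exact absurd (h.trans h'.symm) hne
        · exact Or.inl (h' ▸ hli')
        · exact Or.inr (h' ▸ hli')
      · exact Or.inl (h ▸ hli)
      · exact Or.inr (h ▸ hli)
  -- positive height: `r` does not divide `d`
  have h2 : ∀ i, i ≠ X.o → X.y i ≠ 0 → X.t i = 1 → 5 ∣ X.d i → ¬ r ∣ X.d i := by
    intro i e1 e2 e3 h5 hri
    exact big X hRAT' B hr hr5 (by nlinarith) i e2 e3 h5 (L3' X hRAT' B hr hr5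
      (fun l g1 g2 g3 g4 => ((h1 l g1 g2 (X.z_t l g3)).1 g4).2) i e2 e3 h5 hri)
  have H : ∀ i, i ≠ X.o → X.y i ≠ 0 → X.t i = 1 → 2 ∣ X.d i ∧ (¬ 5 ∣ X.d i → r ∣ X.d i) ∧
      (5 ∣ X.d i → ¬ r ∣ X.d i) := by
    intro i e1 e2 e3
    refine ⟨?_, fun h5 => ((h1 i e1 e2 e3).1 h5).2, h2 i e1 e2 e3⟩
    by_cases h5 : 5 ∣ X.d i
    · exact ((h1 i e1 e2 e3).2 h5).resolve_right (h2 i e1 e2 e3 h5)
    · exact ((h1 i e1 e2 e3).1 h5).1
  by_cases hB : ∃ j, j ≠ X.o ∧ X.y j ≠ 0 ∧ X.t j = 1 ∧ 5 ∣ X.d j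
  · have hkap : ∀ i, ∑ k, X.s i k * (X.kap k : ℂ) = 25 * X.kap i := by
      intro i
      have h3 := Z.kap_inv (s2 b) i
      rw [hkp, hs, ← h3, Finset.mul_sum]
      refine Finset.sum_congr rfl fun k _ => ?_
      push_cast
      ring
    obtain ⟨j, g1, g2, g3, g4⟩ := hB
    exact caseB2 X hRAT' B hr h3r C H hpr hkap j g1 g2 g3 g4
  · push Not at hB
    have h3 : ∀ i, i ≠ X.o → X.y i ≠ 0 → X.t i = 1 → 2 ∣ X.d i ∧ r ∣ X.d i :=
      fun i e1 e2 e3 => (h1 i e1 e2 e3).1 (hB i e1 e2 e3)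
    obtain ⟨i, hio, hti, hpy⟩ := exK X B
    have hyi : X.y i ≠ 0 := by
      intro h
      exact hpy (by rw [h]; exact dvd_zero _)
    have hco : Nat.Coprime 2 r := (Nat.coprime_primes Nat.prime_two hr).2 (Ne.symm hr2)
    have h4 := gsq X hRAT' B C (2 * r) (Nat.mul_ne_zero (by norm_num) hr.ne_zero)
      (fun j e1 e2 e3 => hco.mul_dvd_of_dvd_of_dvd (h3 j e1 e2 e3).1 (h3 j e1 e2 e3).2)
      (fun j e1 e2 e3 => by
        have f1 := L4 X hRAT' B Nat.prime_two (by norm_num)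
          (fun l g1 g2 g3 => (h3 l g1 g2 (X.z_t l g3)).1) j e2 (h3 j e1 e2 e3).1
        have f2 := L4 X hRAT' B hr hr5 (fun l g1 g2 g3 => (h3 l g1 g2 (X.z_t l g3)).2) j e2
          (h3 j e1 e2 e3).2
        push_cast
        exact (Nat.isCoprime_iff_coprime.2 hco).mul_dvd (by exact_mod_cast f1) f2)
    obtain ⟨h5, h6⟩ := x_bd X (by norm_num) i hio hyi hti
    have h7 := Int.le_of_dvd h5 h4
    have h8 : (3 : ℤ) ≤ r := by exact_mod_cast h3r
    push_cast at h6 h7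
    nlinarith

end

end Pool.Agent.Helper89.P2
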