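import Pool.Agent.Helper89.P2.L4
import Pool.Agent.Helper94.P2.Blk
import Pool.Agent.Helper79.P2.Ferm
import Pool.Agent.Helper52.P2.ToPK
import Pool.Agent.Helper89.MG.Cop

/-!
# MP_2b6189_al: three primes, `p ^ 2` exactly divides `n`
-/

set_option autoImplicit false

namespace Pool.Agent.Helper89.P2

open Matrix ComplexConjugate Pool.Agent.Helper94.YG
open Pool.Agent.Helper94.YF hiding StORB
open Pool.Agent.Helper89.OS (PI Idp)
open Pool.Agent.Helper89.OC (TanSet Sf)

section

variable {I : Type} [Fintype I] [DecidableEq I]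

/-- The converse membership in the principal block. -/
theorem blk_mem {p a P : ℕ} (X : PK I p a P) {Q : ℂ → Prop} (B : BK X Q) (j : I)
    (hj : ∀ k, Q (X.chi j k - X.d k)) : X.y j ≠ 0 := by
  intro hy
  obtain ⟨w, hw1, hw2⟩ := X.con
  have h1 := hw2 X.o j
  rw [X.s_o, hy] at h1
  have hd : (X.d j : ℂ) ≠ 0 := by
    have := X.d_pos j
    exact_mod_cast this.ne'
  have h2 : ∑ k, w X.o k * X.chi j k = 0 := by
    have h3 : (X.d j : ℂ) * ∑ k, w X.o k * X.chi j k = 0 := by
      rw [← h1]; simp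
    exact (mul_eq_zero.1 h3).resolve_left hd
  have h3 : (X.m : ℂ) ^ 2 * X.y X.o = ∑ k, w X.o k * X.d k := by
    have h := hw2 X.o X.o
    rw [X.s_o, X.d_o] at h
    rw [h]
    simp [X.o_chi]
  have h4 : Q ((∑ k, w X.o k * X.chi j k) - ∑ k, w X.o k * X.d k) := by
    rw [← Finset.sum_sub_distrib]
    apply Finset.sum_induction _ Q B.pi.add B.pi.zero
    intro k _
    rw [← mul_sub]
    exact B.pi.mul _ _ (hw1 X.o k) (hj k)
  rw [h2, ← h3, zero_sub] at h4
  have h5 : Q ((-((X.m : ℤ) ^ 2 * X.y X.o) : ℤ) : ℂ) := by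
    push_cast
    exact h4
  have h6 := (B.pi.int_iff _).1 h5
  rw [dvd_neg] at h6
  exact ((pprime X).dvd_or_dvd h6).elim (m2_nd X) B.x_nd

/-- Some element of the block with `t = 1`, not `o`, has `y` prime to `p`. -/
theorem exK {p a P : ℕ} (X : PK I p a P) {Q : ℂ → Prop} (B : BK X Q) :
    ∃ i, i ≠ X.o ∧ X.t i = 1 ∧ ¬ (p : ℤ) ∣ X.y i := by
  by_contra hcon
  push Not at hcon
  have h1 := X.kap_y
  rw [← Finset.add_sum_erase _ _ (Finset.mem_univ X.o), X.kap_o] at h1
  have h2 : (p : ℤ) ∣ ∑ i ∈ Finset.univ.erase X.o, X.y i * (X.kap i : ℤ) := by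
    refine Finset.dvd_sum fun i hi => ?_
    by_cases hk : X.kap i = 0
    · rw [hk]; simp
    · exact (hcon i (Finset.mem_erase.1 hi).1 (X.kap_t i hk)).mul_right _
  have h3 : (p : ℤ) ∣ (P : ℤ) := by
    rw [X.P_eq]
    push_cast
    exact dvd_pow_self _ (by have := X.k_pos; omega)
  rw [← h1] at h3
  have h4 := dvd_sub h3 h2
  simp only [Nat.cast_one, mul_one, add_sub_cancel_right] at h4
  exact B.x_nd h4

/-- **Theorem K2.**  Let `p, q, r` be primes, `q, r ≠ p`, `n = p ^ 2 m`, `p` does not divide `m`, all prime divisors of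
`m` are `q` or `r`, and `p < q ^ 2`, `p < r ^ 2`, `p ^ 2 + p < 2 q r`.  Then there is a nontrivial Tannakian set. -/
theorem k2 (Z : CentreData I) (p m q r : ℕ) (hp : p.Prime) (hq : q.Prime) (hr : r.Prime)
    (hn : Z.n = p ^ 2 * m) (hpm : ¬ p ∣ m) (hm : ∀ l : ℕ, l.Prime → l ∣ m → l = q ∨ l = r)
    (hqp : q ≠ p) (hrp : r ≠ p) (hq2 : p < q ^ 2) (hr2 : p < r ^ 2)
    (hqr : p ^ 2 + p < 2 * q * r) : ∃ D : I → Prop, TanSet Z D := by
  classical
  by_contra hT
  obtain ⟨a, b, X, hI, -, ho, hst, hd, hmX, -, hth, ht, hs, hchi, hN, hz⟩ :=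
    Pool.Agent.Helper52.P2.toPK I Z p 2 (p ^ 2) m hp (by norm_num) rfl hn hpm
  obtain ⟨Q, hQ⟩ := Helper66.OS.hPID hRAT' p hp
  have B : BK X Q := Pool.Agent.Helper94.P2.hBK hRAT' X Q hQ
  -- the dimensions
  have hthK : ∀ i, X.y i ≠ 0 → X.t i = 1 → Z.th i = 1 := by
    intro i h1 h2
    rw [← hth]
    exact X.th_of i h1 h2
  have hd1 : ∀ i, i ≠ X.o → X.y i ≠ 0 → X.t i = 1 → X.d i ≠ 1 := by
    intro i h1 h2 h3 h4
    exact hT (Pool.Agent.Helper89.MG.boson Z i (by rw [← ho]; exact h1) (by rw [← hd]; exact h4)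
      (hthK i h2 h3))
  have hpr : ∀ i, ∀ l : ℕ, l.Prime → l ∣ X.d i → l = p ∨ l = q ∨ l = r := by
    intro i l hl hli
    have h1 := hli.trans (X.d_dvd i)
    rw [hmX] at h1
    rcases (Nat.Prime.dvd_mul hl).1 h1 with h2 | h2
    · left
      exact (Nat.prime_dvd_prime_iff_eq hl hp).1 (hl.dvd_of_dvd_pow h2)
    · right
      exact hm l hl h2
  -- `Sf i δ = d i` for `p` odd, or on the support of `z`
  have hcen : ∀ i, X.y i ≠ 0 → (p ≠ 2 ∨ X.z i ≠ 0) → ∀ δ, Z.d δ = 1 → Z.st δ = δ →
      Sf Z i δ = Z.d i := by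
    intro i h1 h2 δ h3 h4
    rcases Pool.Agent.Helper79.P2.inv_pm Z i δ h3 h4 with h5 | h5
    · exact h5
    exfalso
    have h6 := B.mem i h1 δ
    have A := Helper36.OC.hGLA I Z
    have hdi : (Z.d i : ℂ) ≠ 0 := by exact_mod_cast (Z.d_pos i).ne'
    have h7 : Pool.Agent.Helper89.OS.Cchi Z i δ = -1 := by
      have h8 := A.Sf_chi i δ
      rw [h5] at h8
      apply mul_left_cancel₀ hdi
      rw [← h8]
      ring
    rcases h2 with h2 | h2
    · rw [hchi, hd, h3, h7] at h6
      have h8 : Q ((-2 : ℤ) : ℂ) := by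
        have h9 : ((-2 : ℤ) : ℂ) = -1 - ((1 : ℕ) : ℂ) := by
          push_cast
          ring
        rw [h9]
        exact h6
      have h9 := (B.pi.int_iff _).1 h8
      rw [dvd_neg] at h9
      have h10 : p ∣ 2 := by exact_mod_cast h9
      exact h2 ((Nat.prime_dvd_prime_iff_eq hp Nat.prime_two).1 h10)
    · by_cases hp2 : p = 2
      · subst hp2
        have h8 : Z.rho (s2 (1 - b)) i Z.o ≠ 0 := by
          intro h9
          apply h2
          have h10 := hz i
          rw [h9, mul_zero] at h10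
          exact_mod_cast h10
        have h9 := Pool.Agent.Helper79.P2.z_cen Z a X.a_pos b hI δ i h3 h4 h8
        rw [h5] at h9
        have h10 : (2 : ℂ) * Z.d i = 0 := by linear_combination (-1 : ℂ) * h9
        rcases mul_eq_zero.1 h10 with h11 | h11
        · norm_num at h11
        · exact hdi h11
      · rw [hchi, hd, h3, h7] at h6
        have h8 : Q ((-2 : ℤ) : ℂ) := by
          have h9 : ((-2 : ℤ) : ℂ) = -1 - ((1 : ℕ) : ℂ) := by
            push_cast
            ring
          rw [h9]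
          exact h6
        have h9 := (B.pi.int_iff _).1 h8
        rw [dvd_neg] at h9
        have h10 : p ∣ 2 := by exact_mod_cast h9
        exact hp2 ((Nat.prime_dvd_prime_iff_eq hp Nat.prime_two).1 h10)
  -- no prime powers on the support of `z`
  have hpp : ∀ i, X.y i ≠ 0 → X.t i = 1 → (p ≠ 2 ∨ X.z i ≠ 0) → ¬ IsPrimePow (X.d i) := by
    intro i h1 h2 h3 h4
    rw [hd] at h4
    obtain ⟨δ, h5, -, h6, -, h7⟩ := Pool.Agent.Helper79.P2.fermion_of_pp Z hT i h4
    exact h7 i h4 (hthK i h1 h2) (hcen i h1 h3 δ h5 h6)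
  have hH : ∀ i, i ≠ X.o → X.y i ≠ 0 → X.z i ≠ 0 → (¬ p ∣ X.d i → q ∣ X.d i ∧ r ∣ X.d i) ∧
      (p ∣ X.d i → q ∣ X.d i ∨ r ∣ X.d i) := by
    intro i h1 h2 h3
    have h4 := X.z_t i h3
    have h5 : 1 < X.d i := by
      have h6 := X.d_pos i
      have h7 := hd1 i h1 h2 h4
      omega
    obtain ⟨l, l', hl, hl', hne, hli, hli'⟩ := Pool.Agent.Helper46.WG.two_primes h5
      (hpp i h2 h4 (Or.inr h3))
    have e1 := hpr i l hl hli
    have e2 := hpr i l' hl' hli'
    constructor
    · intro hnp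
      have f1 : l = q ∨ l = r := by
        rcases e1 with h | h
        · exact absurd (h ▸ hli) hnp
        · exact h
      have f2 : l' = q ∨ l' = r := by
        rcases e2 with h | h
        · exact absurd (h ▸ hli') hnp
        · exact h
      rcases f1 with rfl | rfl <;> rcases f2 with rfl | rfl
      · exact absurd rfl hne
      · exact ⟨hli, hli'⟩
      · exact ⟨hli', hli⟩
      · exact absurd rfl hne
    · intro _
      rcases e1 with h | h | h
      · rcases e2 with h' | h' | h'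
        · exact absurd (h.trans h'.symm) hne
        · left; rw [← h']; exact hli'
        · right; rw [← h']; exact hli'
      · left; rw [← h]; exact hli
      · right; rw [← h]; exact hli
  have hC := C1 X hRAT' B hq hr hqp hrp hq2 hr2 hH
  -- the element of `K` of height zero
  obtain ⟨i, hio, hti, hpy⟩ := exK X B
  have hyi : X.y i ≠ 0 := by
    intro h
    exact hpy (by rw [h]; exact dvd_zero _)
  have hpd : ¬ p ∣ X.d i := fun h => hpy ((dy X B hyi).1 h)
  have hdi1 : 1 < X.d i := by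
    have h6 := X.d_pos i
    have h7 := hd1 i hio hyi hti
    omega
  by_cases hpow : IsPrimePow (X.d i)
  · -- only for `p = 2`
    have hp2 : p = 2 := by
      by_contra h
      exact hpp i hyi hti (Or.inl h) hpow
    subst hp2
    rw [hd] at hpow
    obtain ⟨δ, h5, -, h6, -, h7⟩ := Pool.Agent.Helper79.P2.fermion_of_pp Z hT i hpow
    have h8 := h7 i hpow (hthK i hyi hti)
    have h9 : Sf Z i δ = -(Z.d i : ℂ) :=
      (Pool.Agent.Helper79.P2.inv_pm Z i δ h5 h6).resolve_left h8
    have A := Helper36.OC.hGLA I Z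
    have hdC : ∀ k, (Z.d k : ℂ) ≠ 0 := fun k => by exact_mod_cast (Z.d_pos k).ne'
    have h10 : Pool.Agent.Helper89.OS.Cchi Z i δ = -1 := by
      have h8 := A.Sf_chi i δ
      rw [h9] at h8
      apply mul_left_cancel₀ (hdC i)
      rw [← h8]
      ring
    obtain ⟨v, -, hdv, hv⟩ := Pool.Agent.Helper79.P2.tens Z i δ h5 h6
    -- `v` is in the block
    have hchv : ∀ k, Pool.Agent.Helper89.OS.Cchi Z v k =
        Pool.Agent.Helper89.OS.Cchi Z i k * Pool.Agent.Helper89.OS.Cchi Z k δ := by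
      intro k
      apply mul_left_cancel₀ (hdC v)
      rw [← A.Sf_chi, A.Sf_symm, A.Sf_chi, hv k, hdv]
      have h11 : (Z.d k : ℂ) * Pool.Agent.Helper89.OS.Cchi Z k i =
          (Z.d i : ℂ) * Pool.Agent.Helper89.OS.Cchi Z i k := by
        rw [← A.Sf_chi, ← A.Sf_chi, A.Sf_symm]
      linear_combination Pool.Agent.Helper89.OS.Cchi Z k δ * h11
    have hyv : X.y v ≠ 0 := by
      refine blk_mem X B v fun k => ?_
      have h11 := B.mem i hyi k
      rw [hchi, hd] at h11 ⊢
      rw [hchv k]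
      rcases Pool.Agent.Helper79.P2.inv_pm Z k δ h5 h6 with h12 | h12
      · have h13 : Pool.Agent.Helper89.OS.Cchi Z k δ = 1 := by
          have h14 := A.Sf_chi k δ
          rw [h12] at h14
          apply mul_left_cancel₀ (hdC k)
          rw [← h14]
          ring
        rw [h13, mul_one]
        exact h11
      · have h13 : Pool.Agent.Helper89.OS.Cchi Z k δ = -1 := by
          have h14 := A.Sf_chi k δ
          rw [h12] at h14
          apply mul_left_cancel₀ (hdC k)
          rw [← h14]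
          ring
        rw [h13]
        have h14 : Pool.Agent.Helper89.OS.Cchi Z i k * -1 - (Z.d k : ℂ) =
            (-1) * (Pool.Agent.Helper89.OS.Cchi Z i k - Z.d k) +
            (-(Z.d k : ℂ)) * ((2 : ℤ) : ℂ) := by
          push_cast
          ring
        rw [h14]
        refine B.pi.add _ _ (B.pi.mul _ _ isIntegral_one.neg h11)
          (B.pi.mul _ _ (nint _).neg ((B.pi.int_iff 2).2 (by norm_num)))
    have hvi : v ≠ i := by
      intro h
      have h11 := hv i
      rw [h, h10] at h11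
      have h12 : Pool.Agent.Helper89.OS.Cchi Z i i = 0 := by
        have h13 : (2 : ℂ) * Pool.Agent.Helper89.OS.Cchi Z i i = 0 := by
          linear_combination h11
        rcases mul_eq_zero.1 h13 with h14 | h14
        · norm_num at h14
        · exact h14
      have h13 := B.mem i hyi i
      rw [hchi, h12, zero_sub] at h13
      have h14 : Q ((-(X.d i : ℤ) : ℤ) : ℂ) := by
        push_cast
        exact h13
      have h15 := (B.pi.int_iff _).1 h14
      rw [dvd_neg] at h15
      exact hpd (by exact_mod_cast h15)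
    have hvo : v ≠ X.o := by
      intro h
      rw [h, ← hd, X.d_o] at hdv
      omega
    -- the mass
    obtain ⟨l, hl, hli⟩ := Nat.exists_prime_and_dvd (show X.d i ≠ 1 by omega)
    have hl2 : l ≠ 2 := by
      rintro rfl
      exact hpd hli
    have hl3 : 3 ≤ l := by
      have := hl.two_le
      omega
    have hdvi : X.d v = X.d i := by rw [hd]; exact hdv
    have hly : ∀ j, X.y j ≠ 0 → X.d j = X.d i → 9 ≤ X.y j ^ 2 := by
      intro j hj hdj
      have h11 : (l : ℤ) ∣ X.y j := by
        rcases hpr i l hl hli with h12 | h12 | h12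
        · exact absurd h12 hl2
        · rw [h12]
          exact (hC j hj).1 (by rw [hdj, ← h12]; exact hli)
        · rw [h12]
          exact (hC j hj).2 (by rw [hdj, ← h12]; exact hli)
      obtain ⟨u, hu⟩ := h11
      have hu0 : u ≠ 0 := by
        rintro rfl
        rw [mul_zero] at hu
        exact hj hu
      have hu1 : 1 ≤ u ^ 2 := by
        have : 0 < u ^ 2 := by positivity
        omega
      have hl3' : (3 : ℤ) ≤ l := by exact_mod_cast hl3
      rw [hu, mul_pow]
      nlinarith [mul_le_mul (show (9 : ℤ) ≤ (l : ℤ) ^ 2 by nlinarith) hu1 (by norm_num)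
        (by positivity)]
    have h11 : ∑ k, X.y k ^ 2 = ((2 : ℤ) ^ 2) ^ 2 := by
      have h1 := Pool.Agent.Helper94.P2.norm_col X X.o
      have h2 : ∀ k, ‖X.s k X.o‖ ^ 2 = ((X.y k ^ 2 : ℤ) : ℝ) := by
        intro k
        rw [X.s_o, Complex.norm_intCast, sq_abs]
        push_cast
        ring
      rw [Finset.sum_congr rfl (fun k _ => h2 k)] at h1
      exact_mod_cast h1
    have hx1 : 1 ≤ X.y X.o ^ 2 := by
      have : X.y X.o ≠ 0 := fun h => B.x_nd (by rw [h]; exact dvd_zero _)
      have : 0 < X.y X.o ^ 2 := by positivity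
      omega
    have h12 : ∑ k ∈ ({X.o, i, v} : Finset I), X.y k ^ 2 ≤ ∑ k, X.y k ^ 2 :=
      Finset.sum_le_sum_of_subset_of_nonneg (Finset.subset_univ _) fun k _ _ => sq_nonneg _
    rw [Finset.sum_insert (by
      rw [Finset.mem_insert, Finset.mem_singleton]
      rintro (h | h)
      · exact hio h.symm
      · exact hvo h.symm), Finset.sum_pair (Ne.symm hvi), h11] at h12
    have h13 := hly i hyi rfl
    have h14 := hly v hyv hdvi
    linarith
  · obtain ⟨l, l', hl, hl', hne, hli, hli'⟩ := Pool.Agent.Helper46.WG.two_primes hdi1 hpow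
    have f1 : l = q ∨ l = r := by
      rcases hpr i l hl hli with h | h
      · exact absurd (h ▸ hli) hpd
      · exact h
    have f2 : l' = q ∨ l' = r := by
      rcases hpr i l' hl' hli' with h | h
      · exact absurd (h ▸ hli') hpd
      · exact h
    have h3 : q ≠ r ∧ q ∣ X.d i ∧ r ∣ X.d i := by
      rcases f1 with rfl | rfl <;> rcases f2 with rfl | rfl
      · exact absurd rfl hne
      · exact ⟨hne, hli, hli'⟩
      · exact ⟨Ne.symm hne, hli', hli⟩
      · exact absurd rfl hne
    obtain ⟨hqr', h4, h5⟩ := h3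
    have h6 := (hC i hyi).1 h4
    have h7 := (hC i hyi).2 h5
    have hco : IsCoprime (q : ℤ) (r : ℤ) :=
      Nat.isCoprime_iff_coprime.2 ((Nat.coprime_primes hq hr).2 hqr')
    obtain ⟨u, hu⟩ := hco.mul_dvd h6 h7
    have hu0 : u ≠ 0 := by
      rintro rfl
      rw [mul_zero] at hu
      exact hyi hu
    have hu1 : 1 ≤ u ^ 2 := by
      have : 0 < u ^ 2 := by positivity
      omega
    have h8 := mass X i hio hti
    rw [hu] at h8
    have h9 : ((p : ℤ) ^ 2 + p) < 2 * q * r := by exact_mod_cast hqr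
    have h10 : ((p : ℤ) ^ 2 + p) ^ 2 < (2 * q * r) ^ 2 := by
      have h11 : (0 : ℤ) ≤ (p : ℤ) ^ 2 + p := by positivity
      nlinarith
    have h11 : (2 * (q : ℤ) * r) ^ 2 ≤ 4 * ((q : ℤ) * r * u) ^ 2 := by
      have h12 : 4 * ((q : ℤ) * r * u) ^ 2 = (2 * (q : ℤ) * r) ^ 2 * u ^ 2 := by ring
      rw [h12]
      exact le_mul_of_one_le_right (by positivity) hu1
    linarith

end

end Pool.Agent.Helper89.P2
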