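import Pool.Agent.Helper89.P2.K25B
import Pool.Agent.Helper4.PQ0.M_TAN

/-!
# MP_2b6189_al: the commutation of the two matrices `s` and `n S` on the elements with `t = 1`
-/

set_option autoImplicit false

namespace Pool.Agent.Helper89.P2

open Matrix ComplexConjugate Pool.Agent.Helper94.YG
open Pool.Agent.Helper94.YF hiding StORB
open Pool.Agent.Helper89.OS
open Pool.Agent.Helper89.OC (TanSet Sf)

section

variable {I : Type} [Fintype I] [DecidableEq I]

open Classical in
/-- The commutation of `rho (s2 b)` and `rho Sm`, cut off to the elements with `tw b = 1`. -/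
theorem com_Z (Z : CentreData I) (b : ZMod Z.L) (hb : b * b = b) (i k : I) :
    ∑ j, (if Z.tw b j = 1 then Z.rho (s2 b) i j * Z.rho Sm j k else 0) =
      ∑ j, (if Z.tw b j = 1 then Z.rho Sm i j * Z.rho (s2 b) j k else 0) := by
  obtain ⟨f1, -⟩ := Helper36.YF.hFUS Helper88.YF.hDUA I Z.toCentreRep
  have hb' : (1 - b) * (1 - b) = 1 - b := by linear_combination hb
  have hRM : (s2 (1 - b) * s2 b : SL Z.L) = Sm := Pool.Agent.Helper4.PQ0.TAN.s2s2 b hb
  have hMR : (s2 b * s2 (1 - b) : SL Z.L) = Sm := by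
    have h := Pool.Agent.Helper4.PQ0.TAN.s2s2 (1 - b) hb'
    rwa [sub_sub_cancel] at h
  have hU : (U b * s2 (1 - b) : SL Z.L) = s2 (1 - b) * U b := by
    apply Subtype.ext
    rw [Matrix.SpecialLinearGroup.coe_mul, Matrix.SpecialLinearGroup.coe_mul]
    ext i j
    fin_cases i <;> fin_cases j
    · simp [Matrix.mul_apply, Fin.sum_univ_two, s2_00 (1 - b) hb', s2_01 (1 - b) hb',
        s2_10 (1 - b), s2_11 (1 - b) hb', U]
      linear_combination (-1 : ZMod Z.L) * hb
    · simp [Matrix.mul_apply, Fin.sum_univ_two, s2_00 (1 - b) hb', s2_01 (1 - b) hb',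
        s2_10 (1 - b), s2_11 (1 - b) hb', U]
      ring
    · simp [Matrix.mul_apply, Fin.sum_univ_two, s2_00 (1 - b) hb', s2_01 (1 - b) hb',
        s2_10 (1 - b), s2_11 (1 - b) hb', U]
    · simp [Matrix.mul_apply, Fin.sum_univ_two, s2_00 (1 - b) hb', s2_01 (1 - b) hb',
        s2_10 (1 - b), s2_11 (1 - b) hb', U]
      linear_combination (-1 : ZMod Z.L) * hb
  -- `M i j = 0` unless `tw b i = tw b j`
  have hM : ∀ i j, Z.rho (s2 (1 - b)) i j ≠ 0 → Z.tw b i = Z.tw b j := by
    intro i j h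
    have h1 := congrArg Z.rho hU
    rw [map_mul, map_mul, f1 b] at h1
    have h2 := congrFun (congrFun h1 i) j
    rw [Matrix.diagonal_mul, Matrix.mul_diagonal] at h2
    have h3 : (Z.tw b i - Z.tw b j) * Z.rho (s2 (1 - b)) i j = 0 := by linear_combination h2
    rcases mul_eq_zero.1 h3 with h4 | h4
    · exact sub_eq_zero.1 h4
    · exact absurd h4 h
  have hS1 : ∀ j k, Z.rho Sm j k = ∑ l, Z.rho (s2 (1 - b)) j l * Z.rho (s2 b) l k := by
    intro j k
    rw [← hRM, map_mul, Matrix.mul_apply]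
  have hS2 : ∀ j k, Z.rho Sm j k = ∑ l, Z.rho (s2 b) j l * Z.rho (s2 (1 - b)) l k := by
    intro j k
    rw [← hMR, map_mul, Matrix.mul_apply]
  have e1 : ∀ j, (if Z.tw b j = 1 then Z.rho (s2 b) i j * Z.rho Sm j k else 0) =
      ∑ l, (if Z.tw b j = 1 ∧ Z.tw b l = 1 then
        Z.rho (s2 b) i j * (Z.rho (s2 (1 - b)) j l * Z.rho (s2 b) l k) else 0) := by
    intro j
    by_cases hj : Z.tw b j = 1
    · rw [if_pos hj, hS1, Finset.mul_sum]
      refine Finset.sum_congr rfl fun l _ => ?_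
      by_cases hl : Z.tw b l = 1
      · rw [if_pos ⟨hj, hl⟩]
      · rw [if_neg (fun h => hl h.2)]
        have : Z.rho (s2 (1 - b)) j l = 0 := by
          by_contra h
          exact hl ((hM j l h).symm.trans hj)
        rw [this]
        ring
    · rw [if_neg hj]
      symm
      exact Finset.sum_eq_zero fun l _ => if_neg (fun h => hj h.1)
  have e2 : ∀ j, (if Z.tw b j = 1 then Z.rho Sm i j * Z.rho (s2 b) j k else 0) =
      ∑ l, (if Z.tw b l = 1 ∧ Z.tw b j = 1 then
        Z.rho (s2 b) i l * (Z.rho (s2 (1 - b)) l j * Z.rho (s2 b) j k) else 0) := by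
    intro j
    by_cases hj : Z.tw b j = 1
    · rw [if_pos hj, hS2, Finset.sum_mul]
      refine Finset.sum_congr rfl fun l _ => ?_
      by_cases hl : Z.tw b l = 1
      · rw [if_pos ⟨hl, hj⟩]
        ring
      · rw [if_neg (fun h => hl h.1)]
        have : Z.rho (s2 (1 - b)) l j = 0 := by
          by_contra h
          exact hl ((hM l j h).trans hj)
        rw [this]
        ring
    · rw [if_neg hj]
      symm
      exact Finset.sum_eq_zero fun l _ => if_neg (fun h => hj h.2)
  rw [Finset.sum_congr rfl fun j _ => e1 j, Finset.sum_congr rfl fun j _ => e2 j,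
    Finset.sum_comm]

open Classical in
/-- the facts on `n S = (d j chi j k)` -/
structure CM {p a P : ℕ} (X : PK I p a P) : Prop where
  symm : ∀ j k, (X.d j : ℂ) * X.chi j k = (X.d k : ℂ) * X.chi k j
  com : ∀ i k, ∑ j, (if X.t j = 1 then X.s i j * ((X.d j : ℂ) * X.chi j k) else 0) =
    ∑ j, (if X.t j = 1 then ((X.d i : ℂ) * X.chi i j) * X.s j k else 0)
  kap : ∀ i, ∑ k, X.s i k * (X.kap k : ℂ) = (P : ℂ) * X.kap i

theorem CM_of (Z : CentreData I) {p a P : ℕ} (X : PK I p a P) (b : ZMod Z.L) (hb : b * b = b)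
    (hd : X.d = Z.d) (hkp : X.kap = Z.kap) (ht : X.t = Z.tw b)
    (hs : X.s = fun i k => (P : ℂ) * Z.rho (s2 b) i k)
    (hchi : X.chi = Pool.Agent.Helper89.OS.Cchi Z) : CM X := by
  classical
  have A := Helper36.OC.hGLA I Z
  have hS : ∀ j k, (X.d j : ℂ) * X.chi j k = (Z.n : ℂ) * Z.rho Sm j k := by
    intro j k
    rw [hd, hchi]
    exact (A.Sf_chi j k).symm
  refine ⟨?_, ?_, ?_⟩
  · intro j k
    rw [hS, hS, Z.s_symm]
  · intro i k
    have h := congrArg (fun x => (P : ℂ) * (Z.n : ℂ) * x) (com_Z Z b hb i k)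
    simp only [Finset.mul_sum] at h
    rw [ht]
    calc ∑ j, (if Z.tw b j = 1 then X.s i j * ((X.d j : ℂ) * X.chi j k) else 0)
        = ∑ j, (P : ℂ) * (Z.n : ℂ) *
          (if Z.tw b j = 1 then Z.rho (s2 b) i j * Z.rho Sm j k else 0) := by
          refine Finset.sum_congr rfl fun j _ => ?_
          rw [hS, hs]
          split_ifs <;> ring
      _ = _ := h
      _ = ∑ j, (if Z.tw b j = 1 then ((X.d i : ℂ) * X.chi i j) * X.s j k else 0) := by
          refine Finset.sum_congr rfl fun j _ => ?_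
          rw [hS, hs]
          split_ifs <;> ring
  · intro i
    have h3 := Z.kap_inv (s2 b) i
    rw [hkp, hs, ← h3, Finset.mul_sum]
    refine Finset.sum_congr rfl fun k _ => ?_
    ring

end

end Pool.Agent.Helper89.P2
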