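import Pool.Agent.Helper4.PQ0.Defs

/-!
# MP_2b6189_al: the `p`-local data of the centre for a prime power `P = p ^ k` exactly dividing `n`

The structure `PK` is `Pool.Agent.Helper4.PQ0.PD` with `p` replaced by `P = p ^ k` (`n = P m`, `p` does not divide `m`), without the
field `p_odd`.  Paper proof: `/team-store` notes of the project MP_2b6189 (k = 2), messages of helper89, helper94, helper52, helper79.
-/

set_option autoImplicit false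

namespace Pool.Agent.Helper89.P2

open Matrix ComplexConjugate Pool.Agent.Helper94.YF Pool.Agent.Helper94.YG
open Pool.Agent.Helper89.OS (PI)

/-- The `p`-local data of `Z(C)`, `n = P m`, `P = p ^ k`, `p` does not divide `m`. -/
structure PK (I : Type) [Fintype I] [DecidableEq I] (p a P : ℕ) where
  o : I
  st : I → I
  d : I → ℕ
  m : ℕ
  kap : I → ℕ
  th : I → ℂ
  t : I → ℂ
  s : I → I → ℂ
  y : I → ℤ
  z : I → ℤ
  chi : I → I → ℂ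
  N : I → I → I → ℕ
  pi : (ZMod (p ^ a))ˣ → I → I
  k : ℕ
  k_pos : 1 ≤ k
  P_eq : P = p ^ k
  prime : p.Prime
  a_pos : 1 ≤ a
  cop : ¬ p ∣ m
  m_pos : 0 < m
  -- duality
  st_st : ∀ i, st (st i) = i
  st_o : st o = o
  d_st : ∀ i, d (st i) = d i
  t_st : ∀ i, t (st i) = t i
  y_st : ∀ i, y (st i) = y i
  -- dimensions, twists
  d_pos : ∀ i, 0 < d i
  d_o : d o = 1
  d_dvd : ∀ i, d i ∣ P * m
  t_pow : ∀ i, t i ^ (p ^ a) = 1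
  t_o : t o = 1
  th_of : ∀ i, y i ≠ 0 → t i = 1 → th i = 1
  -- the Lagrangian algebra
  kap_o : kap o = 1
  kap_t : ∀ i, kap i ≠ 0 → t i = 1
  kap_y : ∑ i, y i * (kap i : ℤ) = P
  -- the matrix s
  s_symm : ∀ i j, s i j = s j i
  s_o : ∀ i, s i o = y i
  s_int : ∀ i j, IsIntegral ℤ (s i j)
  s_uni : ∀ i j, ∑ k, s i k * conj (s j k) = if i = j then (P : ℂ) ^ 2 else 0
  sd : ∀ i, ∑ j, s i j * (d j : ℂ) = (P : ℂ) ^ 2 * z i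
  sz : ∀ i, ∑ j, s i j * (z j : ℂ) = d i
  z_t : ∀ i, z i ≠ 0 → t i = 1
  z_dvd : ∀ i, (d i : ℤ) ∣ P * z i
  -- the torus
  pi_one : ∀ i, pi 1 i = i
  pi_mul : ∀ c c' i, pi (c * c') i = pi c (pi c' i)
  pi_o : ∀ c, pi c o = o
  pi_d : ∀ c i, d (pi c i) = d i
  pi_y : ∀ c i, y (pi c i) = y i
  pi_z : ∀ c i, z (pi c i) = z i
  pi_chi : ∀ c j k, chi (pi c j) k = chi j (pi c k)
  pi_t : ∀ c i, t (pi c i) = t i ^ ((c : ZMod (p ^ a)) ^ 2).val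
  pi_s : ∀ c i j, s (pi c i) j = s i (pi c j)
  conj_s : ∀ i j, conj (s i j) = s i (pi (-1) j)
  gal : ∀ σ : ℂ ≃+* ℂ, ∃ c, ∀ i j, σ (s i j) = s i (pi c j)
  weil0 : ∀ i j, ∑ k, s i k * s k j = if i = pi (-1) j then (P : ℂ) ^ 2 else 0
  weil : ∀ (w : (ZMod (p ^ a))ˣ) (i j : I), ∑ k, t k ^ (w : ZMod (p ^ a)).val * (s i k * s k j) =
    (P : ℂ) * (t i ^ (-((w⁻¹ : (ZMod (p ^ a))ˣ) : ZMod (p ^ a))).val *
      t j ^ (-((w⁻¹ : (ZMod (p ^ a))ˣ) : ZMod (p ^ a))).val) * s i (pi w⁻¹ j)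
  ex : ∃ k, y k ≠ 0 ∧ t k ^ (p ^ (a - 1)) ≠ 1
  -- the fusion ring
  chi_int : ∀ j k, IsIntegral ℤ (chi j k)
  chi_o : ∀ j, chi j o = 1
  o_chi : ∀ k, chi o k = d k
  chi_mul : ∀ j k l, chi j k * chi j l = ∑ v, (N k l v : ℂ) * chi j v
  con : ∃ w : I → I → ℂ, (∀ i k, IsIntegral ℤ (w i k)) ∧
    ∀ i j, (m : ℂ) ^ 2 * s j i = (d j : ℂ) * ∑ k, w i k * chi j k
  nhat : ∀ k i i', IsIntegral ℤ ((m : ℂ) ^ 2 / (P : ℂ) ^ 2 * ∑ j, conj (s j i) * chi j k * s j i')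

/-- the structure of the principal block, with the congruence divided by `d j` -/
structure BK {I : Type} [Fintype I] [DecidableEq I] {p a P : ℕ} (X : PK I p a P) (Q : ℂ → Prop) :
    Prop where
  pi : PI p Q
  x_nd : ¬ (p : ℤ) ∣ X.y X.o
  val : ∀ j, X.y j ≠ 0 → ∃ c : ℤ, ¬ (p : ℤ) ∣ c ∧ (X.m : ℤ) ^ 2 * X.y j = X.d j * c
  cg : ∀ j, X.y j ≠ 0 → ∀ i, ∃ q : ℂ, Q q ∧ IsIntegral ℤ q ∧
    (X.m : ℂ) ^ 2 * X.s j i = (X.d j : ℂ) * ((X.m : ℂ) ^ 2 * X.y i + q)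
  sup : ∀ j i, X.y j ≠ 0 → X.y i = 0 → X.s j i = 0
  mem : ∀ j, X.y j ≠ 0 → ∀ k, Q (X.chi j k - X.d k)

end Pool.Agent.Helper89.P2
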