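import Pool.Agent.Helper89.P2.Com

/-!
# MP_2b6189_al: `g ^ 2` divides `P - y o`
-/

set_option autoImplicit false

namespace Pool.Agent.Helper89.P2

open Matrix ComplexConjugate Pool.Agent.Helper94.YG
open Pool.Agent.Helper94.YF hiding StORB
open Pool.Agent.Helper89.OS (PI Idp)

section

variable {I : Type} [Fintype I] [DecidableEq I] {p a P : ℕ}

theorem dvd_of_intN (hR : StRAT) {q : ℕ} (hq : q ≠ 0) (n : ℤ) (w : ℂ) (hw : IsIntegral ℤ w)
    (h : (n : ℂ) = (q : ℂ) * w) : (q : ℤ) ∣ n := by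
  have hq0 : (q : ℂ) ≠ 0 := by exact_mod_cast hq
  have hq1 : (q : ℚ) ≠ 0 := by exact_mod_cast hq
  have h1 : (((n : ℚ) / q : ℚ) : ℂ) = w := by
    push_cast
    rw [h]
    field_simp
  obtain ⟨c, hc⟩ := hR.2 ((n : ℚ) / q) (by rw [h1]; exact hw)
  refine ⟨c, ?_⟩
  have h2 : (n : ℚ) = q * c := by
    have h3 : (c : ℚ) = (n : ℚ) / q := hc
    rw [h3]
    field_simp
  exact_mod_cast h2

open Classical in
/-- the multiplicities of the Lagrangian algebra on the block -/
noncomputable def cc (X : PK I p a P) (i : I) : ℤ := if X.y i ≠ 0 then (X.kap i : ℤ) else 0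

theorem cc_s (X : PK I p a P) {Q : ℂ → Prop} (B : BK X Q) (C : CM X) (j : I) :
    ∑ i, (cc X i : ℂ) * X.s i j = (P : ℂ) * cc X j := by
  by_cases hj : X.y j = 0
  · have h1 : cc X j = 0 := by simp [cc, hj]
    rw [h1]
    push_cast
    rw [mul_zero]
    refine Finset.sum_eq_zero fun i _ => ?_
    by_cases hi : X.y i = 0
    · have : cc X i = 0 := by simp [cc, hi]
      rw [this]
      simp
    · rw [B.sup i j hi hj, mul_zero]
  · have h1 : (cc X j : ℂ) = X.kap j := by
      have : cc X j = (X.kap j : ℤ) := by simp [cc, hj]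
      rw [this]
      simp
    rw [h1, ← C.kap j]
    refine Finset.sum_congr rfl fun i _ => ?_
    by_cases hi : X.y i = 0
    · rw [X.s_symm i j, B.sup j i hj hi]
      ring
    · have : cc X i = (X.kap i : ℤ) := by simp [cc, hi]
      rw [this, X.s_symm i j]
      push_cast
      ring

theorem cc_t (X : PK I p a P) (j : I) (h : cc X j ≠ 0) : X.y j ≠ 0 ∧ X.t j = 1 := by
  unfold cc at h
  by_cases hy : X.y j = 0
  · simp [hy] at h
  · rw [if_pos hy] at h
    exact ⟨hy, X.kap_t j (by exact_mod_cast h)⟩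

open Classical in
theorem star (X : PK I p a P) {Q : ℂ → Prop} (B : BK X Q) (C : CM X) :
    (P : ℂ) * ∑ j, (cc X j : ℂ) * X.d j = ∑ i, (cc X i : ℂ) *
      ∑ j, (if X.t j = 1 then ((X.d i : ℂ) * X.chi i j) * X.y j else 0) := by
  have h1 : ∀ i, (cc X i : ℂ) * ∑ j, (if X.t j = 1 then ((X.d i : ℂ) * X.chi i j) * X.y j else 0) =
      ∑ j, (if X.t j = 1 then (cc X i : ℂ) * X.s i j * X.d j else 0) := by
    intro i
    have h2 := C.com i X.o
    have h3 : ∑ j, (if X.t j = 1 then ((X.d i : ℂ) * X.chi i j) * X.s j X.o else 0) =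
        ∑ j, (if X.t j = 1 then ((X.d i : ℂ) * X.chi i j) * X.y j else 0) := by
      refine Finset.sum_congr rfl fun j _ => ?_
      rw [X.s_o]
    rw [← h3, ← h2, Finset.mul_sum]
    refine Finset.sum_congr rfl fun j _ => ?_
    rw [X.chi_o]
    split_ifs <;> ring
  rw [Finset.sum_congr rfl fun i _ => h1 i, Finset.sum_comm, Finset.mul_sum]
  refine Finset.sum_congr rfl fun j _ => ?_
  by_cases hj : X.t j = 1
  · simp only [if_pos hj]
    rw [← Finset.sum_mul, cc_s X B C]
    ring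
  · simp only [if_neg hj]
    have : cc X j = 0 := by
      by_contra h
      exact hj (cc_t X j h).2
    rw [this]
    simp

/-- **`g ^ 2` divides `P - y o`.** -/
theorem gsq (X : PK I p a P) (hR : StRAT) {Q : ℂ → Prop} (B : BK X Q) (C : CM X) (g : ℕ)
    (hg : g ≠ 0) (hd : ∀ j, j ≠ X.o → X.y j ≠ 0 → X.t j = 1 → g ∣ X.d j)
    (hy : ∀ j, j ≠ X.o → X.y j ≠ 0 → X.t j = 1 → (g : ℤ) ∣ X.y j) :
    (g : ℤ) ^ 2 ∣ (P : ℤ) - X.y X.o := by
  classical
  -- the quotients
  have hu : ∀ j, ∃ u : ℤ, j ≠ X.o → X.t j = 1 → X.y j = g * u := by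
    intro j
    by_cases h : j ≠ X.o ∧ X.t j = 1
    · by_cases h0 : X.y j = 0
      · exact ⟨0, fun _ _ => by rw [h0]; ring⟩
      · obtain ⟨u, hu⟩ := hy j h.1 h0 h.2
        exact ⟨u, fun _ _ => hu⟩
    · exact ⟨0, fun h1 h2 => absurd ⟨h1, h2⟩ h⟩
  have he : ∀ j, ∃ e : ℕ, j ≠ X.o → X.y j ≠ 0 → X.t j = 1 → X.d j = g * e := by
    intro j
    by_cases h : j ≠ X.o ∧ X.y j ≠ 0 ∧ X.t j = 1
    · obtain ⟨e, he⟩ := hd j h.1 h.2.1 h.2.2
      exact ⟨e, fun _ _ _ => he⟩
    · exact ⟨0, fun h1 h2 h3 => absurd ⟨h1, h2, h3⟩ h⟩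
  choose u hu using hu
  choose e he using he
  have hyo : X.y X.o ≠ 0 := by
    intro h
    exact B.x_nd (by rw [h]; exact dvd_zero _)
  have hco : cc X X.o = 1 := by
    unfold cc
    rw [if_pos hyo, X.kap_o]
    norm_num
  have h := star X B C
  -- the inner sums
  have h1 : ∀ i, ∑ j, (if X.t j = 1 then ((X.d i : ℂ) * X.chi i j) * X.y j else 0) =
      X.d i * X.y X.o + (g : ℂ) * ∑ j ∈ Finset.univ.erase X.o,
        (if X.t j = 1 then ((X.d i : ℂ) * X.chi i j) * u j else 0) := by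
    intro i
    rw [← Finset.add_sum_erase _ _ (Finset.mem_univ X.o), if_pos X.t_o, X.chi_o, Finset.mul_sum]
    congr 1
    · ring
    · refine Finset.sum_congr rfl fun j hj => ?_
      by_cases ht : X.t j = 1
      · rw [if_pos ht, if_pos ht, hu j (Finset.mem_erase.1 hj).1 ht]
        push_cast
        ring
      · rw [if_neg ht, if_neg ht, mul_zero]
  set T : ℤ := ∑ j, cc X j * X.d j with hT
  -- the remainders are divisible by `g ^ 2`
  have hw : ∀ i, ∃ w : ℂ, IsIntegral ℤ w ∧ (cc X i : ℂ) * ((g : ℂ) *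
      ∑ j ∈ Finset.univ.erase X.o, (if X.t j = 1 then ((X.d i : ℂ) * X.chi i j) * u j else 0)) =
      (g : ℂ) ^ 2 * w := by
    intro i
    by_cases hi : cc X i = 0
    · exact ⟨0, isIntegral_zero, by rw [hi]; simp⟩
    obtain ⟨hyi, hti⟩ := cc_t X i hi
    by_cases hio : i = X.o
    · subst hio
      refine ⟨∑ j ∈ Finset.univ.erase X.o, (if X.t j = 1 ∧ X.y j ≠ 0 then (e j : ℂ) * u j else 0),
        IsIntegral.sum _ fun j _ => ?_, ?_⟩
      · split_ifs
        · exact (nint _).mul (cint _)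
        · exact isIntegral_zero
      · rw [hco]
        push_cast
        rw [one_mul, sq, mul_assoc, Finset.mul_sum, Finset.mul_sum]
        congr 1
        rw [Finset.mul_sum] 
        refine Finset.sum_congr rfl fun j hj => ?_
        have hjo := (Finset.mem_erase.1 hj).1
        by_cases ht : X.t j = 1
        · by_cases h0 : X.y j = 0
          · have hu0 : u j = 0 := by
              have h2 := hu j hjo ht
              rw [h0] at h2
              have h3 : (g : ℤ) ≠ 0 := by exact_mod_cast hg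
              rcases mul_eq_zero.1 h2.symm with h4 | h4
              · exact absurd h4 h3
              · exact h4
            rw [if_pos ht, if_neg (fun h => h.2 h0), hu0]
            simp
          · rw [if_pos ht, if_pos ⟨ht, h0⟩, X.d_o, X.o_chi, he j hjo h0 ht]
            push_cast
            ring
        · rw [if_neg ht, if_neg (fun h => ht h.1)]
          ring
    · refine ⟨(cc X i : ℂ) * ∑ j ∈ Finset.univ.erase X.o,
        (if X.t j = 1 then ((e i : ℂ) * X.chi i j) * u j else 0), (cint _).mul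
        (IsIntegral.sum _ fun j _ => ?_), ?_⟩
      · split_ifs
        · exact ((nint _).mul (X.chi_int i j)).mul (cint _)
        · exact isIntegral_zero
      · have h2 : ∑ j ∈ Finset.univ.erase X.o,
            (if X.t j = 1 then ((X.d i : ℂ) * X.chi i j) * u j else 0) = (g : ℂ) *
            ∑ j ∈ Finset.univ.erase X.o,
            (if X.t j = 1 then ((e i : ℂ) * X.chi i j) * u j else 0) := by
          rw [Finset.mul_sum]
          refine Finset.sum_congr rfl fun j _ => ?_
          rw [he i hio hyi hti]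
          push_cast
          split_ifs <;> ring
        rw [h2]
        ring
  choose w hw1 hw2 using hw
  have h3 : (((P : ℤ) - X.y X.o) * T : ℤ) = (g : ℂ) ^ 2 * ∑ i, w i := by
    have h4 : ∀ i, (cc X i : ℂ) *
        ∑ j, (if X.t j = 1 then ((X.d i : ℂ) * X.chi i j) * X.y j else 0) =
        (cc X i : ℂ) * X.d i * X.y X.o + (g : ℂ) ^ 2 * w i := by
      intro i
      rw [h1 i, ← hw2 i]
      ring
    rw [Finset.sum_congr rfl fun i _ => h4 i, Finset.sum_add_distrib, ← Finset.sum_mul,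
      ← Finset.mul_sum] at h
    rw [hT]
    push_cast
    linear_combination h
  have h4 : ((g ^ 2 : ℕ) : ℤ) ∣ ((P : ℤ) - X.y X.o) * T := by
    refine dvd_of_intN hR (pow_ne_zero 2 hg) _ (∑ i, w i) (IsIntegral.sum _ fun i _ => hw1 i) ?_
    rw [h3]
    push_cast
    ring
  -- `T` is prime to `g`
  have h5 : ∃ v : ℤ, T = 1 + g * v := by
    have h6 : (g : ℤ) ∣ ∑ j ∈ Finset.univ.erase X.o, cc X j * X.d j := by
      refine Finset.dvd_sum fun j hj => ?_
      by_cases hc : cc X j = 0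
      · rw [hc, zero_mul]; exact dvd_zero _
      · obtain ⟨h7, h8⟩ := cc_t X j hc
        refine Dvd.dvd.mul_left ?_ _
        exact_mod_cast hd j (Finset.mem_erase.1 hj).1 h7 h8
    obtain ⟨v, hv⟩ := h6
    refine ⟨v, ?_⟩
    rw [hT, ← Finset.add_sum_erase _ _ (Finset.mem_univ X.o), hv, hco, X.d_o]
    norm_num
  obtain ⟨v, hv⟩ := h5
  have h6 : IsCoprime ((g ^ 2 : ℕ) : ℤ) T := by
    have h7 : IsCoprime (g : ℤ) T := ⟨-v, 1, by rw [hv]; ring⟩
    push_cast
    exact h7.pow_left
  have h7 := h6.dvd_of_dvd_mul_right h4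
  push_cast at h7
  exact h7

/-- the bounds for `y o` -/
theorem x_bd (X : PK I p a P) (hP : 0 < P) (i : I) (hio : i ≠ X.o) (hyi : X.y i ≠ 0)
    (hti : X.t i = 1) : 0 < (P : ℤ) - X.y X.o ∧ 0 < (P : ℤ) + p * X.y X.o := by
  classical
  have h1 := massT X {X.o, i} (by
    intro l hl
    rcases Finset.mem_insert.1 hl with h | h
    · rw [h]; exact X.t_o
    · rw [Finset.mem_singleton.1 h]; exact hti)
  rw [Finset.sum_pair (Ne.symm hio)] at h1
  have hp : (0 : ℤ) < p := by exact_mod_cast X.prime.pos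
  have hP' : (0 : ℤ) < P := by exact_mod_cast hP
  have h2 : 0 < X.y i ^ 2 := by positivity
  have h3 : 0 < ((P : ℤ) - X.y X.o) * ((P : ℤ) + p * X.y X.o) := by nlinarith
  by_cases h4 : 0 < (P : ℤ) - X.y X.o
  · exact ⟨h4, (pos_iff_pos_of_mul_pos h3).1 h4⟩
  · exfalso
    have h5 : 0 < X.y X.o := by omega
    have h6 : 0 < (P : ℤ) + p * X.y X.o := by positivity
    exact h4 ((pos_iff_pos_of_mul_pos h3).2 h6)

end

end Pool.Agent.Helper89.P2
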