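import Pool.Agent.Helper89.P2.Ray

/-!
# MP_2b6189_al: heights and orbits in the principal block
-/

set_option autoImplicit false

namespace Pool.Agent.Helper89.P2

open Matrix ComplexConjugate Pool.Agent.Helper94.YF Pool.Agent.Helper94.YG
open Pool.Agent.Helper89.OS (PI)

section

variable {I : Type} [Fintype I] [DecidableEq I] {p a P : ℕ}

theorem cint (k : ℤ) : IsIntegral ℤ (k : ℂ) := by
  have : IsIntegral ℤ (algebraMap ℤ ℂ k) := isIntegral_algebraMap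
  simpa using this

theorem nint (k : ℕ) : IsIntegral ℤ (k : ℂ) := by
  have := cint k
  exact_mod_cast this

theorem p_ne (X : PK I p a P) : (p : ℂ) ≠ 0 := by exact_mod_cast X.prime.ne_zero

theorem pprime (X : PK I p a P) : Prime (p : ℤ) := Nat.prime_iff_prime_int.mp X.prime

theorem m2_nd (X : PK I p a P) : ¬ (p : ℤ) ∣ (X.m : ℤ) ^ 2 := fun h =>
  X.cop (by exact_mod_cast (pprime X).dvd_of_dvd_pow h)

theorem s_div (X : PK I p a P) {Q : ℂ → Prop} (B : BK X Q) {j : I} (hj : X.y j ≠ 0)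
    (hd : p ∣ X.d j) (i : I) : IsIntegral ℤ (X.s j i / p) := by
  have hp0 := p_ne X
  obtain ⟨q, -, hq, h1⟩ := B.cg j hj i
  obtain ⟨d', hd'⟩ := hd
  have h2 : IsIntegral ℤ ((X.m : ℂ) ^ 2 * (X.s j i / p)) := by
    have h3 : (X.m : ℂ) ^ 2 * (X.s j i / p) = (d' : ℂ) * ((X.m : ℂ) ^ 2 * X.y i + q) := by
      have h4 : (X.m : ℂ) ^ 2 * (X.s j i / p) = ((X.m : ℂ) ^ 2 * X.s j i) / p := by ring
      rw [h4, h1, hd']
      push_cast
      field_simp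
    rw [h3]
    exact (nint _).mul ((((nint _).pow 2).mul (cint _)).add hq)
  have hco : IsCoprime ((X.m : ℤ) ^ 2) (p : ℤ) :=
    (Int.isCoprime_iff_gcd_eq_one.2 (by
      have h5 := (Nat.Prime.coprime_iff_not_dvd X.prime).2 X.cop
      have h6 : Nat.Coprime (X.m ^ 2) p := Nat.Coprime.pow_left 2 h5.symm
      have h7 : Int.gcd (((X.m ^ 2 : ℕ)) : ℤ) ((p : ℕ) : ℤ) = 1 := by
        rw [Int.gcd_natCast_natCast]; exact h6
      push_cast at h7
      exact h7))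
  obtain ⟨u, v, huv⟩ := hco
  have h8 : X.s j i / p = (u : ℂ) * ((X.m : ℂ) ^ 2 * (X.s j i / p)) + (v : ℂ) * X.s j i := by
    have h9 : (u : ℂ) * (X.m : ℂ) ^ 2 + (v : ℂ) * p = 1 := by exact_mod_cast huv
    have h10 : (v : ℂ) * X.s j i = (v : ℂ) * p * (X.s j i / p) := by field_simp
    rw [h10]
    linear_combination (-(X.s j i / p)) * h9
  rw [h8]
  exact ((cint u).mul h2).add ((cint v).mul (X.s_int j i))

theorem s_Q (X : PK I p a P) {Q : ℂ → Prop} (B : BK X Q) {j : I} (hj : X.y j ≠ 0)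
    (hd : p ∣ X.d j) (i : I) (hy : (p : ℤ) ∣ X.y i) : Q (X.s j i / p) := by
  have hp0 := p_ne X
  have hdiv := s_div X B hj hd i
  obtain ⟨q, hQ, hq, h1⟩ := B.cg j hj i
  obtain ⟨d', hd'⟩ := hd
  have h3 : (X.m : ℂ) ^ 2 * (X.s j i / p) = (d' : ℂ) * ((X.m : ℂ) ^ 2 * X.y i + q) := by
    have h4 : (X.m : ℂ) ^ 2 * (X.s j i / p) = ((X.m : ℂ) ^ 2 * X.s j i) / p := by ring
    rw [h4, h1, hd']
    push_cast
    field_simp
  have h5 : Q ((X.m : ℂ) ^ 2 * X.y i) := by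
    have h6 : Q (((X.m : ℤ) ^ 2 * X.y i : ℤ) : ℂ) := (B.pi.int_iff _).2 (hy.mul_left _)
    push_cast at h6
    exact h6
  have h7 : Q ((X.m : ℂ) ^ 2 * (X.s j i / p)) := by
    rw [h3]
    exact B.pi.mul _ _ (nint _) (B.pi.add _ _ h5 hQ)
  rcases B.pi.prime _ _ ((nint _).pow 2) hdiv h7 with h8 | h8
  · exfalso
    have h9 : Q (((X.m : ℤ) ^ 2 : ℤ) : ℂ) := by
      push_cast
      exact h8
    exact m2_nd X ((B.pi.int_iff _).1 h9)
  · exact h8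

/-- For `y j ≠ 0`: `p ∣ d j` iff `p ∣ y j`. -/
theorem dy (X : PK I p a P) {Q : ℂ → Prop} (B : BK X Q) {j : I} (hj : X.y j ≠ 0) :
    p ∣ X.d j ↔ (p : ℤ) ∣ X.y j := by
  obtain ⟨c, hc, h⟩ := B.val j hj
  constructor
  · intro hd
    have h1 : (p : ℤ) ∣ (X.m : ℤ) ^ 2 * X.y j := by
      rw [h]
      exact Dvd.dvd.mul_right (by exact_mod_cast hd) _
    exact ((pprime X).dvd_or_dvd h1).resolve_left (m2_nd X)
  · intro hy
    have h1 : (p : ℤ) ∣ (X.d j : ℤ) * c := by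
      rw [← h]
      exact hy.mul_left _
    have h2 := ((pprime X).dvd_or_dvd h1).resolve_right hc
    exact_mod_cast h2

theorem rat_sum (X : PK I p a P) (hR : StRAT) (S : Finset I)
    (hS : ∀ c, ∀ i ∈ S, X.pi c i ∈ S) (j : I) : ∃ n : ℤ, (n : ℂ) = ∑ i ∈ S, X.s j i := by
  refine hR.1 _ (IsIntegral.sum _ fun i _ => X.s_int j i) ?_
  intro σ
  obtain ⟨c, hc⟩ := X.gal σ
  rw [map_sum, Finset.sum_congr rfl fun i _ => hc j i]
  refine Finset.sum_nbij' (X.pi c) (X.pi c⁻¹) ?_ ?_ ?_ ?_ ?_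
  · intro k hk
    exact hS c k hk
  · intro k hk
    exact hS c⁻¹ k hk
  · intro k _
    rw [← X.pi_mul, inv_mul_cancel, X.pi_one]
  · intro k _
    rw [← X.pi_mul, mul_inv_cancel, X.pi_one]
  · intro k _
    rfl

theorem div1 (X : PK I p a P) (hR : StRAT) {Q : ℂ → Prop} (B : BK X Q) {j : I} (hj : X.y j ≠ 0)
    (hd : p ∣ X.d j) (S : Finset I) (n : ℤ) (hn : (n : ℂ) = ∑ i ∈ S, X.s j i) :
    ∃ c : ℤ, n = p * c ∧ (c : ℂ) = ∑ i ∈ S, X.s j i / p := by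
  have hp0 := p_ne X
  have h1 : (((n : ℚ) / p : ℚ) : ℂ) = ∑ i ∈ S, X.s j i / p := by
    push_cast
    rw [hn, Finset.sum_div]
  obtain ⟨c, hc⟩ := hR.2 ((n : ℚ) / p) (by
    rw [h1]
    exact IsIntegral.sum _ fun i _ => s_div X B hj hd i)
  have hpq : (p : ℚ) ≠ 0 := by exact_mod_cast X.prime.ne_zero
  refine ⟨c, ?_, ?_⟩
  · have h2 : (n : ℚ) = p * c := by
      have h3 : (c : ℚ) = (n : ℚ) / p := hc
      rw [h3]
      field_simp
    exact_mod_cast h2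
  · rw [← h1, ← hc]
    simp

theorem div2 (X : PK I p a P) (hR : StRAT) {Q : ℂ → Prop} (B : BK X Q) {j : I} (hj : X.y j ≠ 0)
    (hd : p ∣ X.d j) (S : Finset I) (hS : ∀ i ∈ S, (p : ℤ) ∣ X.y i) (n : ℤ)
    (hn : (n : ℂ) = ∑ i ∈ S, X.s j i) : ∃ c : ℤ, n = (p : ℤ) ^ 2 * c := by
  obtain ⟨c, hc, h1⟩ := div1 X hR B hj hd S n hn
  have h2 : Q (c : ℂ) := by
    rw [h1]
    exact Finset.sum_induction _ Q B.pi.add B.pi.zero fun i hi => s_Q X B hj hd i (hS i hi)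
  obtain ⟨c', hc'⟩ := (B.pi.int_iff c).1 h2
  exact ⟨c', by rw [hc, hc']; ring⟩

end

end Pool.Agent.Helper89.P2
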