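import Pool.Agent.Helper89.P2.K2

/-!
# MP_2b6189_al: `n = 25 m`, tools: three torus fixed elements
-/

set_option autoImplicit false

namespace Pool.Agent.Helper89.P2

open Matrix ComplexConjugate Pool.Agent.Helper94.YG
open Pool.Agent.Helper94.YF hiding StORB
open Pool.Agent.Helper89.OS (PI Idp)

section

variable {I : Type} [Fintype I] [DecidableEq I] {p a P : ℕ}

theorem fix_iff (X : PK I p a P) (u : I) (hu : ∀ c, X.pi c u = u) (c : (ZMod (p ^ a))ˣ) (k : I) :
    X.pi c k = u ↔ k = u := by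
  constructor
  · intro h
    have h1 : X.pi c⁻¹ (X.pi c k) = X.pi c⁻¹ u := by rw [h]
    rwa [← X.pi_mul, inv_mul_cancel, X.pi_one, hu] at h1
  · intro h
    rw [h, hu]

/-- RAY for a combination of three torus fixed elements. -/
theorem ray3 (X : PK I p a P) (u v w : I) (huv : u ≠ v) (huw : u ≠ w) (hvw : v ≠ w)
    (hu : ∀ c, X.pi c u = u) (hv : ∀ c, X.pi c v = v) (hw : ∀ c, X.pi c w = w)
    (tu : X.t u = 1) (tv : X.t v = 1) (tw : X.t w = 1)
    (auu auv auw avv avw aww : ℤ) (h1 : X.s u u = auu) (h2 : X.s u v = auv) (h3 : X.s u w = auw)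
    (h4 : X.s v v = avv) (h5 : X.s v w = avw) (h6 : X.s w w = aww) (α β γ : ℝ) :
    (p : ℝ) * ((α * auu + β * auv + γ * auw) ^ 2 + (α * auv + β * avv + γ * avw) ^ 2 +
      (α * auw + β * avw + γ * aww) ^ 2) ≤ (P : ℝ) ^ 2 * (α ^ 2 + β ^ 2 + γ ^ 2) +
      ((p : ℝ) - 1) * P * (α * (α * auu + β * auv + γ * auw) +
        β * (α * auv + β * avv + γ * avw) + γ * (α * auw + β * avw + γ * aww)) := by
  classical
  set f : I → ℝ := fun k => if k = u then α else if k = v then β else if k = w then γ else 0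
    with hf
  have fu : f u = α := by simp [hf]
  have fv : f v = β := by simp [hf, Ne.symm huv]
  have fw : f w = γ := by simp [hf, Ne.symm huw, Ne.symm hvw]
  have f0 : ∀ k, k ≠ u → k ≠ v → k ≠ w → f k = 0 := by
    intro k e1 e2 e3
    simp [hf, e1, e2, e3]
  have hinv : ∀ c k, f (X.pi c k) = f k := by
    intro c k
    simp only [hf, fix_iff X u hu c k, fix_iff X v hv c k, fix_iff X w hw c k]
  have hft : ∀ k, f k ≠ 0 → X.t k = 1 := by
    intro k hk
    by_cases e1 : k = u
    · rw [e1]; exact tu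
    by_cases e2 : k = v
    · rw [e2]; exact tv
    by_cases e3 : k = w
    · rw [e3]; exact tw
    exact absurd (f0 k e1 e2 e3) hk
  have hsum : ∀ (G : I → ℂ), (∀ k, k ≠ u → k ≠ v → k ≠ w → G k = 0) →
      ∑ k, G k = G u + G v + G w := by
    intro G hG
    have e1 : ∑ k, G k = ∑ k ∈ ({u, v, w} : Finset I), G k := by
      symm
      refine Finset.sum_subset (Finset.subset_univ _) fun k _ hk => ?_
      simp only [Finset.mem_insert, Finset.mem_singleton, not_or] at hk
      exact hG k hk.1 hk.2.1 hk.2.2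
    rw [e1, Finset.sum_insert (by simp [huv, huw]), Finset.sum_pair hvw]
    ring
  have hsumR : ∀ (G : I → ℝ), (∀ k, k ≠ u → k ≠ v → k ≠ w → G k = 0) →
      ∑ k, G k = G u + G v + G w := by
    intro G hG
    have e1 : ∑ k, G k = ∑ k ∈ ({u, v, w} : Finset I), G k := by
      symm
      refine Finset.sum_subset (Finset.subset_univ _) fun k _ hk => ?_
      simp only [Finset.mem_insert, Finset.mem_singleton, not_or] at hk
      exact hG k hk.1 hk.2.1 hk.2.2
    rw [e1, Finset.sum_insert (by simp [huv, huw]), Finset.sum_pair hvw]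
    ring
  have hsf : ∀ k, sf X f k = X.s k u * α + X.s k v * β + X.s k w * γ := by
    intro k
    rw [sf, hsum _ (fun l e1 e2 e3 => by rw [f0 l e1 e2 e3]; simp), fu, fv, fw]
  have su : sf X f u = ((α * auu + β * auv + γ * auw : ℝ) : ℂ) := by
    rw [hsf, h1, h2, h3]
    push_cast
    ring
  have sv : sf X f v = ((α * auv + β * avv + γ * avw : ℝ) : ℂ) := by
    rw [hsf, X.s_symm v u, h2, h4, h5]
    push_cast
    ring
  have sw : sf X f w = ((α * auw + β * avw + γ * aww : ℝ) : ℂ) := by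
    rw [hsf, X.s_symm w u, h3, X.s_symm w v, h5, h6]
    push_cast
    ring
  have h := ray X f hinv hft
  have hsq : ∑ k, f k ^ 2 = α ^ 2 + β ^ 2 + γ ^ 2 := by
    rw [hsumR _ (fun l e1 e2 e3 => by rw [f0 l e1 e2 e3]; ring), fu, fv, fw]
  have hin : ∑ k, f k * (sf X f k).re = α * (α * auu + β * auv + γ * auw) +
        β * (α * auv + β * avv + γ * avw) + γ * (α * auw + β * avw + γ * aww) := by
    rw [hsumR _ (fun l e1 e2 e3 => by rw [f0 l e1 e2 e3]; ring), fu, fv, fw, su, sv, sw,
      Complex.ofReal_re, Complex.ofReal_re, Complex.ofReal_re]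
  rw [hsq, hin] at h
  refine le_trans ?_ h
  have hp0 : (0 : ℝ) ≤ p := Nat.cast_nonneg _
  refine mul_le_mul_of_nonneg_left ?_ hp0
  have e1 : ∑ k ∈ ({u, v, w} : Finset I), (if X.t k = 1 then ‖sf X f k‖ ^ 2 else 0) =
      (α * auu + β * auv + γ * auw) ^ 2 + (α * auv + β * avv + γ * avw) ^ 2 +
      (α * auw + β * avw + γ * aww) ^ 2 := by
    rw [Finset.sum_insert (by simp [huv, huw]), Finset.sum_pair hvw, if_pos tu, if_pos tv,
      if_pos tw, su, sv, sw, Complex.norm_real, Complex.norm_real, Complex.norm_real,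
      Real.norm_eq_abs, Real.norm_eq_abs, Real.norm_eq_abs, sq_abs, sq_abs, sq_abs]
    ring
  rw [← e1]
  refine Finset.sum_le_sum_of_subset_of_nonneg (Finset.subset_univ _) fun k _ _ => ?_
  split_ifs
  · positivity
  · exact le_refl _

/-- an affine function which is nonnegative is constant -/
theorem aff {b c : ℝ} (h : ∀ x : ℝ, 0 ≤ x * b + c) : b = 0 := by
  by_contra hb
  have h1 := h (-(c + 1) / b)
  rw [div_mul_cancel₀ _ hb] at h1
  linarith

/-- rational entries in the row of a fixed element -/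
theorem fix_int (X : PK I p a P) (hR : StRAT) (j : I) (hj : ∀ c, X.pi c j = j) (l : I) :
    ∃ n : ℤ, X.s l j = n := by
  obtain ⟨n, hn⟩ := rat_sum X hR {j} (by
    intro c i hi
    rw [Finset.mem_singleton.1 hi, hj]
    exact Finset.mem_singleton_self j) l
  rw [Finset.sum_singleton] at hn
  exact ⟨n, hn.symm⟩

end

end Pool.Agent.Helper89.P2
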