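import Mathlib

/-!
# MP_2b6189_al: `n = 25 m`, integer arithmetic
-/

set_option autoImplicit false

namespace Pool.Agent.Helper89.P2

theorem arithA (n z0 c D : ℤ) (hD : 0 < D) (h14 : (14 : ℤ) ∣ D) (hn : (n - 10) ^ 2 ≤ 29)
    (h1 : 11 * z0 + 14 * (c * D) = 1) (h2 : 14 * z0 + n * (c * D) = D) : False := by
  obtain ⟨e, he⟩ := h14
  have h3 : D * (11 + (196 - 11 * n) * c) = 14 := by linear_combination 14 * h1 - 11 * h2
  rw [he] at h3
  have h4 : e * (11 + (196 - 11 * n) * c) = 1 := by linarith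
  have he0 : 0 < e := by omega
  have h5 : e = 1 := by
    rcases Int.eq_one_or_neg_one_of_mul_eq_one h4 with h | h
    · exact h
    · omega
  rw [h5, one_mul] at h4
  have h6 : 5 ≤ n := by nlinarith
  have h7 : n ≤ 15 := by nlinarith
  have h8 : (196 - 11 * n) * c = -10 := by linarith
  have h9 : c = 0 ∨ c ≤ -1 ∨ 1 ≤ c := by omega
  rcases h9 with h | h | h
  · rw [h] at h8; norm_num at h8
  · nlinarith
  · nlinarith

theorem arithB (r : ℕ) (hr : r.Prime) (h7 : 7 ≤ r) (z0 ε w ω : ℤ) (di d' : ℕ)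
    (hε : ε = 1 ∨ ε = -1) (hw : w = 1 ∨ w = -1) (h1 : 25 * z0 = 1 + 2 * ω)
    (h2 : -5 * ω = 2 + w * di - 25 * ε * d') (h3 : (di : ℤ) ∣ ω) (h4 : (d' : ℤ) ∣ ω)
    (h5 : 2 ∣ di) (h6 : r ∣ di) (h8 : 2 ∣ d') (h9 : ∀ l : ℕ, l.Prime → l ∣ d' → l = 2)
    (hdi : 0 < di) (hd' : 0 < d') : False := by
  have hω : ω ≠ 0 := by
    rintro rfl
    omega
  obtain ⟨R, hR⟩ := h5
  have hr2 : Nat.Coprime r 2 := (Nat.coprime_primes hr Nat.prime_two).2 (by omega)
  have hrR : r ∣ R := by
    have h : r ∣ 2 * R := hR ▸ h6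
    exact hr2.dvd_of_dvd_mul_left h
  have hR0 : 0 < R := by omega
  have hR7 : 7 ≤ R := le_trans h7 (Nat.le_of_dvd hR0 hrR)
  by_cases h4d : 4 ∣ d'
  · obtain ⟨e, he⟩ := h4d
    obtain ⟨u, hu⟩ := h4
    have hRodd : ¬ 2 ∣ R := by
      rintro ⟨R', hR'⟩
      rw [hu, hR, hR', he] at h2
      push_cast at h2
      rcases hw with rfl | rfl
      · have : (2 : ℤ) = 4 * (-5 * e * u - R' + 25 * ε * e) := by linear_combination -h2
        omega
      · have : (2 : ℤ) = 4 * (-5 * e * u + R' + 25 * ε * e) := by linear_combination -h2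
        omega
    have hco : Nat.Coprime d' R := by
      rw [Nat.coprime_iff_gcd_eq_one]
      by_contra hg
      obtain ⟨l, hl, hlg⟩ := Nat.exists_prime_and_dvd hg
      have e1 := h9 l hl (hlg.trans (Nat.gcd_dvd_left _ _))
      have e2 := hlg.trans (Nat.gcd_dvd_right _ _)
      rw [e1] at e2
      exact hRodd e2
    have h10 : ((d' * R : ℕ) : ℤ) ∣ ω := by
      push_cast
      refine IsCoprime.mul_dvd (Nat.isCoprime_iff_coprime.2 hco) ⟨u, hu⟩ (dvd_trans ?_ h3)
      exact ⟨2, by rw [hR]; push_cast; ring⟩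
    obtain ⟨v, hv⟩ := h10
    have hv0 : v ≠ 0 := by
      rintro rfl
      rw [mul_zero] at hv
      exact hω hv
    have hv1 : 1 ≤ |v| := Int.one_le_abs hv0
    have h11 : (d' : ℤ) * R ≤ |ω| := by
      rw [hv, abs_mul]
      push_cast
      rw [abs_of_nonneg (by positivity : (0 : ℤ) ≤ (d' : ℤ) * R)]
      exact le_mul_of_one_le_right (by positivity) hv1
    have h12 : 5 * |ω| ≤ 2 + 2 * R + 25 * d' := by
      have e1 : 5 * |ω| = |(-5) * ω| := by rw [abs_mul]; norm_num
      rw [e1, h2, hR]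
      push_cast
      rcases hε with rfl | rfl <;> rcases hw with rfl | rfl <;> rw [abs_le] <;>
        constructor <;> linarith [(Nat.cast_nonneg R : (0 : ℤ) ≤ R),
          (Nat.cast_nonneg d' : (0 : ℤ) ≤ d')]
    have h13 : (4 : ℤ) ≤ d' := by
      have : 4 ≤ d' := by omega
      exact_mod_cast this
    have h14 : (7 : ℤ) ≤ R := by exact_mod_cast hR7
    nlinarith [mul_le_mul_of_nonneg_left h14 (show (0 : ℤ) ≤ 5 * d' - 2 by linarith)]
  · have hd2 : d' = 2 := by
      obtain ⟨e, he⟩ := h8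
      by_contra hne
      have he1 : e ≠ 1 := by
        rintro rfl
        omega
      obtain ⟨l, hl, hle⟩ := Nat.exists_prime_and_dvd he1
      have e1 := h9 l hl (he ▸ (hle.mul_left 2))
      rw [e1] at hle
      obtain ⟨f, hf⟩ := hle
      exact h4d ⟨f, by rw [he, hf]; ring⟩
    subst hd2
    rcases hε with rfl | rfl
    · -- `di ∣ 48`
      have h10 : (di : ℤ) ∣ 48 := by
        have e1 : (48 : ℤ) = 5 * ω + w * di := by push_cast at h2; linarith
        rw [e1]
        exact dvd_add (h3.mul_left _) (dvd_mul_left _ _)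
      have h11 : di ∣ 48 := by exact_mod_cast h10
      have h12 : r ∣ 2 ^ 4 * 3 := by
        have := h6.trans h11
        norm_num
        exact this
      rcases (Nat.Prime.dvd_mul hr).1 h12 with h | h
      · have := (Nat.prime_dvd_prime_iff_eq hr Nat.prime_two).1 (hr.dvd_of_dvd_pow h)
        omega
      · have := Nat.le_of_dvd (by norm_num) h
        omega
    · have h10 : (di : ℤ) ∣ 52 := by
        have e1 : (52 : ℤ) = -5 * ω - w * di := by push_cast at h2; linarith
        rw [e1]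
        exact dvd_sub (h3.mul_left _) (dvd_mul_left _ _)
      have h11 : di ∣ 52 := by exact_mod_cast h10
      obtain ⟨g, hg⟩ := h11
      have h12 : R * g = 26 := by
        rw [hR] at hg
        have : 2 * (R * g) = 52 := by rw [← mul_assoc]; exact hg.symm
        omega
      have h13 : R ∣ 26 := ⟨g, h12.symm⟩
      have h14 : R ≤ 26 := Nat.le_of_dvd (by norm_num) h13
      have h15 : R = 13 ∨ R = 26 := by
        interval_cases R <;> omega
      push_cast at h2
      rcases h15 with rfl | rfl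
      · rw [hR] at h2
        push_cast at h2
        rcases hw with rfl | rfl <;> omega
      · rw [hR] at h2
        push_cast at h2
        rcases hw with rfl | rfl <;> omega

end Pool.Agent.Helper89.P2
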