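import Pool.Agent.Helper89.P2.K25A
import Pool.Agent.Helper89.P2.K25R

/-!
# MP_2b6189_al: `n = 25 m`, `m = 2 ^ b r ^ c`, the local data
-/

set_option autoImplicit false

namespace Pool.Agent.Helper89.P2

open Matrix ComplexConjugate Pool.Agent.Helper94.YG
open Pool.Agent.Helper94.YF hiding StORB
open Pool.Agent.Helper89.OS (PI Idp)

section

variable {I : Type} [Fintype I] [DecidableEq I] {p a P : ℕ}

theorem OrbK_fix (X : PK I p a P) (j : I) (hj : ∀ c, X.pi c j = j) : OrbK X j = {j} := by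
  ext i
  rw [mem_OrbK, Finset.mem_singleton]
  constructor
  · rintro ⟨c, rfl⟩
    exact hj c
  · rintro rfl
    exact ⟨1, X.pi_one _⟩

theorem rayf (X : PK I p a P) (j : I) (hj : ∀ c, X.pi c j = j) (tj : X.t j = 1) (n : ℤ)
    (hn : X.s j j = n) (T : Finset I) (hT : ∀ i ∈ T, X.t i = 1) :
    (p : ℝ) * ∑ i ∈ T, ‖X.s i j‖ ^ 2 ≤ (P : ℝ) ^ 2 + ((p : ℝ) - 1) * P * n := by
  have h1 := ray_O X j tj n (by rw [OrbK_fix X j hj, Finset.sum_singleton, hn]) T hT
  have h2 : ∀ i ∈ T, ‖sf X (fO X j) i‖ ^ 2 = ‖X.s i j‖ ^ 2 := by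
    intro i _
    rw [sf_fO, OrbK_fix X j hj, Finset.sum_singleton]
  rw [Finset.sum_congr rfl h2, OrbK_fix X j hj, Finset.card_singleton] at h1
  push_cast at h1
  linarith

theorem massT (X : PK I p a P) (T : Finset I) (hT : ∀ i ∈ T, X.t i = 1) :
    (p : ℤ) * ∑ i ∈ T, X.y i ^ 2 ≤ (P : ℤ) ^ 2 + ((p : ℤ) - 1) * P * X.y X.o := by
  have h1 := rayf X X.o X.pi_o X.t_o (X.y X.o) (X.s_o _) T hT
  have h2 : ∀ i ∈ T, ‖X.s i X.o‖ ^ 2 = ((X.y i ^ 2 : ℤ) : ℝ) := by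
    intro i _
    rw [X.s_o, Complex.norm_intCast, sq_abs]
    push_cast
    ring
  rw [Finset.sum_congr rfl h2] at h1
  have h3 : ((p : ℝ)) * ((∑ i ∈ T, X.y i ^ 2 : ℤ) : ℝ) ≤
      (P : ℝ) ^ 2 + ((p : ℝ) - 1) * P * (X.y X.o : ℤ) := by
    rw [Int.cast_sum]
    exact h1
  exact_mod_cast h3

theorem sum2 (X : PK I p a P) (i : I) (hio : i ≠ X.o)
    (hK : ∀ l, X.y l ≠ 0 → X.t l = 1 → l = X.o ∨ l = i) {M : Type*} [AddCommMonoid M] (G : I → M)
    (hG : ∀ k, (X.y k = 0 ∨ X.t k ≠ 1) → G k = 0) : ∑ k, G k = G X.o + G i := by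
  have e1 : ∑ k, G k = ∑ k ∈ ({X.o, i} : Finset I), G k := by
    symm
    refine Finset.sum_subset (Finset.subset_univ _) fun k _ hk => ?_
    simp only [Finset.mem_insert, Finset.mem_singleton, not_or] at hk
    refine hG k ?_
    by_contra h
    push Not at h
    rcases hK k h.1 h.2 with h1 | h1
    · exact hk.1 h1
    · exact hk.2 h1
  rw [e1, Finset.sum_pair (Ne.symm hio)]

theorem sum3 (X : PK I p a P) (i j : I) (hio : i ≠ X.o) (hjo : j ≠ X.o) (hij : i ≠ j)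
    (hK : ∀ l, X.y l ≠ 0 → X.t l = 1 → l = X.o ∨ l = i ∨ l = j) {M : Type*} [AddCommMonoid M]
    (G : I → M) (hG : ∀ k, (X.y k = 0 ∨ X.t k ≠ 1) → G k = 0) :
    ∑ k, G k = G X.o + (G i + G j) := by
  have e1 : ∑ k, G k = ∑ k ∈ ({X.o, i, j} : Finset I), G k := by
    symm
    refine Finset.sum_subset (Finset.subset_univ _) fun k _ hk => ?_
    simp only [Finset.mem_insert, Finset.mem_singleton, not_or] at hk
    refine hG k ?_
    by_contra h
    push Not at h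
    rcases hK k h.1 h.2 with h1 | h1 | h1
    · exact hk.1 h1
    · exact hk.2.1 h1
    · exact hk.2.2 h1
  rw [e1, Finset.sum_insert (by simp [Ne.symm hio, Ne.symm hjo]), Finset.sum_pair hij]

/-- the case without elements of positive height -/
theorem caseA (X : PK I 5 a (5 ^ 2)) (hR : StRAT) {Q : ℂ → Prop} (B : BK X Q) {r : ℕ}
    (hr : r.Prime) (h7 : 7 ≤ r)
    (H : ∀ i, i ≠ X.o → X.y i ≠ 0 → X.t i = 1 → ¬ 5 ∣ X.d i ∧ 2 ∣ X.d i ∧ r ∣ X.d i) : False := by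
  classical
  have hy2 : ∀ i, i ≠ X.o → X.y i ≠ 0 → X.t i = 1 → (2 : ℤ) ∣ X.y i := by
    intro i e1 e2 e3
    exact_mod_cast L4 X hR B Nat.prime_two (by norm_num)
      (fun l f1 f2 f3 => (H l f1 f2 (X.z_t l f3)).2.1) i e2 (H i e1 e2 e3).2.1
  have hyr : ∀ i, i ≠ X.o → X.y i ≠ 0 → X.t i = 1 → (r : ℤ) ∣ X.y i := by
    intro i e1 e2 e3
    exact L4 X hR B hr (by omega)
      (fun l f1 f2 f3 => (H l f1 f2 (X.z_t l f3)).2.2) i e2 (H i e1 e2 e3).2.2
  have hyu : ∀ i, i ≠ X.o → X.y i ≠ 0 → X.t i = 1 → ∃ u : ℤ, X.y i = 2 * r * u ∧ 1 ≤ u ^ 2 := by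
    intro i e1 e2 e3
    have hco : IsCoprime (2 : ℤ) (r : ℤ) := by
      have := Nat.isCoprime_iff_coprime.2 ((Nat.coprime_primes Nat.prime_two hr).2 (by omega))
      exact_mod_cast this
    obtain ⟨u, hu⟩ := hco.mul_dvd (hy2 i e1 e2 e3) (hyr i e1 e2 e3)
    refine ⟨u, hu, ?_⟩
    have hu0 : u ≠ 0 := by
      rintro rfl
      rw [mul_zero] at hu
      exact e2 hu
    have : 0 < u ^ 2 := by positivity
    omega
  have h7z : (7 : ℤ) ≤ r := by exact_mod_cast h7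
  have hy196 : ∀ i, i ≠ X.o → X.y i ≠ 0 → X.t i = 1 → 196 ≤ X.y i ^ 2 := by
    intro i e1 e2 e3
    obtain ⟨u, hu, hu1⟩ := hyu i e1 e2 e3
    have h1 : (49 : ℤ) ≤ (r : ℤ) ^ 2 := by nlinarith
    have h2 : X.y i ^ 2 = 4 * ((r : ℤ) ^ 2 * u ^ 2) := by rw [hu]; ring
    have h3 : (49 : ℤ) * 1 ≤ (r : ℤ) ^ 2 * u ^ 2 := mul_le_mul h1 hu1 (by norm_num) (by positivity)
    rw [h2]
    linarith
  obtain ⟨i, hio, hti, hpy⟩ := exK X B
  have hyi : X.y i ≠ 0 := by
    intro h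
    exact hpy (by rw [h]; exact dvd_zero _)
  have hm1 := massT X {X.o, i} (by
    intro l hl
    rcases Finset.mem_insert.1 hl with h | h
    · rw [h]; exact X.t_o
    · rw [Finset.mem_singleton.1 h]; exact hti)
  rw [Finset.sum_pair (Ne.symm hio)] at hm1
  push_cast at hm1
  have hK : ∀ l, X.y l ≠ 0 → X.t l = 1 → l = X.o ∨ l = i := by
    intro l h1 h2
    by_contra hcon
    push Not at hcon
    have hm2 := massT X {X.o, i, l} (by
      intro l' hl
      rcases Finset.mem_insert.1 hl with h | h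
      · rw [h]; exact X.t_o
      · rcases Finset.mem_insert.1 h with h | h
        · rw [h]; exact hti
        · rw [Finset.mem_singleton.1 h]; exact h2)
    rw [Finset.sum_insert (by simp [Ne.symm hio, Ne.symm hcon.1]),
      Finset.sum_pair (Ne.symm hcon.2)] at hm2
    push_cast at hm2
    have e1 := hy196 i hio hyi hti
    have e2 := hy196 l hcon.1 h1 h2
    nlinarith [sq_nonneg (X.y X.o - 10)]
  -- `y i = 14`, `x = 11`
  obtain ⟨u, hu, hu1⟩ := hyu i hio hyi hti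
  have hyi2 : X.y i ^ 2 ≤ 225 := by nlinarith [sq_nonneg (X.y X.o - 10)]
  have hru : ((r : ℤ) * |u|) ≤ 7 := by
    by_contra hcon
    have h1 : 8 ≤ (r : ℤ) * |u| := by omega
    have h2 : X.y i ^ 2 = 4 * ((r : ℤ) * |u|) ^ 2 := by
      rw [hu, mul_pow, mul_pow, mul_pow, sq_abs]
      ring
    nlinarith
  have hua : 1 ≤ |u| := by
    refine Int.one_le_abs ?_
    rintro rfl
    norm_num at hu1
  have hr7 : r = 7 := by
    have h1 : (r : ℤ) ≤ 7 := by nlinarith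
    have h2 : r ≤ 7 := by exact_mod_cast h1
    omega
  subst hr7
  have hu2 : |u| = 1 := by
    push_cast at hru
    omega
  have hy14 : (14 : ℤ) ∣ X.y i := ⟨u, by rw [hu]; push_cast; ring⟩
  have hyi196 : X.y i ^ 2 = 196 := by
    rw [hu, mul_pow, mul_pow, ← sq_abs u, hu2]
    norm_num
  rw [hyi196] at hm1
  have hx : (X.y X.o - 10) ^ 2 ≤ 29 := by nlinarith
  have hx5 : 5 ≤ X.y X.o := by nlinarith
  have hx15 : X.y X.o ≤ 15 := by nlinarith
  have hk := X.kap_y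
  rw [sum2 X i hio hK (fun k => X.y k * (X.kap k : ℤ)) (by
    intro k hk
    rcases hk with h | h
    · simp [h]
    · have : X.kap k = 0 := by
        by_contra h1
        exact h (X.kap_t k h1)
      simp [this]), X.kap_o] at hk
  push_cast at hk
  obtain ⟨g, hg⟩ := hy14
  have hgk : 14 * (g * (X.kap i : ℤ)) = 25 - X.y X.o := by
    rw [hg] at hk
    linarith
  have hgk1 : g * (X.kap i : ℤ) = 1 := by omega
  have hxo : X.y X.o = 11 := by omega
  have hg1 : g = 1 := by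
    have h1 : (0 : ℤ) ≤ (X.kap i : ℤ) := Nat.cast_nonneg _
    rcases Int.eq_one_or_neg_one_of_mul_eq_one hgk1 with h | h
    · exact h
    · exfalso
      rw [h] at hgk1
      linarith
  have hy14 : X.y i = 14 := by rw [hg, hg1]; norm_num
  -- `i` is fixed
  have hfix : ∀ c, X.pi c i = i := by
    intro c
    have h1 := hK (X.pi c i) (by rw [X.pi_y]; exact hyi) (by rw [X.pi_t, hti, one_pow])
    rcases h1 with h1 | h1
    · exact absurd ((fix_iff X X.o X.pi_o c i).1 h1) hio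
    · exact h1
  obtain ⟨n, hn⟩ := fix_int X hR i hfix i
  have hray := rayf X i hfix hti n hn {X.o, i} (by
    intro l hl
    rcases Finset.mem_insert.1 hl with h | h
    · rw [h]; exact X.t_o
    · rw [Finset.mem_singleton.1 h]; exact hti)
  rw [Finset.sum_pair (Ne.symm hio), X.s_symm X.o i, X.s_o, hn, hy14, Complex.norm_intCast,
    Complex.norm_intCast, sq_abs, sq_abs] at hray
  have hn29 : (n - 10) ^ 2 ≤ 29 := by
    have h1 : (5 : ℤ) * (14 ^ 2 + n ^ 2) ≤ (5 ^ 2) ^ 2 + (5 - 1) * 5 ^ 2 * n := by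
      have h2 : ((5 : ℤ) : ℝ) * (((14 : ℤ) : ℝ) ^ 2 + (n : ℝ) ^ 2) ≤
          (((5 : ℤ) : ℝ) ^ 2) ^ 2 + (((5 : ℤ) : ℝ) - 1) * ((5 : ℤ) : ℝ) ^ 2 * n := by
        push_cast at hray ⊢
        linarith
      exact_mod_cast h2
    nlinarith
  -- `z`
  have hG : ∀ j, X.y j ≠ 0 → ∀ k, (X.y k = 0 ∨ X.t k ≠ 1) → X.s j k * (X.z k : ℂ) = 0 := by
    intro j hj k hk
    rcases hk with h | h
    · rw [B.sup j k hj h, zero_mul]
    · have : X.z k = 0 := by
        by_contra h1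
        exact h (X.z_t k h1)
      rw [this]
      simp
  have hxne : X.y X.o ≠ 0 := by rw [hxo]; norm_num
  have h1 := X.sz X.o
  rw [sum2 X i hio hK _ (hG X.o hxne), X.s_symm X.o i, X.s_o, X.s_o, hxo, hy14, X.d_o] at h1
  have h1' : 11 * X.z X.o + 14 * X.z i = 1 := by exact_mod_cast h1
  have h2 := X.sz i
  rw [sum2 X i hio hK _ (hG i hyi), X.s_o, hn, hy14] at h2
  have h2' : 14 * X.z X.o + n * X.z i = X.d i := by exact_mod_cast h2
  obtain ⟨hd5, hd2, hd7⟩ := H i hio hyi hti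
  have h3 : (X.d i : ℤ) ∣ X.z i := by
    have h4 := X.z_dvd i
    have hco : IsCoprime (X.d i : ℤ) (((5 ^ 2 : ℕ)) : ℤ) :=
      Nat.isCoprime_iff_coprime.2 (Nat.Coprime.pow_right 2
        (((Nat.Prime.coprime_iff_not_dvd (by norm_num)).2 hd5).symm))
    exact hco.dvd_of_dvd_mul_left h4
  obtain ⟨c, hc⟩ := h3
  refine arithA n (X.z X.o) c (X.d i) (by exact_mod_cast X.d_pos i) ?_ hn29 ?_ ?_
  · have : 14 ∣ X.d i := by
      have := Nat.Coprime.mul_dvd_of_dvd_of_dvd (by norm_num : Nat.Coprime 2 7) hd2 hd7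
      simpa using this
    exact_mod_cast this
  · rw [hc] at h1'
    linarith
  · rw [hc] at h2'
    linarith

end

end Pool.Agent.Helper89.P2
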