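import Pool.Agent.Helper89.P2.K25B

/-!
# MP_2b6189_al: `n = 25 m`, `m = 2 ^ b r ^ c`, the case with an element of positive height
-/

set_option autoImplicit false

namespace Pool.Agent.Helper89.P2

open Matrix ComplexConjugate Pool.Agent.Helper94.YG
open Pool.Agent.Helper94.YF hiding StORB
open Pool.Agent.Helper89.OS (PI Idp)

section

variable {I : Type} [Fintype I] [DecidableEq I] {a : ℕ}

/-- elements of positive height: `y = 10` or `-10`, fixed, `s = 0` on the diagonal -/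
theorem pos10 (X : PK I 5 a (5 ^ 2)) (hR : StRAT) {Q : ℂ → Prop} (B : BK X Q) (j : I)
    (hj : X.y j ≠ 0) (tj : X.t j = 1) (hd : 5 ∣ X.d j) (h2 : (2 : ℤ) ∣ X.y j) :
    (X.y j = 10 ∨ X.y j = -10) ∧ (∀ c, X.pi c j = j) ∧ X.s j j = 0 := by
  have h5 : (5 : ℤ) ∣ X.y j := by
    have := (dy X B hj).1 hd
    exact_mod_cast this
  have hb : X.y j ^ 2 ≤ 125 := by
    have := L1y X hR B j hj tj hd
    norm_num at this
    exact this
  obtain ⟨u, hu⟩ : (10 : ℤ) ∣ X.y j := by omega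
  have hu1 : u = 1 ∨ u = -1 := by
    have h1 : u ≤ 1 := by
      by_contra h
      have : 2 ≤ u := by omega
      rw [hu] at hb
      nlinarith
    have h2 : -1 ≤ u := by
      by_contra h
      have : u ≤ -2 := by omega
      rw [hu] at hb
      nlinarith
    have h3 : u ≠ 0 := by
      rintro rfl
      exact hj (by rw [hu]; norm_num)
    omega
  have hy : X.y j = 10 ∨ X.y j = -10 := by
    rcases hu1 with h | h
    · left; rw [hu, h]; norm_num
    · right; rw [hu, h]; norm_num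
  have h0 := L1diag X hR B j hj tj hd
  have hcard : (OrbK X j).card = 1 := by
    have h1 := ray_O X j tj 0 (by rw [h0]; simp) {X.o} (by
      intro i hi
      rw [Finset.mem_singleton.1 hi]; exact X.t_o)
    rw [Finset.sum_singleton, sf_o, Complex.norm_intCast, sq_abs] at h1
    have hc := card_pos X j
    have hy2 : ((X.y j : ℤ) : ℝ) ^ 2 = 100 := by
      rcases hy with h | h <;> rw [h] <;> norm_num
    push_cast at h1
    rw [mul_pow, hy2] at h1
    by_contra hne
    have h3 : 2 ≤ (OrbK X j).card := by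
      have : 0 < (OrbK X j).card := Finset.card_pos.2 ⟨j, OrbK_self X j⟩
      omega
    have h4 : (2 : ℝ) ≤ ((OrbK X j).card : ℝ) := by exact_mod_cast h3
    nlinarith
  have hOe : OrbK X j = {j} := by
    obtain ⟨l, hl⟩ := Finset.card_eq_one.1 hcard
    have := OrbK_self X j
    rw [hl, Finset.mem_singleton] at this
    rw [hl, this]
  refine ⟨hy, ?_, ?_⟩
  · intro c
    have h1 : X.pi c j ∈ OrbK X j := (mem_OrbK X j _).2 ⟨c, rfl⟩
    rw [hOe] at h1
    exact Finset.mem_singleton.1 h1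
  · rw [hOe, Finset.sum_singleton] at h0
    exact h0

/-- divisibility by `5` -/
theorem s5 (X : PK I 5 a (5 ^ 2)) (hR : StRAT) {Q : ℂ → Prop} (B : BK X Q) (j l : I)
    (hj : X.y j ≠ 0) (hd : 5 ∣ X.d j) (hy : X.y j = 10 ∨ X.y j = -10) (n : ℤ)
    (hn : X.s j l = n) : ∃ e : ℤ, n = 5 * e ∧ (¬ (5 : ℤ) ∣ X.y l → ¬ (5 : ℤ) ∣ e) := by
  obtain ⟨q, hQ, hq, h1⟩ := B.cg j hj l
  obtain ⟨d', hd'⟩ := hd
  have h5C : (5 : ℂ) ≠ 0 := by norm_num
  obtain ⟨e, he, -⟩ := div1 X hR B hj ⟨d', hd'⟩ {l} n (by rw [Finset.sum_singleton, hn])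
  push_cast at he
  refine ⟨e, he, ?_⟩
  intro hyl h5e
  rw [hn, he, hd'] at h1
  push_cast at h1
  have h2 : (X.m : ℂ) ^ 2 * e = (d' : ℂ) * ((X.m : ℂ) ^ 2 * X.y l + q) := by
    apply mul_left_cancel₀ h5C
    linear_combination h1
  -- `5` does not divide `d'`
  have hnd' : ¬ (5 : ℤ) ∣ (d' : ℤ) := by
    rintro ⟨f, hf⟩
    obtain ⟨c, hc, hv⟩ := B.val j hj
    rw [hd'] at hv
    push_cast at hv
    rw [hf] at hv
    have h3 : (5 : ℤ) ∣ (X.m : ℤ) ^ 2 * 2 := by
      rcases hy with h | h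
      · rw [h] at hv
        exact ⟨f * c, by linarith⟩
      · rw [h] at hv
        exact ⟨-(f * c), by linarith⟩
    have h5p : Prime (5 : ℤ) := by
      have := pprime X
      exact_mod_cast this
    rcases h5p.dvd_or_dvd h3 with h4 | h4
    · exact m2_nd X (by exact_mod_cast h4)
    · norm_num at h4
  have h3 : Q ((((X.m : ℤ) ^ 2 * (e - d' * X.y l) : ℤ)) : ℂ) := by
    have h4 : ((((X.m : ℤ) ^ 2 * (e - d' * X.y l) : ℤ)) : ℂ) = (d' : ℂ) * q := by
      push_cast
      linear_combination h2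
    rw [h4]
    exact B.pi.mul _ _ (nint _) hQ
  have h4 := (B.pi.int_iff _).1 h3
  push_cast at h4
  have h5p : Prime (5 : ℤ) := by
    have := pprime X
    exact_mod_cast this
  rcases h5p.dvd_or_dvd h4 with h6 | h6
  · exact m2_nd X (by exact_mod_cast h6)
  · have h7 : (5 : ℤ) ∣ d' * X.y l := by
      have h8 := dvd_sub h5e h6
      rwa [sub_sub_cancel] at h8
    rcases h5p.dvd_or_dvd h7 with h8 | h8
    · exact hnd' h8
    · exact hyl h8

/-- the case with an element of positive height -/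
theorem caseB (X : PK I 5 a (5 ^ 2)) (hR : StRAT) {Q : ℂ → Prop} (B : BK X Q) {r : ℕ}
    (hr : r.Prime) (h7 : 7 ≤ r)
    (H : ∀ i, i ≠ X.o → X.y i ≠ 0 → X.t i = 1 → 2 ∣ X.d i ∧ (¬ 5 ∣ X.d i → r ∣ X.d i) ∧
      (5 ∣ X.d i → ¬ r ∣ X.d i))
    (hpr : ∀ i, ∀ l : ℕ, l.Prime → l ∣ X.d i → l = 5 ∨ l = 2 ∨ l = r)
    (hkap : ∀ i, ∑ k, X.s i k * (X.kap k : ℂ) = 25 * X.kap i)
    (j : I) (hjo : j ≠ X.o) (hj : X.y j ≠ 0) (tj : X.t j = 1) (hd : 5 ∣ X.d j) : False := by
  classical
  have hy2 : ∀ i, i ≠ X.o → X.y i ≠ 0 → X.t i = 1 → (2 : ℤ) ∣ X.y i := by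
    intro i e1 e2 e3
    exact_mod_cast L4 X hR B Nat.prime_two (by norm_num)
      (fun l f1 f2 f3 => (H l f1 f2 (X.z_t l f3)).1) i e2 (H i e1 e2 e3).1
  obtain ⟨hyj, hfj, hjj⟩ := pos10 X hR B j hj tj hd (hy2 j hjo hj tj)
  obtain ⟨i, hio, hti, hpy⟩ := exK X B
  push_cast at hpy
  have hyi : X.y i ≠ 0 := by
    intro h
    exact hpy (by rw [h]; exact dvd_zero _)
  have hij : i ≠ j := by
    rintro rfl
    rcases hyj with h | h <;> rw [h] at hpy <;> norm_num at hpy
  -- the entries `s j l`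
  have hn : ∀ l, ∃ n : ℤ, X.s j l = n := by
    intro l
    obtain ⟨n, hn⟩ := fix_int X hR j hfj l
    exact ⟨n, by rw [X.s_symm]; exact hn⟩
  have h25 : ∀ l, ¬ (5 : ℤ) ∣ X.y l → ∀ n : ℤ, X.s j l = n → 25 ≤ n ^ 2 := by
    intro l hl n hnl
    obtain ⟨e, he, he5⟩ := s5 X hR B j l hj hd hyj n hnl
    have h1 := he5 hl
    have h2 : e ≠ 0 := by
      rintro rfl
      exact h1 (dvd_zero _)
    have h3 : 0 < e ^ 2 := by positivity
    rw [he, mul_pow]
    linarith [show (1 : ℤ) ≤ e ^ 2 by omega]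
  have hyj2 : (X.y j) ^ 2 = 100 := by
    rcases hyj with h | h <;> rw [h] <;> norm_num
  -- uniqueness of the element of height zero
  have huniq : ∀ l, l ≠ X.o → ¬ (5 : ℤ) ∣ X.y l → X.t l = 1 → l = i := by
    intro l h1 h2 h3
    by_contra hne
    obtain ⟨n1, hn1⟩ := hn i
    obtain ⟨n2, hn2⟩ := hn l
    have hr1 := rayf X j hfj tj 0 (by rw [hjj]; simp) {X.o, i, l} (by
      intro l' hl
      rcases Finset.mem_insert.1 hl with h | h
      · rw [h]; exact X.t_o
      · rcases Finset.mem_insert.1 h with h | h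
        · rw [h]; exact hti
        · rw [Finset.mem_singleton.1 h]; exact h3)
    rw [Finset.sum_insert (by simp [Ne.symm hio, Ne.symm h1]), Finset.sum_pair (Ne.symm hne),
      X.s_symm X.o j, X.s_o, X.s_symm i j, X.s_symm l j, hn1, hn2, Complex.norm_intCast,
      Complex.norm_intCast, Complex.norm_intCast, sq_abs, sq_abs, sq_abs] at hr1
    have e1 := h25 i hpy n1 hn1
    have e2 := h25 l h2 n2 hn2
    have e1' : (25 : ℝ) ≤ (n1 : ℝ) ^ 2 := by exact_mod_cast e1
    have e2' : (25 : ℝ) ≤ (n2 : ℝ) ^ 2 := by exact_mod_cast e2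
    have e3 : ((X.y j : ℤ) : ℝ) ^ 2 = 100 := by exact_mod_cast hyj2
    rw [e3] at hr1
    push_cast at hr1
    linarith
  have hfi : ∀ c, X.pi c i = i := by
    intro c
    refine huniq _ (fun h => hio ((fix_iff X X.o X.pi_o c i).1 h)) ?_ ?_
    · rw [X.pi_y]; exact hpy
    · rw [X.pi_t, hti, one_pow]
  -- `K = {i, j}`
  have hK : ∀ l, X.y l ≠ 0 → X.t l = 1 → l = X.o ∨ l = i ∨ l = j := by
    intro l h1 h2
    by_contra hcon
    push Not at hcon
    obtain ⟨g1, g2, g3⟩ := hcon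
    have hd5 : (5 : ℤ) ∣ X.y l := by
      by_contra h3
      exact g2 (huniq l g1 h3 h2)
    have hdl : 5 ∣ X.d l := (dy X B h1).2 (by exact_mod_cast hd5)
    obtain ⟨hyl, hfl, hll⟩ := pos10 X hR B l h1 h2 hdl (hy2 l g1 h1 h2)
    have hjl : X.s j l = 0 := by
      have := L1 X hR B l j h1 h2 hdl hj tj hd
      rw [OrbK_fix X l hfl, Finset.sum_singleton] at this
      exact this
    have hr3 : ∀ σ : ℝ, (5 : ℝ) * (X.y j + σ * X.y l) ^ 2 ≤ 625 * (1 + σ ^ 2) := by
      intro σ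
      have hh := ray3 X X.o j l (Ne.symm hjo) (Ne.symm g1) (Ne.symm g3) X.pi_o hfj hfl X.t_o tj h2
        (X.y X.o) (X.y j) (X.y l) 0 0 0 (X.s_o _) (by rw [X.s_symm, X.s_o])
        (by rw [X.s_symm, X.s_o]) (by rw [hjj]; simp) (by rw [hjl]; simp) (by rw [hll]; simp)
        0 1 σ
      push_cast at hh
      norm_num at hh
      linarith
    rcases hyj with h | h <;> rcases hyl with h' | h'
    · have := hr3 1; rw [h, h'] at this; norm_num at this
    · have := hr3 (-1); rw [h, h'] at this; norm_num at this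
    · have := hr3 (-1); rw [h, h'] at this; norm_num at this
    · have := hr3 1; rw [h, h'] at this; norm_num at this
  -- the entry `s i j`
  obtain ⟨n, hnj⟩ := hn i
  obtain ⟨e, he, -⟩ := s5 X hR B j i hj hd hyj n hnj
  have hn25 : n ^ 2 = 25 := by
    have e1 := h25 i hpy n hnj
    have hr1 := rayf X j hfj tj 0 (by rw [hjj]; simp) {X.o, i} (by
      intro l' hl
      rcases Finset.mem_insert.1 hl with h | h
      · rw [h]; exact X.t_o
      · rw [Finset.mem_singleton.1 h]; exact hti)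
    rw [Finset.sum_pair (Ne.symm hio), X.s_symm X.o j, X.s_o, X.s_symm i j, hnj,
      Complex.norm_intCast, Complex.norm_intCast, sq_abs, sq_abs] at hr1
    have e3 : ((X.y j : ℤ) : ℝ) ^ 2 = 100 := by exact_mod_cast hyj2
    rw [e3] at hr1
    push_cast at hr1
    have e4 : (n : ℝ) ^ 2 ≤ 25 := by linarith
    have e5 : n ^ 2 ≤ 25 := by exact_mod_cast e4
    omega
  obtain ⟨v, hv⟩ := fix_int X hR i hfi i
  -- the polarised equalities
  have hpol : ∀ α β N : ℝ, 0 ≤ N * (200 * (α * X.y j + β * n) -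
      10 * (X.y j * (α * X.y X.o + β * X.y i) + n * (α * X.y i + β * v))) +
      (625 * (α ^ 2 + β ^ 2) + 100 * (α * (α * X.y X.o + β * X.y i) +
        β * (α * X.y i + β * v)) - 5 * ((α * X.y X.o + β * X.y i) ^ 2 +
        (α * X.y i + β * v) ^ 2 + (α * X.y j + β * n) ^ 2)) := by
    intro α β N
    have hh := ray3 X X.o i j (Ne.symm hio) (Ne.symm hjo) hij X.pi_o hfi hfj X.t_o hti tj
      (X.y X.o) (X.y i) (X.y j) v n 0 (X.s_o _) (by rw [X.s_symm, X.s_o])
      (by rw [X.s_symm, X.s_o]) hv (by rw [X.s_symm, hnj]) (by rw [hjj]; simp) α β N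
    have e3 : ((X.y j : ℤ) : ℝ) ^ 2 = 100 := by exact_mod_cast hyj2
    have e4 : (n : ℝ) ^ 2 = 25 := by exact_mod_cast hn25
    push_cast at hh
    have e5 : N ^ 2 * ((X.y j : ℤ) : ℝ) ^ 2 = N ^ 2 * 100 := by rw [e3]
    have e6 : N ^ 2 * (n : ℝ) ^ 2 = N ^ 2 * 25 := by rw [e4]
    nlinarith [hh, e5, e6]
  have p1 := aff (hpol 1 0)
  have p2 := aff (hpol 0 1)
  have p1' : 200 * X.y j - 10 * (X.y j * X.y X.o + n * X.y i) = 0 := by
    have : (200 : ℝ) * X.y j - 10 * (X.y j * X.y X.o + n * X.y i) = 0 := by linarith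
    exact_mod_cast this
  have p2' : 200 * n - 10 * (X.y j * X.y i + n * v) = 0 := by
    have : (200 : ℝ) * n - 10 * (X.y j * X.y i + n * v) = 0 := by linarith
    exact_mod_cast this
  -- signs
  obtain ⟨ε, hε, hyε⟩ : ∃ ε : ℤ, (ε = 1 ∨ ε = -1) ∧ X.y j = 10 * ε := by
    rcases hyj with h | h
    · exact ⟨1, Or.inl rfl, by rw [h]; norm_num⟩
    · exact ⟨-1, Or.inr rfl, by rw [h]; norm_num⟩
  have hη : e = 1 ∨ e = -1 := by
    have h1 : e ^ 2 = 1 := by
      rw [he, mul_pow] at hn25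
      linarith
    have h2 : (e - 1) * (e + 1) = 0 := by linear_combination h1
    rcases mul_eq_zero.1 h2 with h3 | h3
    · left; linarith
    · right; linarith
  obtain ⟨w, hw, hwe⟩ : ∃ w : ℤ, (w = 1 ∨ w = -1) ∧ w = ε * e := by
    refine ⟨ε * e, ?_, rfl⟩
    rcases hε with h | h <;> rcases hη with h' | h' <;> rw [h, h'] <;> norm_num
  have hε2 : ε * ε = 1 := by rcases hε with h | h <;> rw [h] <;> norm_num
  have he2 : e * e = 1 := by rcases hη with h | h <;> rw [h] <;> norm_num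
  have hw2 : w * w = 1 := by rcases hw with h | h <;> rw [h] <;> norm_num
  have hwη : w * e = ε := by rw [hwe]; linear_combination ε * he2
  have q1 : 2 * X.y X.o + w * X.y i = 40 := by
    rw [hyε, he] at p1'
    have h50 : 50 * (2 * X.y X.o + w * X.y i - 40) = 0 := by
      rw [hwe]
      linear_combination (-ε) * p1' - (100 * X.y X.o - 2000) * hε2
    linarith
  have q2 : v = 20 - 2 * (w * X.y i) := by
    rw [hyε, he] at p2'
    have h50 : 50 * (20 - 2 * (w * X.y i) - v) = 0 := by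
      rw [hwe]
      linear_combination e * p2' - (1000 - 50 * v) * he2
    linarith
  have hxne : X.y X.o ≠ 0 := by
    intro h
    exact B.x_nd (by rw [h]; exact dvd_zero _)
  -- `kap`
  have hGk : ∀ u, X.y u ≠ 0 → ∀ k, (X.y k = 0 ∨ X.t k ≠ 1) → X.s u k * (X.kap k : ℂ) = 0 := by
    intro u hu k hk
    rcases hk with h | h
    · rw [B.sup u k hu h, zero_mul]
    · have : X.kap k = 0 := by
        by_contra h1
        exact h (X.kap_t k h1)
      rw [this]
      simp
  have k1 := hkap X.o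
  rw [sum3 X i j hio hjo hij hK _ (hGk X.o hxne), X.s_symm X.o i, X.s_symm X.o j, X.s_o, X.s_o,
    X.s_o, X.kap_o] at k1
  have k1' : X.y X.o + (X.y i * X.kap i + X.y j * X.kap j) = 25 := by
    have : (X.y X.o : ℂ) + (X.y i * X.kap i + X.y j * X.kap j) = 25 := by
      have h := k1
      push_cast at h
      linear_combination h
    exact_mod_cast this
  have k2 := hkap j
  rw [sum3 X i j hio hjo hij hK _ (hGk j hj), X.s_o, hnj, hjj, X.kap_o] at k2
  have k2' : X.y j + n * X.kap i = 25 * X.kap j := by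
    have : (X.y j : ℂ) + n * X.kap i = 25 * X.kap j := by
      have h := k2
      push_cast at h
      linear_combination h
    exact_mod_cast this
  rw [hyε] at k1' k2'
  rw [he] at k2'
  have k3 : (X.y X.o - 21) * (1 - 2 * (ε * X.kap j)) = 0 := by
    have h1 : e * (X.kap i : ℤ) = 5 * X.kap j - 2 * ε := by linarith
    have h2 : (X.kap i : ℤ) = e * (5 * X.kap j - 2 * ε) := by
      linear_combination e * h1 - (X.kap i : ℤ) * he2
    have h3 : X.y i = w * (40 - 2 * X.y X.o) := by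
      linear_combination w * q1 - X.y i * hw2
    have h4 : X.y i * (X.kap i : ℤ) = (40 - 2 * X.y X.o) * (5 * (ε * X.kap j) - 2) := by
      rw [h2, h3]
      linear_combination ((40 - 2 * X.y X.o) * (5 * (X.kap j : ℤ) - 2 * ε)) * hwη -
        2 * (40 - 2 * X.y X.o) * hε2
    have h5 : 5 * ((X.y X.o - 21) * (1 - 2 * (ε * X.kap j))) = 0 := by
      linear_combination k1' - h4
    linarith
  have hx21 : X.y X.o = 21 := by
    rcases mul_eq_zero.1 k3 with h | h
    · linarith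
    · exfalso
      omega
  have hyw : w * X.y i = -2 := by linarith
  have hyiw : X.y i = -2 * w := by linear_combination w * hyw - X.y i * hw2
  have hv24 : v = 24 := by rw [q2, hyw]; norm_num
  -- `z`
  have hGz : ∀ u, X.y u ≠ 0 → ∀ k, (X.y k = 0 ∨ X.t k ≠ 1) → X.s u k * (X.z k : ℂ) = 0 := by
    intro u hu k hk
    rcases hk with h | h
    · rw [B.sup u k hu h, zero_mul]
    · have : X.z k = 0 := by
        by_contra h1
        exact h (X.z_t k h1)
      rw [this]
      simp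
  obtain ⟨d', hd'⟩ := hd
  have z1 := X.sz X.o
  rw [sum3 X i j hio hjo hij hK _ (hGz X.o hxne), X.s_symm X.o i, X.s_symm X.o j, X.s_o, X.s_o,
    X.s_o, X.d_o, hyε, hyiw, hx21] at z1
  have z1' : 21 * X.z X.o + (-2 * w * X.z i + 10 * ε * X.z j) = 1 := by exact_mod_cast z1
  have z2 := X.sz j
  rw [sum3 X i j hio hjo hij hK _ (hGz j hj), X.s_o, hnj, hjj, hyε, he, hd'] at z2
  have z2' : 10 * ε * X.z X.o + 5 * e * X.z i = 5 * d' := by
    have h := z2
    rw [zero_mul, add_zero] at h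
    exact_mod_cast h
  have z3 := X.sz i
  rw [sum3 X i j hio hjo hij hK _ (hGz i hyi), X.s_o, hv, X.s_symm i j, hnj, hyiw, hv24, he] at z3
  have z3' : -2 * w * X.z X.o + (24 * X.z i + 5 * e * X.z j) = X.d i := by exact_mod_cast z3
  have hd'0 : 0 < d' := by
    have := X.d_pos j
    omega
  have hzi := X.z_dvd i
  have hzj := X.z_dvd j
  push_cast at hzi hzj
  have hH := H i hio hyi hti
  have hHj := H j hjo hj tj
  have h5di : ¬ 5 ∣ X.d i := by
    intro h
    exact hpy (by exact_mod_cast (dy X B hyi).1 h)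
  have h5d' : ¬ 5 ∣ d' := by
    intro h
    obtain ⟨c, hc, hv'⟩ := B.val j hj
    obtain ⟨f, hf⟩ := h
    have h3 : (5 : ℤ) ∣ (X.m : ℤ) ^ 2 * 2 := by
      rw [hd', hf, hyε] at hv'
      push_cast at hv'
      rcases hε with h | h
      · rw [h] at hv'
        exact ⟨f * c, by linarith⟩
      · rw [h] at hv'
        exact ⟨-(f * c), by linarith⟩
    have h5p : Prime (5 : ℤ) := by
      have := pprime X
      exact_mod_cast this
    rcases h5p.dvd_or_dvd h3 with h4 | h4
    · exact m2_nd X (by exact_mod_cast h4)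
    · norm_num at h4
  have e1' : 2 * X.z X.o + w * X.z i = ε * d' := by
    have h : 2 * ε * X.z X.o + e * X.z i = d' := by linarith
    linear_combination ε * h - 2 * X.z X.o * hε2 + X.z i * hwe
  refine arithB r hr h7 (X.z X.o) ε w (2 * X.z X.o + w * X.z i - 5 * ε * X.z j) (X.d i) d' hε hw
    ?_ ?_ ?_ ?_ hH.1 (hH.2.1 h5di) ?_ ?_ (X.d_pos i) hd'0
  · linear_combination z1'
  · rw [← z3']
    linear_combination 2 * z1' + 2 * X.z X.o * hw2 - 5 * X.z j * hwη - 25 * e1'
  · have e1 : 2 * X.z X.o + w * X.z i - 5 * ε * X.z j = -w * X.d i + w * (5 ^ 2 * X.z i) := by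
      rw [← z3']
      linear_combination (-2) * X.z X.o * hw2 + 5 * X.z j * hwη
    rw [e1]
    exact dvd_add (dvd_mul_left _ _) (hzi.mul_left _)
  · have e2 : (d' : ℤ) ∣ 5 * X.z j := by
      rw [hd'] at hzj
      push_cast at hzj
      obtain ⟨u, hu⟩ := hzj
      exact ⟨u, by linarith⟩
    have e1 : 2 * X.z X.o + w * X.z i - 5 * ε * X.z j = ε * d' - ε * (5 * X.z j) := by
      linear_combination e1'
    rw [e1]
    exact dvd_sub (dvd_mul_left _ _) (e2.mul_left _)
  · have h1 := hHj.1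
    rw [hd'] at h1
    omega
  · intro l hl hld
    have h1 : l ∣ X.d j := by rw [hd']; exact hld.mul_left 5
    rcases hpr j l hl h1 with h2 | h2 | h2
    · exact absurd (h2 ▸ hld) h5d'
    · exact h2
    · exact absurd (h2 ▸ h1) (hHj.2.2 ⟨d', hd'⟩)

end

end Pool.Agent.Helper89.P2
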