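import Mathlib

/-!
# MP_2b6189_al: `n = 25 m`, integer arithmetic, second form
-/

set_option autoImplicit false

namespace Pool.Agent.Helper89.P2

theorem arithC (r : ℕ) (hr : r.Prime) (h3 : 3 ≤ r) (z0 ε w ω : ℤ) (di d' : ℕ)
    (hε : ε = 1 ∨ ε = -1) (hw : w = 1 ∨ w = -1) (h1 : 25 * z0 = 1 + 2 * ω)
    (h2 : -5 * ω = 2 + w * di - 25 * ε * d') (hdω : (2 * di : ℤ) ∣ ω) (hdω' : (2 * d' : ℤ) ∣ ω)
    (h5 : 2 ∣ di) (h6 : r ∣ di) (h8 : 2 ∣ d') (h9 : ∀ l : ℕ, l.Prime → l ∣ d' → l = 2)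
    (hdi : 0 < di) (hd' : 0 < d') : False := by
  have hω : ω ≠ 0 := by
    rintro rfl
    omega
  obtain ⟨R, hR⟩ := h5
  have hr2 : Nat.Coprime r 2 := (Nat.coprime_primes hr Nat.prime_two).2 (by omega)
  have hrR : r ∣ R := by
    have h : r ∣ 2 * R := hR ▸ h6
    exact hr2.dvd_of_dvd_mul_left h
  have hR0 : 0 < R := by omega
  have hR3 : 3 ≤ R := le_trans h3 (Nat.le_of_dvd hR0 hrR)
  have hR3z : (3 : ℤ) ≤ R := by exact_mod_cast hR3
  have hup : 5 * |ω| ≤ 2 + 2 * R + 25 * d' := by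
    have e1 : 5 * |ω| = |(-5) * ω| := by rw [abs_mul]; norm_num
    rw [e1, h2, hR]
    push_cast
    rcases hε with rfl | rfl <;> rcases hw with rfl | rfl <;> rw [abs_le] <;>
      constructor <;> linarith [(Nat.cast_nonneg R : (0 : ℤ) ≤ R),
        (Nat.cast_nonneg d' : (0 : ℤ) ≤ d')]
  -- a divisor bounds
  have hlow : ∀ x : ℤ, 0 ≤ x → x ∣ ω → x ≤ |ω| := by
    rintro x hx ⟨v, hv⟩
    have hv0 : v ≠ 0 := by
      rintro rfl
      rw [mul_zero] at hv
      exact hω hv
    rw [hv, abs_mul, abs_of_nonneg hx]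
    exact le_mul_of_one_le_right hx (Int.one_le_abs hv0)
  by_cases h4d : 4 ∣ d'
  · obtain ⟨e, he⟩ := h4d
    obtain ⟨u, hu⟩ := hdω'
    have hRodd : ¬ 2 ∣ R := by
      rintro ⟨R', hR'⟩
      rw [hu, hR, hR', he] at h2
      push_cast at h2
      rcases hw with rfl | rfl
      · have : (2 : ℤ) = 4 * (-10 * e * u - R' + 25 * ε * e) := by linear_combination -h2
        omega
      · have : (2 : ℤ) = 4 * (-10 * e * u + R' + 25 * ε * e) := by linear_combination -h2
        omega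
    have hco : Nat.Coprime (2 * d') R := by
      rw [Nat.coprime_iff_gcd_eq_one]
      by_contra hg
      obtain ⟨l, hl, hlg⟩ := Nat.exists_prime_and_dvd hg
      have e2 := hlg.trans (Nat.gcd_dvd_right _ _)
      have e1 : l = 2 := by
        rcases (Nat.Prime.dvd_mul hl).1 (hlg.trans (Nat.gcd_dvd_left _ _)) with h | h
        · exact (Nat.prime_dvd_prime_iff_eq hl Nat.prime_two).1 h
        · exact h9 l hl h
      rw [e1] at e2
      exact hRodd e2
    have h10 : ((2 * d' * R : ℕ) : ℤ) ∣ ω := by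
      push_cast
      have hco' := Nat.isCoprime_iff_coprime.2 hco
      push_cast at hco'
      refine IsCoprime.mul_dvd hco' ⟨u, hu⟩ (dvd_trans ?_ hdω)
      exact ⟨4, by rw [hR]; push_cast; ring⟩
    have h11 := hlow _ (by positivity) h10
    push_cast at h11
    have h13 : (4 : ℤ) ≤ d' := by
      have : 4 ≤ d' := by omega
      exact_mod_cast this
    nlinarith [mul_le_mul_of_nonneg_left hR3z (show (0 : ℤ) ≤ 10 * d' - 2 by linarith)]
  · have hd2 : d' = 2 := by
      obtain ⟨e, he⟩ := h8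
      by_contra hne
      have he1 : e ≠ 1 := by
        rintro rfl
        omega
      obtain ⟨l, hl, hle⟩ := Nat.exists_prime_and_dvd he1
      have e1 := h9 l hl (he ▸ (hle.mul_left 2))
      rw [e1] at hle
      obtain ⟨f, hf⟩ := hle
      exact h4d ⟨f, by rw [he, hf]; ring⟩
    subst hd2
    have h11 := hlow _ (by positivity) hdω
    rw [hR] at h11
    push_cast at h11 hup
    linarith

end Pool.Agent.Helper89.P2
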