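import Pool.Agent.Helper89.P2.K25C
import Pool.Agent.Helper89.P2.K25S
import Pool.Agent.Helper89.P2.Gsq

/-!
# MP_2b6189_al: `n = 25 m`, `m = 2 ^ b r ^ c`, `r ≥ 3`, the case with an element of positive height
-/

set_option autoImplicit false

namespace Pool.Agent.Helper89.P2

open Matrix ComplexConjugate Pool.Agent.Helper94.YG
open Pool.Agent.Helper94.YF hiding StORB
open Pool.Agent.Helper89.OS (PI Idp)

section

variable {I : Type} [Fintype I] [DecidableEq I] {a : ℕ}

/-- the case with an element of positive height -/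
theorem caseB2 (X : PK I 5 a (5 ^ 2)) (hR : StRAT) {Q : ℂ → Prop} (B : BK X Q) {r : ℕ}
    (hr : r.Prime) (h3r : 3 ≤ r) (C : CM X)
    (H : ∀ i, i ≠ X.o → X.y i ≠ 0 → X.t i = 1 → 2 ∣ X.d i ∧ (¬ 5 ∣ X.d i → r ∣ X.d i) ∧
      (5 ∣ X.d i → ¬ r ∣ X.d i))
    (hpr : ∀ i, ∀ l : ℕ, l.Prime → l ∣ X.d i → l = 5 ∨ l = 2 ∨ l = r)
    (hkap : ∀ i, ∑ k, X.s i k * (X.kap k : ℂ) = 25 * X.kap i)
    (j : I) (hjo : j ≠ X.o) (hj : X.y j ≠ 0) (tj : X.t j = 1) (hd : 5 ∣ X.d j) : False := by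
  classical
  have hy2 : ∀ i, i ≠ X.o → X.y i ≠ 0 → X.t i = 1 → (2 : ℤ) ∣ X.y i := by
    intro i e1 e2 e3
    exact_mod_cast L4 X hR B Nat.prime_two (by norm_num)
      (fun l f1 f2 f3 => (H l f1 f2 (X.z_t l f3)).1) i e2 (H i e1 e2 e3).1
  obtain ⟨hyj, hfj, hjj⟩ := pos10 X hR B j hj tj hd (hy2 j hjo hj tj)
  obtain ⟨i, hio, hti, hpy⟩ := exK X B
  push_cast at hpy
  have hyi : X.y i ≠ 0 := by
    intro h
    exact hpy (by rw [h]; exact dvd_zero _)
  have hij : i ≠ j := by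
    rintro rfl
    rcases hyj with h | h <;> rw [h] at hpy <;> norm_num at hpy
  -- the entries `s j l`
  have hn : ∀ l, ∃ n : ℤ, X.s j l = n := by
    intro l
    obtain ⟨n, hn⟩ := fix_int X hR j hfj l
    exact ⟨n, by rw [X.s_symm]; exact hn⟩
  have h25 : ∀ l, ¬ (5 : ℤ) ∣ X.y l → ∀ n : ℤ, X.s j l = n → 25 ≤ n ^ 2 := by
    intro l hl n hnl
    obtain ⟨e, he, he5⟩ := s5 X hR B j l hj hd hyj n hnl
    have h1 := he5 hl
    have h2 : e ≠ 0 := by
      rintro rfl
      exact h1 (dvd_zero _)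
    have h3 : 0 < e ^ 2 := by positivity
    rw [he, mul_pow]
    linarith [show (1 : ℤ) ≤ e ^ 2 by omega]
  have hyj2 : (X.y j) ^ 2 = 100 := by
    rcases hyj with h | h <;> rw [h] <;> norm_num
  -- uniqueness of the element of height zero
  have huniq : ∀ l, l ≠ X.o → ¬ (5 : ℤ) ∣ X.y l → X.t l = 1 → l = i := by
    intro l h1 h2 h3
    by_contra hne
    obtain ⟨n1, hn1⟩ := hn i
    obtain ⟨n2, hn2⟩ := hn l
    have hr1 := rayf X j hfj tj 0 (by rw [hjj]; simp) {X.o, i, l} (by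
      intro l' hl
      rcases Finset.mem_insert.1 hl with h | h
      · rw [h]; exact X.t_o
      · rcases Finset.mem_insert.1 h with h | h
        · rw [h]; exact hti
        · rw [Finset.mem_singleton.1 h]; exact h3)
    rw [Finset.sum_insert (by simp [Ne.symm hio, Ne.symm h1]), Finset.sum_pair (Ne.symm hne),
      X.s_symm X.o j, X.s_o, X.s_symm i j, X.s_symm l j, hn1, hn2, Complex.norm_intCast,
      Complex.norm_intCast, Complex.norm_intCast, sq_abs, sq_abs, sq_abs] at hr1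
    have e1 := h25 i hpy n1 hn1
    have e2 := h25 l h2 n2 hn2
    have e1' : (25 : ℝ) ≤ (n1 : ℝ) ^ 2 := by exact_mod_cast e1
    have e2' : (25 : ℝ) ≤ (n2 : ℝ) ^ 2 := by exact_mod_cast e2
    have e3 : ((X.y j : ℤ) : ℝ) ^ 2 = 100 := by exact_mod_cast hyj2
    rw [e3] at hr1
    push_cast at hr1
    linarith
  have hfi : ∀ c, X.pi c i = i := by
    intro c
    refine huniq _ (fun h => hio ((fix_iff X X.o X.pi_o c i).1 h)) ?_ ?_
    · rw [X.pi_y]; exact hpy
    · rw [X.pi_t, hti, one_pow]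
  -- `K = {i, j}`
  have hK : ∀ l, X.y l ≠ 0 → X.t l = 1 → l = X.o ∨ l = i ∨ l = j := by
    intro l h1 h2
    by_contra hcon
    push Not at hcon
    obtain ⟨g1, g2, g3⟩ := hcon
    have hd5 : (5 : ℤ) ∣ X.y l := by
      by_contra h3
      exact g2 (huniq l g1 h3 h2)
    have hdl : 5 ∣ X.d l := (dy X B h1).2 (by exact_mod_cast hd5)
    obtain ⟨hyl, hfl, hll⟩ := pos10 X hR B l h1 h2 hdl (hy2 l g1 h1 h2)
    have hjl : X.s j l = 0 := by
      have := L1 X hR B l j h1 h2 hdl hj tj hd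
      rw [OrbK_fix X l hfl, Finset.sum_singleton] at this
      exact this
    have hr3 : ∀ σ : ℝ, (5 : ℝ) * (X.y j + σ * X.y l) ^ 2 ≤ 625 * (1 + σ ^ 2) := by
      intro σ
      have hh := ray3 X X.o j l (Ne.symm hjo) (Ne.symm g1) (Ne.symm g3) X.pi_o hfj hfl X.t_o tj h2
        (X.y X.o) (X.y j) (X.y l) 0 0 0 (X.s_o _) (by rw [X.s_symm, X.s_o])
        (by rw [X.s_symm, X.s_o]) (by rw [hjj]; simp) (by rw [hjl]; simp) (by rw [hll]; simp)
        0 1 σ
      push_cast at hh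
      norm_num at hh
      linarith
    rcases hyj with h | h <;> rcases hyl with h' | h'
    · have := hr3 1; rw [h, h'] at this; norm_num at this
    · have := hr3 (-1); rw [h, h'] at this; norm_num at this
    · have := hr3 (-1); rw [h, h'] at this; norm_num at this
    · have := hr3 1; rw [h, h'] at this; norm_num at this
  -- the entry `s i j`
  obtain ⟨n, hnj⟩ := hn i
  obtain ⟨e, he, -⟩ := s5 X hR B j i hj hd hyj n hnj
  have hn25 : n ^ 2 = 25 := by
    have e1 := h25 i hpy n hnj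
    have hr1 := rayf X j hfj tj 0 (by rw [hjj]; simp) {X.o, i} (by
      intro l' hl
      rcases Finset.mem_insert.1 hl with h | h
      · rw [h]; exact X.t_o
      · rw [Finset.mem_singleton.1 h]; exact hti)
    rw [Finset.sum_pair (Ne.symm hio), X.s_symm X.o j, X.s_o, X.s_symm i j, hnj,
      Complex.norm_intCast, Complex.norm_intCast, sq_abs, sq_abs] at hr1
    have e3 : ((X.y j : ℤ) : ℝ) ^ 2 = 100 := by exact_mod_cast hyj2
    rw [e3] at hr1
    push_cast at hr1
    have e4 : (n : ℝ) ^ 2 ≤ 25 := by linarith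
    have e5 : n ^ 2 ≤ 25 := by exact_mod_cast e4
    omega
  obtain ⟨v, hv⟩ := fix_int X hR i hfi i
  -- the polarised equalities
  have hpol : ∀ α β N : ℝ, 0 ≤ N * (200 * (α * X.y j + β * n) -
      10 * (X.y j * (α * X.y X.o + β * X.y i) + n * (α * X.y i + β * v))) +
      (625 * (α ^ 2 + β ^ 2) + 100 * (α * (α * X.y X.o + β * X.y i) +
        β * (α * X.y i + β * v)) - 5 * ((α * X.y X.o + β * X.y i) ^ 2 +
        (α * X.y i + β * v) ^ 2 + (α * X.y j + β * n) ^ 2)) := by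
    intro α β N
    have hh := ray3 X X.o i j (Ne.symm hio) (Ne.symm hjo) hij X.pi_o hfi hfj X.t_o hti tj
      (X.y X.o) (X.y i) (X.y j) v n 0 (X.s_o _) (by rw [X.s_symm, X.s_o])
      (by rw [X.s_symm, X.s_o]) hv (by rw [X.s_symm, hnj]) (by rw [hjj]; simp) α β N
    have e3 : ((X.y j : ℤ) : ℝ) ^ 2 = 100 := by exact_mod_cast hyj2
    have e4 : (n : ℝ) ^ 2 = 25 := by exact_mod_cast hn25
    push_cast at hh
    have e5 : N ^ 2 * ((X.y j : ℤ) : ℝ) ^ 2 = N ^ 2 * 100 := by rw [e3]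
    have e6 : N ^ 2 * (n : ℝ) ^ 2 = N ^ 2 * 25 := by rw [e4]
    nlinarith [hh, e5, e6]
  have p1 := aff (hpol 1 0)
  have p2 := aff (hpol 0 1)
  have p1' : 200 * X.y j - 10 * (X.y j * X.y X.o + n * X.y i) = 0 := by
    have : (200 : ℝ) * X.y j - 10 * (X.y j * X.y X.o + n * X.y i) = 0 := by linarith
    exact_mod_cast this
  have p2' : 200 * n - 10 * (X.y j * X.y i + n * v) = 0 := by
    have : (200 : ℝ) * n - 10 * (X.y j * X.y i + n * v) = 0 := by linarith
    exact_mod_cast this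
  -- signs
  obtain ⟨ε, hε, hyε⟩ : ∃ ε : ℤ, (ε = 1 ∨ ε = -1) ∧ X.y j = 10 * ε := by
    rcases hyj with h | h
    · exact ⟨1, Or.inl rfl, by rw [h]; norm_num⟩
    · exact ⟨-1, Or.inr rfl, by rw [h]; norm_num⟩
  have hη : e = 1 ∨ e = -1 := by
    have h1 : e ^ 2 = 1 := by
      rw [he, mul_pow] at hn25
      linarith
    have h2 : (e - 1) * (e + 1) = 0 := by linear_combination h1
    rcases mul_eq_zero.1 h2 with h3 | h3
    · left; linarith
    · right; linarith
  obtain ⟨w, hw, hwe⟩ : ∃ w : ℤ, (w = 1 ∨ w = -1) ∧ w = ε * e := by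
    refine ⟨ε * e, ?_, rfl⟩
    rcases hε with h | h <;> rcases hη with h' | h' <;> rw [h, h'] <;> norm_num
  have hε2 : ε * ε = 1 := by rcases hε with h | h <;> rw [h] <;> norm_num
  have he2 : e * e = 1 := by rcases hη with h | h <;> rw [h] <;> norm_num
  have hw2 : w * w = 1 := by rcases hw with h | h <;> rw [h] <;> norm_num
  have hwη : w * e = ε := by rw [hwe]; linear_combination ε * he2
  have q1 : 2 * X.y X.o + w * X.y i = 40 := by
    rw [hyε, he] at p1'
    have h50 : 50 * (2 * X.y X.o + w * X.y i - 40) = 0 := by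
      rw [hwe]
      linear_combination (-ε) * p1' - (100 * X.y X.o - 2000) * hε2
    linarith
  have q2 : v = 20 - 2 * (w * X.y i) := by
    rw [hyε, he] at p2'
    have h50 : 50 * (20 - 2 * (w * X.y i) - v) = 0 := by
      rw [hwe]
      linear_combination e * p2' - (1000 - 50 * v) * he2
    linarith
  have hxne : X.y X.o ≠ 0 := by
    intro h
    exact B.x_nd (by rw [h]; exact dvd_zero _)
  -- `kap`
  have hGk : ∀ u, X.y u ≠ 0 → ∀ k, (X.y k = 0 ∨ X.t k ≠ 1) → X.s u k * (X.kap k : ℂ) = 0 := by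
    intro u hu k hk
    rcases hk with h | h
    · rw [B.sup u k hu h, zero_mul]
    · have : X.kap k = 0 := by
        by_contra h1
        exact h (X.kap_t k h1)
      rw [this]
      simp
  have k1 := hkap X.o
  rw [sum3 X i j hio hjo hij hK _ (hGk X.o hxne), X.s_symm X.o i, X.s_symm X.o j, X.s_o, X.s_o,
    X.s_o, X.kap_o] at k1
  have k1' : X.y X.o + (X.y i * X.kap i + X.y j * X.kap j) = 25 := by
    have : (X.y X.o : ℂ) + (X.y i * X.kap i + X.y j * X.kap j) = 25 := by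
      have h := k1
      push_cast at h
      linear_combination h
    exact_mod_cast this
  have k2 := hkap j
  rw [sum3 X i j hio hjo hij hK _ (hGk j hj), X.s_o, hnj, hjj, X.kap_o] at k2
  have k2' : X.y j + n * X.kap i = 25 * X.kap j := by
    have : (X.y j : ℂ) + n * X.kap i = 25 * X.kap j := by
      have h := k2
      push_cast at h
      linear_combination h
    exact_mod_cast this
  rw [hyε] at k1' k2'
  rw [he] at k2'
  have k3 : (X.y X.o - 21) * (1 - 2 * (ε * X.kap j)) = 0 := by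
    have h1 : e * (X.kap i : ℤ) = 5 * X.kap j - 2 * ε := by linarith
    have h2 : (X.kap i : ℤ) = e * (5 * X.kap j - 2 * ε) := by
      linear_combination e * h1 - (X.kap i : ℤ) * he2
    have h3 : X.y i = w * (40 - 2 * X.y X.o) := by
      linear_combination w * q1 - X.y i * hw2
    have h4 : X.y i * (X.kap i : ℤ) = (40 - 2 * X.y X.o) * (5 * (ε * X.kap j) - 2) := by
      rw [h2, h3]
      linear_combination ((40 - 2 * X.y X.o) * (5 * (X.kap j : ℤ) - 2 * ε)) * hwη -
        2 * (40 - 2 * X.y X.o) * hε2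
    have h5 : 5 * ((X.y X.o - 21) * (1 - 2 * (ε * X.kap j))) = 0 := by
      linear_combination k1' - h4
    linarith
  have hx21 : X.y X.o = 21 := by
    rcases mul_eq_zero.1 k3 with h | h
    · linarith
    · exfalso
      omega
  have hyw : w * X.y i = -2 := by linarith
  have hyiw : X.y i = -2 * w := by linear_combination w * hyw - X.y i * hw2
  have hv24 : v = 24 := by rw [q2, hyw]; norm_num
  -- `z`
  have hGz : ∀ u, X.y u ≠ 0 → ∀ k, (X.y k = 0 ∨ X.t k ≠ 1) → X.s u k * (X.z k : ℂ) = 0 := by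
    intro u hu k hk
    rcases hk with h | h
    · rw [B.sup u k hu h, zero_mul]
    · have : X.z k = 0 := by
        by_contra h1
        exact h (X.z_t k h1)
      rw [this]
      simp
  obtain ⟨d', hd'⟩ := hd
  have z1 := X.sz X.o
  rw [sum3 X i j hio hjo hij hK _ (hGz X.o hxne), X.s_symm X.o i, X.s_symm X.o j, X.s_o, X.s_o,
    X.s_o, X.d_o, hyε, hyiw, hx21] at z1
  have z1' : 21 * X.z X.o + (-2 * w * X.z i + 10 * ε * X.z j) = 1 := by exact_mod_cast z1
  have z2 := X.sz j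
  rw [sum3 X i j hio hjo hij hK _ (hGz j hj), X.s_o, hnj, hjj, hyε, he, hd'] at z2
  have z2' : 10 * ε * X.z X.o + 5 * e * X.z i = 5 * d' := by
    have h := z2
    rw [zero_mul, add_zero] at h
    exact_mod_cast h
  have z3 := X.sz i
  rw [sum3 X i j hio hjo hij hK _ (hGz i hyi), X.s_o, hv, X.s_symm i j, hnj, hyiw, hv24, he] at z3
  have z3' : -2 * w * X.z X.o + (24 * X.z i + 5 * e * X.z j) = X.d i := by exact_mod_cast z3
  have hd'0 : 0 < d' := by
    have := X.d_pos j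
    omega
  have hzi := X.z_dvd i
  have hzj := X.z_dvd j
  push_cast at hzi hzj
  have hH := H i hio hyi hti
  have hHj := H j hjo hj tj
  have h5di : ¬ 5 ∣ X.d i := by
    intro h
    exact hpy (by exact_mod_cast (dy X B hyi).1 h)
  have h5d' : ¬ 5 ∣ d' := by
    intro h
    obtain ⟨c, hc, hv'⟩ := B.val j hj
    obtain ⟨f, hf⟩ := h
    have h3 : (5 : ℤ) ∣ (X.m : ℤ) ^ 2 * 2 := by
      rw [hd', hf, hyε] at hv'
      push_cast at hv'
      rcases hε with h | h
      · rw [h] at hv'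
        exact ⟨f * c, by linarith⟩
      · rw [h] at hv'
        exact ⟨-(f * c), by linarith⟩
    have h5p : Prime (5 : ℤ) := by
      have := pprime X
      exact_mod_cast this
    rcases h5p.dvd_or_dvd h3 with h4 | h4
    · exact m2_nd X (by exact_mod_cast h4)
    · norm_num at h4
  have e1' : 2 * X.z X.o + w * X.z i = ε * d' := by
    have h : 2 * ε * X.z X.o + e * X.z i = d' := by linarith
    linear_combination ε * h - 2 * X.z X.o * hε2 + X.z i * hwe
  -- the commutation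
  have hG1 : ∀ u k, X.y u ≠ 0 → ∀ l, (X.y l = 0 ∨ X.t l ≠ 1) →
      (if X.t l = 1 then X.s u l * ((X.d l : ℂ) * X.chi l k) else 0) = 0 := by
    intro u k hu l hl
    rcases hl with h | h
    · rw [B.sup u l hu h]
      simp
    · rw [if_neg h]
  have hG2 : ∀ u k, X.y k ≠ 0 → ∀ l, (X.y l = 0 ∨ X.t l ≠ 1) →
      (if X.t l = 1 then ((X.d u : ℂ) * X.chi u l) * X.s l k else 0) = 0 := by
    intro u k hk l hl
    rcases hl with h | h
    · rw [X.s_symm l k, B.sup k l hk h]
      simp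
    · rw [if_neg h]
  have c1 := C.com X.o i
  rw [sum3 X i j hio hjo hij hK _ (hG1 X.o i hxne), sum3 X i j hio hjo hij hK _ (hG2 X.o i hyi),
    if_pos X.t_o, if_pos hti, if_pos tj, if_pos X.t_o, if_pos hti, if_pos tj, X.d_o, X.o_chi,
    X.o_chi, X.o_chi, X.d_o, X.s_symm X.o i, X.s_symm X.o j, X.s_o, X.s_o, X.s_o, hv, hnj, hx21,
    hyiw, hyε, he, hv24, C.symm j i] at c1
  have c2 := C.com X.o j
  rw [sum3 X i j hio hjo hij hK _ (hG1 X.o j hxne), sum3 X i j hio hjo hij hK _ (hG2 X.o j hj),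
    if_pos X.t_o, if_pos hti, if_pos tj, if_pos X.t_o, if_pos hti, if_pos tj, X.d_o, X.o_chi,
    X.o_chi, X.o_chi, X.d_o, X.s_symm X.o i, X.s_symm X.o j, X.s_symm i j, X.s_o, X.s_o, X.s_o,
    hnj, hjj, hx21, hyiw, hyε, he, C.symm i j] at c2
  push_cast at c1 c2
  -- the two divisibilities
  have hwC : (w : ℂ) * w = 1 := by exact_mod_cast hw2
  have hεC : (ε : ℂ) * ε = 1 := by exact_mod_cast hε2
  have hweC : (w : ℂ) = ε * e := by exact_mod_cast hwe
  have hwηC : (w : ℂ) * e = ε := by exact_mod_cast hwη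
  have hdjC : (X.d j : ℂ) = 5 * d' := by
    rw [hd']
    push_cast
    ring
  have D1 : ((2 * X.d i : ℕ) : ℤ) ∣ 2 + w * X.d i - 25 * ε * d' := by
    refine dvd_of_intN hR (by have := X.d_pos i; omega) _
      (w * (2 + w * X.chi i i - 5 * ε * X.chi i j)) ?_ ?_
    · exact (cint _).mul (((by exact_mod_cast nint 2 : IsIntegral ℤ (2 : ℂ)).add
        ((cint _).mul (X.chi_int i i))).sub (((by exact_mod_cast nint 5 : IsIntegral ℤ (5 : ℂ)).mul
        (cint _)).mul (X.chi_int i j)))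
    · push_cast
      rw [hdjC] at c1
      linear_combination (w : ℂ) * c1 - 2 * hwC + 25 * (d' : ℂ) * hwηC
  have D2 : ((2 * d' : ℕ) : ℤ) ∣ 2 + w * X.d i - 25 * ε * d' := by
    refine dvd_of_intN hR (by omega) _
      (-ε * (2 + w * X.chi j i - 5 * ε * X.chi j j)) ?_ ?_
    · have h1 : IsIntegral ℤ (-(ε : ℂ)) := (cint ε).neg
      exact h1.mul (((by exact_mod_cast nint 2 : IsIntegral ℤ (2 : ℂ)).add
        ((cint _).mul (X.chi_int j i))).sub (((by exact_mod_cast nint 5 : IsIntegral ℤ (5 : ℂ)).mul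
        (cint _)).mul (X.chi_int j j)))
    · push_cast
      rw [hdjC] at c2
      linear_combination (-(ε : ℂ) / 5) * c2 - 2 * hεC + (X.d i : ℂ) * hweC
  have hω : -5 * (2 * X.z X.o + w * X.z i - 5 * ε * X.z j) =
      2 + w * X.d i - 25 * ε * d' := by
    rw [← z3']
    linear_combination 2 * z1' + 2 * X.z X.o * hw2 - 5 * X.z j * hwη - 25 * e1'
  have co5 : ∀ u : ℕ, ¬ 5 ∣ u → ((2 * u : ℕ) : ℤ) ∣ 2 + w * X.d i - 25 * ε * d' →
      (2 * u : ℤ) ∣ 2 * X.z X.o + w * X.z i - 5 * ε * X.z j := by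
    intro u hu h
    rw [← hω] at h
    have h1 : Nat.Coprime (2 * u) 5 := by
      refine Nat.Coprime.symm ((Nat.Prime.coprime_iff_not_dvd (by norm_num)).2 ?_)
      intro h2
      rcases (Nat.Prime.dvd_mul (by norm_num)).1 h2 with h3 | h3
      · norm_num at h3
      · exact hu h3
    have h2 := Nat.isCoprime_iff_coprime.2 h1
    push_cast at h2 h
    have h3 : (2 * u : ℤ) ∣ 5 * (2 * X.z X.o + w * X.z i - 5 * ε * X.z j) := by
      obtain ⟨c, hc⟩ := h
      exact ⟨-c, by linear_combination -hc⟩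
    exact h2.dvd_of_dvd_mul_left h3
  refine arithC r hr h3r (X.z X.o) ε w (2 * X.z X.o + w * X.z i - 5 * ε * X.z j) (X.d i) d' hε hw
    ?_ hω (co5 _ h5di D1) (co5 _ h5d' D2) hH.1 (hH.2.1 h5di) ?_ ?_ (X.d_pos i) hd'0
  · linear_combination z1'
  · have h1 := hHj.1
    rw [hd'] at h1
    omega
  · intro l hl hld
    have h1 : l ∣ X.d j := by rw [hd']; exact hld.mul_left 5
    rcases hpr j l hl h1 with h2 | h2 | h2
    · exact absurd (h2 ▸ hld) h5d'
    · exact h2
    · exact absurd (h2 ▸ h1) (hHj.2.2 ⟨d', hd'⟩)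

end

end Pool.Agent.Helper89.P2
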