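import Pool.Agent.Helper89.P2.Ht

/-!
# MP_2b6189_al: the vanishing of `s` on the elements of positive height with `t = 1`, for `P = p ^ 2`
-/

set_option autoImplicit false

namespace Pool.Agent.Helper89.P2

open Matrix ComplexConjugate Pool.Agent.Helper94.YF Pool.Agent.Helper94.YG
open Pool.Agent.Helper89.OS (PI)

section

variable {I : Type} [Fintype I] [DecidableEq I] {p a P : ℕ}

open Classical in
/-- the orbit of `k` under the torus -/
noncomputable def OrbK (X : PK I p a P) (k : I) : Finset I :=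
  Finset.univ.filter fun j => ∃ c, X.pi c k = j

theorem mem_OrbK (X : PK I p a P) (k j : I) : j ∈ OrbK X k ↔ ∃ c, X.pi c k = j := by
  simp [OrbK]

theorem OrbK_self (X : PK I p a P) (k : I) : k ∈ OrbK X k :=
  (mem_OrbK X k k).2 ⟨1, X.pi_one k⟩

theorem OrbK_pi (X : PK I p a P) (k : I) (c : (ZMod (p ^ a))ˣ) (i : I) :
    X.pi c i ∈ OrbK X k ↔ i ∈ OrbK X k := by
  rw [mem_OrbK, mem_OrbK]
  constructor
  · rintro ⟨c', h⟩
    refine ⟨c⁻¹ * c', ?_⟩
    rw [X.pi_mul, h, ← X.pi_mul, inv_mul_cancel, X.pi_one]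
  · rintro ⟨c', h⟩
    refine ⟨c * c', ?_⟩
    rw [X.pi_mul, h]

theorem OrbK_disj (X : PK I p a P) (k j i : I) (h1 : i ∈ OrbK X k) (h2 : i ∈ OrbK X j) :
    j ∈ OrbK X k := by
  obtain ⟨c, h1⟩ := (mem_OrbK X k i).1 h1
  obtain ⟨c', h2⟩ := (mem_OrbK X j i).1 h2
  rw [mem_OrbK]
  refine ⟨c'⁻¹ * c, ?_⟩
  rw [X.pi_mul, h1, ← h2, ← X.pi_mul, inv_mul_cancel, X.pi_one]

theorem OrbK_y (X : PK I p a P) (k i : I) (h : i ∈ OrbK X k) : X.y i = X.y k := by
  obtain ⟨c, rfl⟩ := (mem_OrbK X k i).1 h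
  exact X.pi_y c k

theorem OrbK_d (X : PK I p a P) (k i : I) (h : i ∈ OrbK X k) : X.d i = X.d k := by
  obtain ⟨c, rfl⟩ := (mem_OrbK X k i).1 h
  exact X.pi_d c k

theorem OrbK_z (X : PK I p a P) (k i : I) (h : i ∈ OrbK X k) : X.z i = X.z k := by
  obtain ⟨c, rfl⟩ := (mem_OrbK X k i).1 h
  exact X.pi_z c k

theorem OrbK_t (X : PK I p a P) (k i : I) (h : i ∈ OrbK X k) (ht : X.t k = 1) : X.t i = 1 := by
  obtain ⟨c, rfl⟩ := (mem_OrbK X k i).1 h
  rw [X.pi_t, ht, one_pow]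

/-- the indicator of the orbit -/
noncomputable def fO (X : PK I p a P) (k : I) (i : I) : ℝ := if i ∈ OrbK X k then 1 else 0

theorem fO_inv (X : PK I p a P) (k : I) (c : (ZMod (p ^ a))ˣ) (i : I) :
    fO X k (X.pi c i) = fO X k i := by
  unfold fO
  by_cases h : i ∈ OrbK X k
  · rw [if_pos h, if_pos ((OrbK_pi X k c i).2 h)]
  · rw [if_neg h, if_neg (fun h' => h ((OrbK_pi X k c i).1 h'))]

theorem fO_t (X : PK I p a P) (k : I) (ht : X.t k = 1) (i : I) (h : fO X k i ≠ 0) :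
    X.t i = 1 := by
  unfold fO at h
  by_cases h1 : i ∈ OrbK X k
  · exact OrbK_t X k i h1 ht
  · rw [if_neg h1] at h
    exact absurd rfl h

theorem fO_sq (X : PK I p a P) (k : I) : ∑ i, fO X k i ^ 2 = ((OrbK X k).card : ℝ) := by
  have h1 : ∀ i, fO X k i ^ 2 = if i ∈ OrbK X k then (1 : ℝ) else 0 := by
    intro i
    unfold fO
    split_ifs <;> norm_num
  rw [Finset.sum_congr rfl fun i _ => h1 i, Finset.sum_ite_mem, Finset.univ_inter]
  simp

theorem sf_fO (X : PK I p a P) (k j : I) : sf X (fO X k) j = ∑ i ∈ OrbK X k, X.s j i := by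
  have h1 : ∀ i, X.s j i * ((fO X k i : ℝ) : ℂ) = if i ∈ OrbK X k then X.s j i else 0 := by
    intro i
    unfold fO
    split_ifs <;> simp
  rw [sf, Finset.sum_congr rfl fun i _ => h1 i, Finset.sum_ite_mem, Finset.univ_inter]

theorem card_pos (X : PK I p a P) (k : I) : (1 : ℝ) ≤ ((OrbK X k).card : ℝ) := by
  have : 0 < (OrbK X k).card := Finset.card_pos.2 ⟨k, OrbK_self X k⟩
  exact_mod_cast this

/-- the symmetry of the orbit sums -/
theorem orb_symm (X : PK I p a P) (k j : I) (n1 n2 : ℤ)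
    (h1 : (n1 : ℂ) = ∑ i ∈ OrbK X k, X.s j i) (h2 : (n2 : ℂ) = ∑ i ∈ OrbK X j, X.s k i) :
    ((OrbK X j).card : ℤ) * n1 = ((OrbK X k).card : ℤ) * n2 := by
  have h3 : ∀ j' ∈ OrbK X j, ∑ i ∈ OrbK X k, X.s j' i = n1 := by
    intro j' hj'
    obtain ⟨c, rfl⟩ := (mem_OrbK X j j').1 hj'
    rw [← sf_fO, sf_inv X (fO X k) (fO_inv X k), sf_fO, h1]
  have h4 : ∀ k' ∈ OrbK X k, ∑ i ∈ OrbK X j, X.s k' i = n2 := by
    intro k' hk'
    obtain ⟨c, rfl⟩ := (mem_OrbK X k k').1 hk'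
    rw [← sf_fO, sf_inv X (fO X j) (fO_inv X j), sf_fO, h2]
  have h5 : ((OrbK X j).card : ℂ) * n1 = ((OrbK X k).card : ℂ) * n2 := by
    calc ((OrbK X j).card : ℂ) * n1 = ∑ j' ∈ OrbK X j, ∑ i ∈ OrbK X k, X.s j' i := by
          rw [Finset.sum_congr rfl h3, Finset.sum_const, nsmul_eq_mul]
      _ = ∑ i ∈ OrbK X k, ∑ j' ∈ OrbK X j, X.s i j' := by
          rw [Finset.sum_comm]
          exact Finset.sum_congr rfl fun i _ => Finset.sum_congr rfl fun j' _ => X.s_symm _ _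
      _ = ((OrbK X k).card : ℂ) * n2 := by
          rw [Finset.sum_congr rfl h4, Finset.sum_const, nsmul_eq_mul]
  exact_mod_cast h5

open Classical in
/-- RAY for the indicator of an orbit. -/
theorem ray_O (X : PK I p a P) (k : I) (ht : X.t k = 1) (n : ℤ)
    (hn : (n : ℂ) = ∑ i ∈ OrbK X k, X.s k i) (T : Finset I) (hT : ∀ i ∈ T, X.t i = 1) :
    (p : ℝ) * ∑ i ∈ T, ‖sf X (fO X k) i‖ ^ 2 ≤ (P : ℝ) ^ 2 * (OrbK X k).card +
      ((p : ℝ) - 1) * P * ((OrbK X k).card * n) := by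
  have h1 := ray X (fO X k) (fO_inv X k) (fO_t X k ht)
  rw [fO_sq] at h1
  have h2 : ∀ i, fO X k i * (sf X (fO X k) i).re = if i ∈ OrbK X k then (n : ℝ) else 0 := by
    intro i
    by_cases hi : i ∈ OrbK X k
    · rw [if_pos hi]
      have h3 : sf X (fO X k) i = n := by
        obtain ⟨c, rfl⟩ := (mem_OrbK X k i).1 hi
        rw [sf_inv X (fO X k) (fO_inv X k), sf_fO, hn]
      rw [h3]
      unfold fO
      rw [if_pos hi]
      simp
    · rw [if_neg hi]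
      unfold fO
      rw [if_neg hi]
      simp
  rw [Finset.sum_congr rfl fun i _ => h2 i, Finset.sum_ite_mem, Finset.univ_inter,
    Finset.sum_const, nsmul_eq_mul] at h1
  refine le_trans ?_ h1
  have hp0 : (0 : ℝ) ≤ p := Nat.cast_nonneg _
  refine mul_le_mul_of_nonneg_left ?_ hp0
  calc ∑ i ∈ T, ‖sf X (fO X k) i‖ ^ 2
      = ∑ i ∈ T, (if X.t i = 1 then ‖sf X (fO X k) i‖ ^ 2 else 0) := by
        exact Finset.sum_congr rfl fun i hi => by rw [if_pos (hT i hi)]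
    _ ≤ _ := Finset.sum_le_sum_of_subset_of_nonneg (Finset.subset_univ _) fun i _ _ => by
        split_ifs
        · positivity
        · exact le_refl _

theorem o_notin (X : PK I p a P) {Q : ℂ → Prop} (B : BK X Q) (k : I)
    (hk : (p : ℤ) ∣ X.y k) : X.o ∉ OrbK X k := by
  intro h
  have h1 := OrbK_y X k X.o h
  exact B.x_nd (by rw [h1]; exact hk)

theorem sf_o (X : PK I p a P) (k : I) :
    sf X (fO X k) X.o = (((OrbK X k).card : ℤ) * X.y k : ℤ) := by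
  rw [sf_fO]
  have h1 : ∀ i ∈ OrbK X k, X.s X.o i = X.y k := by
    intro i hi
    rw [X.s_symm, X.s_o, OrbK_y X k i hi]
  rw [Finset.sum_congr rfl h1, Finset.sum_const, nsmul_eq_mul]
  push_cast
  ring

/-- `L1`, the diagonal part. -/
theorem L1diag (X : PK I p a (p ^ 2)) (hR : StRAT) {Q : ℂ → Prop} (B : BK X Q) (k : I)
    (hk : X.y k ≠ 0) (ht : X.t k = 1) (hd : p ∣ X.d k) : ∑ i ∈ OrbK X k, X.s k i = 0 := by
  have hy : (p : ℤ) ∣ X.y k := (dy X B hk).1 hd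
  obtain ⟨n, hn⟩ := rat_sum X hR (OrbK X k) (fun c i hi => (OrbK_pi X k c i).2 hi) k
  obtain ⟨n', hn'⟩ := div2 X hR B hk hd (OrbK X k)
    (fun i hi => by rw [OrbK_y X k i hi]; exact hy) n hn
  have hno := o_notin X B k hy
  have h1 := ray_O X k ht n hn (insert X.o (OrbK X k)) (by
    intro i hi
    rcases Finset.mem_insert.1 hi with h | h
    · rw [h]; exact X.t_o
    · exact OrbK_t X k i h ht)
  rw [Finset.sum_insert hno, sf_o] at h1
  have h2 : ∑ i ∈ OrbK X k, ‖sf X (fO X k) i‖ ^ 2 = ((OrbK X k).card : ℝ) * (n : ℝ) ^ 2 := by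
    have h3 : ∀ i ∈ OrbK X k, ‖sf X (fO X k) i‖ ^ 2 = (n : ℝ) ^ 2 := by
      intro i hi
      obtain ⟨c, rfl⟩ := (mem_OrbK X k i).1 hi
      rw [sf_inv X (fO X k) (fO_inv X k), sf_fO, ← hn, Complex.norm_intCast, sq_abs]
    rw [Finset.sum_congr rfl h3, Finset.sum_const, nsmul_eq_mul]
  rw [h2] at h1
  have hc := card_pos X k
  have hp2 : (2 : ℝ) ≤ p := by exact_mod_cast X.prime.two_le
  have h4 : 0 < ‖((((OrbK X k).card : ℤ) * X.y k : ℤ) : ℂ)‖ ^ 2 := by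
    rw [Complex.norm_intCast, sq_abs]
    have h5 : ((OrbK X k).card : ℤ) * X.y k ≠ 0 := by
      refine mul_ne_zero ?_ hk
      have : 0 < (OrbK X k).card := Finset.card_pos.2 ⟨k, OrbK_self X k⟩
      exact_mod_cast this.ne'
    have h6 : ((((OrbK X k).card : ℤ) * X.y k : ℤ) : ℝ) ≠ 0 := by exact_mod_cast h5
    positivity
  have h7 : (p : ℝ) * (((OrbK X k).card : ℝ) * (n : ℝ) ^ 2) <
      (((p ^ 2 : ℕ)) : ℝ) ^ 2 * (OrbK X k).card +
      ((p : ℝ) - 1) * ((p ^ 2 : ℕ) : ℝ) * ((OrbK X k).card * n) := by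
    refine lt_of_lt_of_le ?_ h1
    have : 0 < (p : ℝ) * ‖((((OrbK X k).card : ℤ) * X.y k : ℤ) : ℂ)‖ ^ 2 := by positivity
    linarith [mul_add (p : ℝ) (‖((((OrbK X k).card : ℤ) * X.y k : ℤ) : ℂ)‖ ^ 2)
      (((OrbK X k).card : ℝ) * (n : ℝ) ^ 2)]
  have h8 : (n : ℝ) = (p : ℝ) ^ 2 * n' := by rw [hn']; push_cast; ring
  rw [h8] at h7
  have hpos : (0 : ℝ) < ((OrbK X k).card : ℝ) * (p : ℝ) ^ 4 := by positivity
  have h9 : ((OrbK X k).card : ℝ) * (p : ℝ) ^ 4 * ((n' - 1) * (p * n' + 1)) < 0 := by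
    push_cast at h7
    nlinarith [h7]
  have h10 : ((n' : ℝ) - 1) * (p * n' + 1) < 0 := by
    by_contra hcon
    exact absurd h9 (not_lt.2 (mul_nonneg hpos.le (not_lt.1 hcon)))
  have h11 : (n' - 1) * ((p : ℤ) * n' + 1) < 0 := by exact_mod_cast h10
  have h12 : n' = 0 := by
    have hp2' : (2 : ℤ) ≤ p := by exact_mod_cast X.prime.two_le
    rcases lt_trichotomy n' 0 with h | h | h
    · exfalso
      have h13 : n' ≤ -1 := by omega
      have h14 : (p : ℤ) * n' + 1 < 0 := by nlinarith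
      nlinarith [mul_pos_of_neg_of_neg (show n' - 1 < 0 by omega) h14]
    · exact h
    · exfalso
      have h13 : 0 ≤ n' - 1 := by omega
      have h14 : 0 < (p : ℤ) * n' + 1 := by nlinarith
      nlinarith [mul_nonneg h13 h14.le]
  rw [← hn, hn', h12]
  simp

/-- `L1'`: the bound for `y` on elements of positive height. -/
theorem L1y (X : PK I p a (p ^ 2)) (hR : StRAT) {Q : ℂ → Prop} (B : BK X Q) (k : I)
    (hk : X.y k ≠ 0) (ht : X.t k = 1) (hd : p ∣ X.d k) : X.y k ^ 2 ≤ (p : ℤ) ^ 3 := by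
  have h0 := L1diag X hR B k hk ht hd
  have h1 := ray_O X k ht 0 (by rw [h0]; simp) {X.o} (by
    intro i hi
    rw [Finset.mem_singleton.1 hi]; exact X.t_o)
  rw [Finset.sum_singleton, sf_o, Complex.norm_intCast, sq_abs] at h1
  have hc := card_pos X k
  have hp0 : (0 : ℝ) < p := by exact_mod_cast X.prime.pos
  push_cast at h1
  have h2 : (p : ℝ) * (((OrbK X k).card : ℝ) * (((OrbK X k).card : ℝ) * (X.y k : ℝ) ^ 2)) ≤
      (p : ℝ) * (((OrbK X k).card : ℝ) * (p : ℝ) ^ 3) := by nlinarith [h1]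
  have h3 := le_of_mul_le_mul_left h2 hp0
  have h4 := le_of_mul_le_mul_left h3 (by linarith)
  have h5 : (X.y k : ℝ) ^ 2 ≤ ((OrbK X k).card : ℝ) * (X.y k : ℝ) ^ 2 := by
    nlinarith [sq_nonneg (X.y k : ℝ)]
  have h6 : (X.y k : ℝ) ^ 2 ≤ (p : ℝ) ^ 3 := le_trans h5 h4
  exact_mod_cast h6

/-- `L1`: the orbit sums on the elements of positive height with `t = 1` vanish. -/
theorem L1 (X : PK I p a (p ^ 2)) (hR : StRAT) {Q : ℂ → Prop} (B : BK X Q) (k j : I)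
    (hk : X.y k ≠ 0) (htk : X.t k = 1) (hdk : p ∣ X.d k)
    (hj : X.y j ≠ 0) (htj : X.t j = 1) (hdj : p ∣ X.d j) : ∑ i ∈ OrbK X k, X.s j i = 0 := by
  have hyk : (p : ℤ) ∣ X.y k := (dy X B hk).1 hdk
  have hyj : (p : ℤ) ∣ X.y j := (dy X B hj).1 hdj
  by_cases hjk : j ∈ OrbK X k
  · obtain ⟨c, rfl⟩ := (mem_OrbK X k j).1 hjk
    rw [← sf_fO, sf_inv X (fO X k) (fO_inv X k), sf_fO]
    exact L1diag X hR B k hk htk hdk
  obtain ⟨n1, hn1⟩ := rat_sum X hR (OrbK X k) (fun c i hi => (OrbK_pi X k c i).2 hi) j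
  obtain ⟨n2, hn2⟩ := rat_sum X hR (OrbK X j) (fun c i hi => (OrbK_pi X j c i).2 hi) k
  obtain ⟨m1, hm1⟩ := div2 X hR B hj hdj (OrbK X k)
    (fun i hi => by rw [OrbK_y X k i hi]; exact hyk) n1 hn1
  obtain ⟨m2, hm2⟩ := div2 X hR B hk hdk (OrbK X j)
    (fun i hi => by rw [OrbK_y X j i hi]; exact hyj) n2 hn2
  have hs := orb_symm X k j n1 n2 hn1 hn2
  have hp0 : (0 : ℝ) < p := by exact_mod_cast X.prime.pos
  have hp2 : (2 : ℝ) ≤ p := by exact_mod_cast X.prime.two_le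
  -- the general estimate
  have key : ∀ (k j : I) (n n' : ℤ), X.y k ≠ 0 → X.t k = 1 → p ∣ X.d k → X.t j = 1 →
      (n : ℂ) = ∑ i ∈ OrbK X k, X.s j i → n = (p : ℤ) ^ 2 * n' →
      (p : ℤ) * ((OrbK X j).card * n' ^ 2) ≤ (OrbK X k).card := by
    intro k j n n' hk htk hdk htj hn hnn
    have h0 := L1diag X hR B k hk htk hdk
    have h1 := ray_O X k htk 0 (by rw [h0]; simp) (OrbK X j) (fun i hi => OrbK_t X j i hi htj)
    have h2 : ∑ i ∈ OrbK X j, ‖sf X (fO X k) i‖ ^ 2 = ((OrbK X j).card : ℝ) * (n : ℝ) ^ 2 := by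
      have h3 : ∀ i ∈ OrbK X j, ‖sf X (fO X k) i‖ ^ 2 = (n : ℝ) ^ 2 := by
        intro i hi
        obtain ⟨c, rfl⟩ := (mem_OrbK X j i).1 hi
        rw [sf_inv X (fO X k) (fO_inv X k), sf_fO, ← hn, Complex.norm_intCast, sq_abs]
      rw [Finset.sum_congr rfl h3, Finset.sum_const, nsmul_eq_mul]
    rw [h2, hnn] at h1
    push_cast at h1
    have hpos : (0 : ℝ) < (p : ℝ) ^ 4 := by positivity
    have h4 : (p : ℝ) ^ 4 * ((p : ℝ) * (((OrbK X j).card : ℝ) * (n' : ℝ) ^ 2)) ≤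
        (p : ℝ) ^ 4 * ((OrbK X k).card : ℝ) := by nlinarith [h1]
    have h5 := le_of_mul_le_mul_left h4 hpos
    exact_mod_cast h5
  have e1 := key k j n1 m1 hk htk hdk htj hn1 hm1
  have e2 := key j k n2 m2 hj htj hdj htk hn2 hm2
  have hcj : (1 : ℤ) ≤ (OrbK X j).card := by
    have := card_pos X j
    exact_mod_cast this
  have hck : (1 : ℤ) ≤ (OrbK X k).card := by
    have := card_pos X k
    exact_mod_cast this
  have hpz : (2 : ℤ) ≤ p := by exact_mod_cast X.prime.two_le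
  have hm : m1 = 0 := by
    by_contra hne
    have hm2 : m2 ≠ 0 := by
      intro h
      rw [hm1, hm2, h, mul_zero, mul_zero] at hs
      rcases mul_eq_zero.1 hs with h3 | h3
      · omega
      · rcases mul_eq_zero.1 h3 with h4 | h4
        · have : (p : ℤ) ≠ 0 := by omega
          exact this (pow_eq_zero_iff two_ne_zero |>.1 h4)
        · exact hne h4
    have q1 : 1 ≤ m1 ^ 2 := by
      have : 0 < m1 ^ 2 := by positivity
      omega
    have q2 : 1 ≤ m2 ^ 2 := by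
      have : 0 < m2 ^ 2 := by positivity
      omega
    have r1 : (p : ℤ) * (OrbK X j).card ≤ (OrbK X k).card := by
      refine le_trans ?_ e1
      refine mul_le_mul_of_nonneg_left ?_ (by omega)
      nlinarith
    have r2 : (p : ℤ) * (OrbK X k).card ≤ (OrbK X j).card := by
      refine le_trans ?_ e2
      refine mul_le_mul_of_nonneg_left ?_ (by omega)
      nlinarith
    nlinarith
  rw [← hn1, hm1, hm]
  simp

end

end Pool.Agent.Helper89.P2
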