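import Pool.Agent.Helper89.P2.L1

/-!
# MP_2b6189_al: congruences modulo a second prime, and the mass, for `P = p ^ 2`
-/

set_option autoImplicit false

namespace Pool.Agent.Helper89.P2

open Matrix ComplexConjugate Pool.Agent.Helper94.YF Pool.Agent.Helper94.YG
open Pool.Agent.Helper89.OS (PI)

section

variable {I : Type} [Fintype I] [DecidableEq I] {p a P : ℕ}

theorem OrbK_eq (X : PK I p a P) (k l : I) (h : l ∈ OrbK X k) : OrbK X l = OrbK X k := by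
  ext i
  constructor
  · intro hi
    obtain ⟨c, rfl⟩ := (mem_OrbK X l i).1 hi
    exact (OrbK_pi X k c l).2 h
  · intro hi
    exact OrbK_disj X l i i (by
      obtain ⟨c, rfl⟩ := (mem_OrbK X k l).1 h
      obtain ⟨c', rfl⟩ := (mem_OrbK X k i).1 hi
      rw [mem_OrbK]
      refine ⟨c' * c⁻¹, ?_⟩
      rw [← X.pi_mul, mul_assoc, inv_mul_cancel, mul_one]) (OrbK_self X i)

theorem OrbK_comm (X : PK I p a P) (k l : I) (h : l ∈ OrbK X k) : k ∈ OrbK X l := by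
  rw [OrbK_eq X k l h]
  exact OrbK_self X k

/-- A sum over a stable set is zero if all orbit sums are zero. -/
theorem orb_zero (X : PK I p a P) (S : Finset I) (hS : ∀ c, ∀ i ∈ S, X.pi c i ∈ S) (g : I → ℂ)
    (h0 : ∀ i ∈ S, ∑ l ∈ OrbK X i, g l = 0) : ∑ i ∈ S, g i = 0 := by
  have hc : ∀ i, ((OrbK X i).card : ℂ) ≠ 0 := by
    intro i
    have : 0 < (OrbK X i).card := Finset.card_pos.2 ⟨i, OrbK_self X i⟩
    exact_mod_cast this.ne'
  have hSO : ∀ i ∈ S, ∀ l ∈ OrbK X i, l ∈ S := by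
    intro i hi l hl
    obtain ⟨c, rfl⟩ := (mem_OrbK X i l).1 hl
    exact hS c i hi
  have h1 : ∑ l ∈ S, g l = ∑ l ∈ S, ∑ i ∈ S, if i ∈ OrbK X l then
      (1 / ((OrbK X l).card : ℂ)) * g l else 0 := by
    refine Finset.sum_congr rfl fun l hl => ?_
    rw [Finset.sum_ite_mem, Finset.inter_eq_right.2 (hSO l hl), Finset.sum_const, nsmul_eq_mul]
    field_simp [hc l]
  rw [h1, Finset.sum_comm]
  refine Finset.sum_eq_zero fun i hi => ?_
  have h2 : ∀ l ∈ S, (if i ∈ OrbK X l then (1 / ((OrbK X l).card : ℂ)) * g l else 0) =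
      if l ∈ OrbK X i then (1 / ((OrbK X i).card : ℂ)) * g l else 0 := by
    intro l _
    by_cases h : i ∈ OrbK X l
    · rw [if_pos h, if_pos (OrbK_comm X l i h), OrbK_eq X l i h]
    · rw [if_neg h, if_neg (fun h' => h (OrbK_comm X i l h'))]
  rw [Finset.sum_congr rfl h2, Finset.sum_ite_mem, Finset.inter_eq_right.2 (hSO i hi),
    ← Finset.mul_sum, h0 i hi, mul_zero]

/-- an integer which is `q` times an algebraic integer -/
theorem dvd_of_int (hR : StRAT) {q : ℕ} (hq : q.Prime) (n : ℤ) (w : ℂ) (hw : IsIntegral ℤ w)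
    (h : (n : ℂ) = (q : ℂ) * w) : (q : ℤ) ∣ n := by
  have hq0 : (q : ℂ) ≠ 0 := by exact_mod_cast hq.ne_zero
  have hq1 : (q : ℚ) ≠ 0 := by exact_mod_cast hq.ne_zero
  have h1 : (((n : ℚ) / q : ℚ) : ℂ) = w := by
    push_cast
    rw [h]
    field_simp
  obtain ⟨c, hc⟩ := hR.2 ((n : ℚ) / q) (by rw [h1]; exact hw)
  refine ⟨c, ?_⟩
  have h2 : (n : ℚ) = q * c := by
    have h3 : (c : ℚ) = (n : ℚ) / q := hc
    rw [h3]
    field_simp
  exact_mod_cast h2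

theorem z_div (X : PK I p a (p ^ 2)) {q : ℕ} (hq : q.Prime) (hqp : q ≠ p) (i : I)
    (h : q ∣ X.d i) : (q : ℤ) ∣ X.z i := by
  have h1 : (q : ℤ) ∣ ((p ^ 2 : ℕ) : ℤ) * X.z i := dvd_trans (by exact_mod_cast h) (X.z_dvd i)
  have hqi : Prime (q : ℤ) := Nat.prime_iff_prime_int.mp hq
  rcases hqi.dvd_or_dvd h1 with h2 | h2
  · exfalso
    have h3 : q ∣ p ^ 2 := by exact_mod_cast h2
    exact hqp ((Nat.prime_dvd_prime_iff_eq hq X.prime).1 (hq.dvd_of_dvd_pow h3))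
  · exact h2

/-- the part of `s z` on a set of elements whose `z` is divisible by `q` -/
theorem L2 (X : PK I p a (p ^ 2)) (hR : StRAT) {Q : ℂ → Prop} (B : BK X Q) {q : ℕ}
    (hq : q.Prime) (hqp : q ≠ p)
    (H : ∀ i, i ≠ X.o → X.y i ≠ 0 → X.z i ≠ 0 → ¬ p ∣ X.d i → q ∣ X.d i) (j : I)
    (hj : X.y j ≠ 0) (htj : X.t j = 1) (hdj : p ∣ X.d j) :
    (q : ℤ) ∣ (X.d j : ℤ) - X.y j * X.z X.o := by
  classical
  set S : Finset I := Finset.univ.filter fun i => X.y i ≠ 0 ∧ X.z i ≠ 0 ∧ p ∣ X.d i with hSdef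
  have hmem : ∀ i, i ∈ S ↔ (X.y i ≠ 0 ∧ X.z i ≠ 0 ∧ p ∣ X.d i) := by
    intro i
    simp [hSdef]
  have hS : ∀ c, ∀ i ∈ S, X.pi c i ∈ S := by
    intro c i hi
    rw [hmem] at hi ⊢
    rw [X.pi_y, X.pi_z, X.pi_d]
    exact hi
  have h0 : ∑ i ∈ S, X.s j i * (X.z i : ℂ) = 0 := by
    refine orb_zero X S hS (fun i => X.s j i * (X.z i : ℂ)) ?_
    intro i hi
    obtain ⟨hi1, hi2, hi3⟩ := (hmem i).1 hi
    have h1 : ∀ l ∈ OrbK X i, X.s j l * (X.z l : ℂ) = X.s j l * (X.z i : ℂ) := by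
      intro l hl
      rw [OrbK_z X i l hl]
    rw [Finset.sum_congr rfl h1, ← Finset.sum_mul,
      L1 X hR B i j hi1 (X.z_t i hi2) hi3 hj htj hdj, zero_mul]
  have ho : X.o ∉ S := by
    rw [hmem]
    rintro ⟨-, -, h3⟩
    rw [X.d_o] at h3
    exact X.prime.one_lt.ne' (Nat.dvd_one.1 h3)
  have hz : ∀ i, ∃ u : ℤ, i ≠ X.o → i ∉ S → X.y i ≠ 0 → X.z i = q * u := by
    intro i
    by_cases h : i ≠ X.o ∧ i ∉ S ∧ X.y i ≠ 0
    · by_cases hz0 : X.z i = 0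
      · exact ⟨0, fun _ _ _ => by rw [hz0]; ring⟩
      · have hpd : ¬ p ∣ X.d i := fun hd => h.2.1 ((hmem i).2 ⟨h.2.2, hz0, hd⟩)
        obtain ⟨u, hu⟩ := z_div X hq hqp i (H i h.1 h.2.2 hz0 hpd)
        exact ⟨u, fun _ _ _ => hu⟩
    · exact ⟨0, fun h1 h2 h3 => absurd ⟨h1, h2, h3⟩ h⟩
  choose u hu using hz
  have h2 := X.sz j
  have h3 : ∑ i, X.s j i * (X.z i : ℂ) = X.y j * X.z X.o +
      (q : ℂ) * ∑ i ∈ (Finset.univ \ S).erase X.o, if X.y i = 0 then 0 else X.s j i * (u i : ℂ) := by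
    rw [← Finset.sum_sdiff (Finset.subset_univ S), h0, add_zero,
      ← Finset.add_sum_erase _ _ (show X.o ∈ Finset.univ \ S by simp [ho]), X.s_o, Finset.mul_sum]
    congr 1
    refine Finset.sum_congr rfl fun i hi => ?_
    have hi1 : i ≠ X.o := (Finset.mem_erase.1 hi).1
    have hi2 : i ∉ S := (Finset.mem_sdiff.1 (Finset.mem_erase.1 hi).2).2
    by_cases hy : X.y i = 0
    · rw [if_pos hy, B.sup j i hj hy]
      ring
    · rw [if_neg hy, hu i hi1 hi2 hy]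
      push_cast
      ring
  refine dvd_of_int hR hq _
    (∑ i ∈ (Finset.univ \ S).erase X.o, if X.y i = 0 then 0 else X.s j i * (u i : ℂ)) ?_ ?_
  · refine IsIntegral.sum _ fun i _ => ?_
    split_ifs
    · exact isIntegral_zero
    · exact (X.s_int j i).mul (cint _)
  · push_cast
    rw [← h2, h3]
    ring

/-- `q` does not divide `z o`. -/
theorem L3 (X : PK I p a (p ^ 2)) (hR : StRAT) {Q : ℂ → Prop} (B : BK X Q) {q : ℕ}
    (hq : q.Prime) (hqp : q ≠ p)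
    (H : ∀ i, i ≠ X.o → X.y i ≠ 0 → X.z i ≠ 0 → ¬ p ∣ X.d i → q ∣ X.d i) :
    ¬ (q : ℤ) ∣ X.z X.o := by
  intro hz
  have h1 : ∀ i, (q : ℤ) ∣ X.y i * X.z i := by
    intro i
    by_cases hy : X.y i = 0
    · rw [hy, zero_mul]; exact dvd_zero _
    by_cases hzi : X.z i = 0
    · rw [hzi, mul_zero]; exact dvd_zero _
    by_cases hio : i = X.o
    · rw [hio]; exact hz.mul_left _
    refine Dvd.dvd.mul_left (z_div X hq hqp i ?_) _
    by_cases hd : p ∣ X.d i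
    · have h2 := L2 X hR B hq hqp H i hy (X.z_t i hzi) hd
      have h3 : (q : ℤ) ∣ (X.d i : ℤ) := by
        have := dvd_add h2 (hz.mul_left (X.y i))
        simpa using this
      exact_mod_cast h3
    · exact H i hio hy hzi hd
  have h2 : ∑ i, X.y i * X.z i = 1 := by
    have h3 := X.sz X.o
    rw [X.d_o] at h3
    have h4 : ∀ i, X.s X.o i * (X.z i : ℂ) = ((X.y i * X.z i : ℤ) : ℂ) := by
      intro i
      rw [X.s_symm, X.s_o]
      push_cast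
      ring
    rw [Finset.sum_congr rfl fun i _ => h4 i] at h3
    exact_mod_cast h3
  have h3 : (q : ℤ) ∣ 1 := by
    rw [← h2]
    exact Finset.dvd_sum fun i _ => h1 i
  have h4 : q ∣ 1 := by exact_mod_cast h3
  exact hq.one_lt.ne' (Nat.dvd_one.1 h4)

theorem L3' (X : PK I p a (p ^ 2)) (hR : StRAT) {Q : ℂ → Prop} (B : BK X Q) {q : ℕ}
    (hq : q.Prime) (hqp : q ≠ p)
    (H : ∀ i, i ≠ X.o → X.y i ≠ 0 → X.z i ≠ 0 → ¬ p ∣ X.d i → q ∣ X.d i) (j : I)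
    (hj : X.y j ≠ 0) (htj : X.t j = 1) (hdj : p ∣ X.d j) (hqd : q ∣ X.d j) :
    (q : ℤ) ∣ X.y j := by
  have h1 := L2 X hR B hq hqp H j hj htj hdj
  have h2 : (q : ℤ) ∣ X.y j * X.z X.o := by
    have h3 : (q : ℤ) ∣ (X.d j : ℤ) := by exact_mod_cast hqd
    have h4 := dvd_sub h3 h1
    have h5 : (X.d j : ℤ) - ((X.d j : ℤ) - X.y j * X.z X.o) = X.y j * X.z X.o := by ring
    rwa [h5] at h4
  have hqi : Prime (q : ℤ) := Nat.prime_iff_prime_int.mp hq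
  exact (hqi.dvd_or_dvd h2).resolve_right (L3 X hR B hq hqp H)

/-- If `q` divides `z` on the block outside `o`, then `q ∣ d i` implies `q ∣ y i` on the block. -/
theorem L4 (X : PK I p a (p ^ 2)) (hR : StRAT) {Q : ℂ → Prop} (B : BK X Q) {q : ℕ}
    (hq : q.Prime) (hqp : q ≠ p)
    (H : ∀ i, i ≠ X.o → X.y i ≠ 0 → X.z i ≠ 0 → q ∣ X.d i) (j : I) (hj : X.y j ≠ 0)
    (hqd : q ∣ X.d j) : (q : ℤ) ∣ X.y j := by
  classical
  have hz : ∀ i, ∃ u : ℤ, i ≠ X.o → X.y i ≠ 0 → X.z i = q * u := by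
    intro i
    by_cases h : i ≠ X.o ∧ X.y i ≠ 0
    · by_cases hz0 : X.z i = 0
      · exact ⟨0, fun _ _ => by rw [hz0]; ring⟩
      · obtain ⟨u, hu⟩ := z_div X hq hqp i (H i h.1 h.2 hz0)
        exact ⟨u, fun _ _ => hu⟩
    · exact ⟨0, fun h1 h2 => absurd ⟨h1, h2⟩ h⟩
  choose u hu using hz
  have h2 := X.sz j
  have h3 : ∑ i, X.s j i * (X.z i : ℂ) = X.y j * X.z X.o +
      (q : ℂ) * ∑ i ∈ Finset.univ.erase X.o, if X.y i = 0 then 0 else X.s j i * (u i : ℂ) := by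
    rw [← Finset.add_sum_erase _ _ (Finset.mem_univ X.o), X.s_o, Finset.mul_sum]
    congr 1
    refine Finset.sum_congr rfl fun i hi => ?_
    have hi1 : i ≠ X.o := (Finset.mem_erase.1 hi).1
    by_cases hy : X.y i = 0
    · rw [if_pos hy, B.sup j i hj hy]
      ring
    · rw [if_neg hy, hu i hi1 hy]
      push_cast
      ring
  have h4 : (q : ℤ) ∣ (X.d j : ℤ) - X.y j * X.z X.o := by
    refine dvd_of_int hR hq _
      (∑ i ∈ Finset.univ.erase X.o, if X.y i = 0 then 0 else X.s j i * (u i : ℂ)) ?_ ?_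
    · refine IsIntegral.sum _ fun i _ => ?_
      split_ifs
      · exact isIntegral_zero
      · exact (X.s_int j i).mul (cint _)
    · push_cast
      rw [← h2, h3]
      ring
  have h5 : (q : ℤ) ∣ X.y j * X.z X.o := by
    have h6 : (q : ℤ) ∣ (X.d j : ℤ) := by exact_mod_cast hqd
    have h7 := dvd_sub h6 h4
    have h8 : (X.d j : ℤ) - ((X.d j : ℤ) - X.y j * X.z X.o) = X.y j * X.z X.o := by ring
    rwa [h8] at h7
  have hqi : Prime (q : ℤ) := Nat.prime_iff_prime_int.mp hq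
  exact (hqi.dvd_or_dvd h5).resolve_right
    (L3 X hR B hq hqp fun i h6 h7 h8 _ => H i h6 h7 h8)

/-- Two primes: the conclusion `q ∣ d i → q ∣ y i` on the block. -/
theorem C1 (X : PK I p a (p ^ 2)) (hR : StRAT) {Q : ℂ → Prop} (B : BK X Q) {q r : ℕ}
    (hq : q.Prime) (hr : r.Prime) (hqp : q ≠ p) (hrp : r ≠ p) (hq2 : p < q ^ 2)
    (hr2 : p < r ^ 2)
    (H : ∀ i, i ≠ X.o → X.y i ≠ 0 → X.z i ≠ 0 → (¬ p ∣ X.d i → q ∣ X.d i ∧ r ∣ X.d i) ∧
      (p ∣ X.d i → q ∣ X.d i ∨ r ∣ X.d i)) :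
    ∀ i, X.y i ≠ 0 → (q ∣ X.d i → (q : ℤ) ∣ X.y i) ∧ (r ∣ X.d i → (r : ℤ) ∣ X.y i) := by
  have big : ∀ l : ℕ, l.Prime → l ≠ p → p < l ^ 2 → ∀ i, X.y i ≠ 0 → X.t i = 1 → p ∣ X.d i →
      ¬ (l : ℤ) ∣ X.y i := by
    intro l hl hlp hl2 i hi ht hd hly
    have h1 := L1y X hR B i hi ht hd
    have h2 : (p : ℤ) ∣ X.y i := (dy X B hi).1 hd
    have hco : IsCoprime (p : ℤ) (l : ℤ) :=
      Nat.isCoprime_iff_coprime.2 ((Nat.coprime_primes X.prime hl).2 (Ne.symm hlp))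
    obtain ⟨u, hu⟩ := hco.mul_dvd h2 hly
    have hu0 : u ≠ 0 := by
      rintro rfl
      rw [mul_zero] at hu
      exact hi hu
    have hu1 : 1 ≤ u ^ 2 := by
      have : 0 < u ^ 2 := by positivity
      omega
    have hpz : (0 : ℤ) < p := by exact_mod_cast X.prime.pos
    have hl2z : (p : ℤ) < (l : ℤ) ^ 2 := by exact_mod_cast hl2
    have h3 : X.y i ^ 2 = (p : ℤ) ^ 2 * (l : ℤ) ^ 2 * u ^ 2 := by rw [hu]; ring
    have h4 : (p : ℤ) ^ 3 < (p : ℤ) ^ 2 * (l : ℤ) ^ 2 := by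
      have : (p : ℤ) ^ 3 = (p : ℤ) ^ 2 * p := by ring
      rw [this]
      exact mul_lt_mul_of_pos_left hl2z (by positivity)
    have h5 : (p : ℤ) ^ 2 * (l : ℤ) ^ 2 ≤ X.y i ^ 2 := by
      rw [h3]
      exact le_mul_of_one_le_right (by positivity) hu1
    linarith
  have hnp : ∀ i, i ≠ X.o → X.y i ≠ 0 → X.z i ≠ 0 → ¬ p ∣ X.d i := by
    intro i h1 h2 h3 hd
    have ht := X.z_t i h3
    rcases (H i h1 h2 h3).2 hd with h4 | h4
    · exact big q hq hqp hq2 i h2 ht hd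
        (L3' X hR B hq hqp (fun i e1 e2 e3 e4 => ((H i e1 e2 e3).1 e4).1) i h2 ht hd h4)
    · exact big r hr hrp hr2 i h2 ht hd
        (L3' X hR B hr hrp (fun i e1 e2 e3 e4 => ((H i e1 e2 e3).1 e4).2) i h2 ht hd h4)
  intro i hi
  exact ⟨L4 X hR B hq hqp (fun i e1 e2 e3 => ((H i e1 e2 e3).1 (hnp i e1 e2 e3)).1) i hi,
    L4 X hR B hr hrp (fun i e1 e2 e3 => ((H i e1 e2 e3).1 (hnp i e1 e2 e3)).2) i hi⟩

/-- the mass -/
theorem mass (X : PK I p a (p ^ 2)) (i : I) (hi : i ≠ X.o) (ht : X.t i = 1) :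
    4 * X.y i ^ 2 ≤ ((p : ℤ) ^ 2 + p) ^ 2 := by
  classical
  set f : I → ℝ := fun j => if j = X.o then 1 else 0 with hf
  have hinv : ∀ c j, f (X.pi c j) = f j := by
    intro c j
    have h1 : X.pi c j = X.o ↔ j = X.o := by
      constructor
      · intro h
        have h2 : X.pi c⁻¹ (X.pi c j) = X.pi c⁻¹ X.o := by rw [h]
        rwa [← X.pi_mul, inv_mul_cancel, X.pi_one, X.pi_o] at h2
      · intro h
        rw [h, X.pi_o]
    simp only [hf, h1]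
  have hsf : ∀ j, sf X f j = X.y j := by
    intro j
    rw [sf, Finset.sum_eq_single X.o]
    · simp [hf, X.s_o]
    · intro k _ hk
      simp [hf, hk]
    · intro h
      exact absurd (Finset.mem_univ _) h
  have h1 := ray X f hinv (by
    intro j hj
    by_cases h : j = X.o
    · rw [h]; exact X.t_o
    · simp [hf, h] at hj)
  have h2 : ∑ j, f j ^ 2 = 1 := by simp [hf]
  have h3 : ∑ j, f j * (sf X f j).re = X.y X.o := by
    rw [Finset.sum_congr rfl fun j _ => by rw [hsf j]]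
    simp [hf]
  have h4 : ((X.y X.o : ℤ) : ℝ) ^ 2 + ((X.y i : ℤ) : ℝ) ^ 2 ≤
      ∑ k, (if X.t k = 1 then ‖sf X f k‖ ^ 2 else 0) := by
    have h5 : ∀ k, (if X.t k = 1 then ‖sf X f k‖ ^ 2 else 0) =
        if X.t k = 1 then ((X.y k : ℤ) : ℝ) ^ 2 else 0 := by
      intro k
      rw [hsf, Complex.norm_intCast, sq_abs]
    rw [Finset.sum_congr rfl fun k _ => h5 k]
    have h6 : ∑ k ∈ ({X.o, i} : Finset I), (if X.t k = 1 then ((X.y k : ℤ) : ℝ) ^ 2 else 0) =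
        ((X.y X.o : ℤ) : ℝ) ^ 2 + ((X.y i : ℤ) : ℝ) ^ 2 := by
      rw [Finset.sum_pair (Ne.symm hi), if_pos X.t_o, if_pos ht]
    rw [← h6]
    refine Finset.sum_le_sum_of_subset_of_nonneg (Finset.subset_univ _) fun k _ _ => ?_
    split_ifs
    · positivity
    · exact le_refl _
  rw [h2, h3] at h1
  have hp0 : (0 : ℝ) < p := by exact_mod_cast X.prime.pos
  have h5 := mul_le_mul_of_nonneg_left h4 hp0.le
  have h6 := le_trans h5 h1
  push_cast at h6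
  have h7 : (p : ℝ) * (((X.y X.o : ℤ) : ℝ) ^ 2 + ((X.y i : ℤ) : ℝ) ^ 2) ≤
      (p : ℝ) * ((p : ℝ) ^ 3 + ((p : ℝ) - 1) * p * (X.y X.o : ℤ)) := by
    nlinarith [h6]
  have h8 := le_of_mul_le_mul_left h7 hp0
  have h9 : (4 : ℝ) * ((X.y i : ℤ) : ℝ) ^ 2 ≤ ((p : ℝ) ^ 2 + p) ^ 2 := by
    nlinarith [sq_nonneg (2 * ((X.y X.o : ℤ) : ℝ) - ((p : ℝ) ^ 2 - p))]
  exact_mod_cast h9

end

end Pool.Agent.Helper89.P2
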