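import Pool.Agent.Helper16.OS.M_TWA

/-!
# MP_2b6189_al: sums over the units of `ZMod (p ^ a)`
-/

set_option autoImplicit false

namespace Pool.Agent.Helper89.P2

theorem units_sum {p a : ℕ} [NeZero (p ^ (a + 1))] (hp : p.Prime) (F : ℕ → ℂ) :
    ∑ w : (ZMod (p ^ (a + 1)))ˣ, F (w : ZMod (p ^ (a + 1))).val =
      ∑ n ∈ Finset.range (p ^ (a + 1)), F n - ∑ m ∈ Finset.range (p ^ a), F (p * m) := by
  have h1 := Finset.sum_filter_add_sum_filter_not (Finset.range (p ^ (a + 1))) (fun n => p ∣ n) F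
  have h2 : ∑ w : (ZMod (p ^ (a + 1)))ˣ, F (w : ZMod (p ^ (a + 1))).val =
      ∑ n ∈ (Finset.range (p ^ (a + 1))).filter (fun n => ¬ p ∣ n), F n := by
    refine Finset.sum_bij (fun w _ => (w : ZMod (p ^ (a + 1))).val) ?_ ?_ ?_ ?_
    · intro w _
      rw [Finset.mem_filter, Finset.mem_range]
      refine ⟨ZMod.val_lt _, ?_⟩
      intro hd
      have hc := ZMod.val_coe_unit_coprime w
      have := Nat.dvd_gcd hd (dvd_pow_self p (Nat.succ_ne_zero a))
      rw [Nat.Coprime] at hc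
      rw [hc] at this
      exact hp.one_lt.ne' (Nat.dvd_one.1 this)
    · intro w _ w' _ h
      exact Units.ext (ZMod.val_injective _ h)
    · intro n hn
      rw [Finset.mem_filter, Finset.mem_range] at hn
      have hc : Nat.Coprime n (p ^ (a + 1)) :=
        Nat.Coprime.pow_right _ ((Nat.Prime.coprime_iff_not_dvd hp).2 hn.2).symm
      refine ⟨ZMod.unitOfCoprime n hc, Finset.mem_univ _, ?_⟩
      rw [ZMod.coe_unitOfCoprime, ZMod.val_natCast_of_lt hn.1]
    · intro w _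
      rfl
  have h3 : ∑ n ∈ (Finset.range (p ^ (a + 1))).filter (fun n => p ∣ n), F n =
      ∑ m ∈ Finset.range (p ^ a), F (p * m) := by
    symm
    refine Finset.sum_bij (fun m _ => p * m) ?_ ?_ ?_ ?_
    · intro m hm
      rw [Finset.mem_range] at hm
      rw [Finset.mem_filter, Finset.mem_range]
      refine ⟨?_, dvd_mul_right _ _⟩
      rw [pow_succ']
      exact Nat.mul_lt_mul_of_pos_left hm hp.pos
    · intro m _ m' _ h
      exact Nat.eq_of_mul_eq_mul_left hp.pos h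
    · intro n hn
      rw [Finset.mem_filter, Finset.mem_range] at hn
      obtain ⟨hn1, m, rfl⟩ := hn
      refine ⟨m, ?_, rfl⟩
      rw [Finset.mem_range]
      rw [pow_succ'] at hn1
      exact Nat.lt_of_mul_lt_mul_left hn1
    · intro m _
      rfl
  rw [h2, ← h3, ← h1]
  ring

open Classical in
theorem units_pow {p a : ℕ} [NeZero (p ^ (a + 1))] (hp : p.Prime) (θ : ℂ)
    (h : θ ^ (p ^ (a + 1)) = 1) :
    ∑ w : (ZMod (p ^ (a + 1)))ˣ, θ ^ (w : ZMod (p ^ (a + 1))).val =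
      (if θ = 1 then (p : ℂ) ^ (a + 1) else 0) - (if θ ^ p = 1 then (p : ℂ) ^ a else 0) := by
  rw [units_sum hp (fun n => θ ^ n), Pool.Agent.Helper16.OS.TWA_geom (p ^ (a + 1)) θ h]
  have h1 : ∑ m ∈ Finset.range (p ^ a), θ ^ (p * m) =
      ∑ m ∈ Finset.range (p ^ a), (θ ^ p) ^ m := by
    refine Finset.sum_congr rfl ?_
    intro m _
    rw [pow_mul]
  have h2 : (θ ^ p) ^ (p ^ a) = 1 := by
    rw [← pow_mul, ← pow_succ']
    exact h
  rw [h1, Pool.Agent.Helper16.OS.TWA_geom (p ^ a) (θ ^ p) h2]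
  push_cast
  rfl

end Pool.Agent.Helper89.P2
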