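import Pool.Agent.Helper89.P2.Defs
import Pool.Agent.Helper89.P2.Uni

/-!
# MP_2b6189_al: the Weil relation summed over the units, for torus invariant functions supported on `t = 1`
-/

set_option autoImplicit false

namespace Pool.Agent.Helper89.P2

open Matrix ComplexConjugate Pool.Agent.Helper94.YF Pool.Agent.Helper94.YG
open Pool.Agent.Helper89.OS (PI)

section

variable {I : Type} [Fintype I] [DecidableEq I] {p a P : ℕ}

/-- `s f` -/
noncomputable def sf (X : PK I p a P) (f : I → ℝ) (k : I) : ℂ := ∑ j, X.s k j * (f j : ℂ)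

theorem sum_pi (X : PK I p a P) (c : (ZMod (p ^ a))ˣ) (g : I → ℂ) :
    ∑ i, g (X.pi c i) = ∑ i, g i := by
  refine Finset.sum_nbij' (X.pi c) (X.pi c⁻¹) ?_ ?_ ?_ ?_ ?_
  · intro k _
    exact Finset.mem_univ _
  · intro k _
    exact Finset.mem_univ _
  · intro k _
    rw [← X.pi_mul, inv_mul_cancel, X.pi_one]
  · intro k _
    rw [← X.pi_mul, mul_inv_cancel, X.pi_one]
  · intro k _
    rfl

theorem sf_pi (X : PK I p a P) (f : I → ℝ) (hf : ∀ c i, f (X.pi c i) = f i)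
    (c : (ZMod (p ^ a))ˣ) (k : I) : (∑ j, X.s k (X.pi c j) * (f j : ℂ)) = sf X f k := by
  rw [sf, ← sum_pi X c (fun j => X.s k j * (f j : ℂ))]
  refine Finset.sum_congr rfl fun j _ => ?_
  rw [hf]

theorem sf_inv (X : PK I p a P) (f : I → ℝ) (hf : ∀ c i, f (X.pi c i) = f i)
    (c : (ZMod (p ^ a))ˣ) (k : I) : sf X f (X.pi c k) = sf X f k := by
  rw [← sf_pi X f hf c k, sf]
  refine Finset.sum_congr rfl fun j _ => ?_
  rw [X.pi_s]

theorem sf_real (X : PK I p a P) (f : I → ℝ) (hf : ∀ c i, f (X.pi c i) = f i) (k : I) :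
    conj (sf X f k) = sf X f k := by
  rw [← sf_pi X f hf (-1) k]
  conv_lhs => rw [sf_pi X f hf (-1) k]
  rw [sf, map_sum]
  refine Finset.sum_congr rfl fun j _ => ?_
  rw [map_mul, X.conj_s, Complex.conj_ofReal]

theorem sf_sq (X : PK I p a P) (f : I → ℝ) (hf : ∀ c i, f (X.pi c i) = f i) (k : I) :
    (sf X f k) ^ 2 = ((‖sf X f k‖ ^ 2 : ℝ) : ℂ) := by
  rw [← Complex.normSq_eq_norm_sq, ← Complex.mul_conj, sf_real X f hf, sq]

theorem sf_re (X : PK I p a P) (f : I → ℝ) (hf : ∀ c i, f (X.pi c i) = f i) (k : I) :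
    (((sf X f k).re : ℝ) : ℂ) = sf X f k := Complex.conj_eq_iff_re.1 (sf_real X f hf k)

theorem t_ne (X : PK I p a P) (i : I) : X.t i ≠ 0 := by
  intro h
  have h1 := X.t_pow i
  rw [h, zero_pow (pow_ne_zero _ X.prime.ne_zero)] at h1
  exact zero_ne_one h1

theorem sf_t (X : PK I p a P) (f : I → ℝ) (hf : ∀ c i, f (X.pi c i) = f i)
    (ht : ∀ i, f i ≠ 0 → X.t i = 1) (w : (ZMod (p ^ a))ˣ) :
    ∑ k, X.t k ^ (w : ZMod (p ^ a)).val * (sf X f k) ^ 2 =
      (P : ℂ) * ∑ i, (f i : ℂ) * sf X f i := by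
  have h1 : ∀ k, X.t k ^ (w : ZMod (p ^ a)).val * (sf X f k) ^ 2 =
      ∑ i, ∑ j, (f i : ℂ) * (f j : ℂ) * (X.t k ^ (w : ZMod (p ^ a)).val * (X.s i k * X.s k j)) := by
    intro k
    rw [sq, sf, Finset.sum_mul_sum, Finset.mul_sum]
    refine Finset.sum_congr rfl fun i _ => ?_
    rw [Finset.mul_sum]
    refine Finset.sum_congr rfl fun j _ => ?_
    rw [X.s_symm k i]
    ring
  rw [Finset.sum_congr rfl fun k _ => h1 k, Finset.sum_comm, Finset.mul_sum]
  refine Finset.sum_congr rfl fun i _ => ?_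
  rw [Finset.sum_comm]
  have h2 : ∀ j, ∑ k, (f i : ℂ) * (f j : ℂ) *
      (X.t k ^ (w : ZMod (p ^ a)).val * (X.s i k * X.s k j)) =
      (P : ℂ) * (f i : ℂ) * (X.s i (X.pi w⁻¹ j) * (f j : ℂ)) := by
    intro j
    rw [← Finset.mul_sum, X.weil w i j]
    by_cases hi : f i = 0
    · rw [hi]; simp
    by_cases hj : f j = 0
    · rw [hj]; simp
    rw [ht i hi, ht j hj, one_pow]
    ring
  rw [Finset.sum_congr rfl fun j _ => h2 j, ← Finset.mul_sum, sf_pi X f hf w⁻¹ i]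
  ring

theorem sf_norm (X : PK I p a P) (f : I → ℝ) :
    ∑ k, ‖sf X f k‖ ^ 2 = (P : ℝ) ^ 2 * ∑ i, f i ^ 2 := by
  have h1 : ∀ k, ((‖sf X f k‖ ^ 2 : ℝ) : ℂ) =
      ∑ i, ∑ j, (f i : ℂ) * (f j : ℂ) * (X.s i k * conj (X.s j k)) := by
    intro k
    rw [← Complex.normSq_eq_norm_sq, ← Complex.mul_conj, sf, map_sum, Finset.sum_mul_sum]
    refine Finset.sum_congr rfl fun i _ => Finset.sum_congr rfl fun j _ => ?_
    rw [map_mul, Complex.conj_ofReal, X.s_symm k i, X.s_symm k j]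
    ring
  have h2 : ((∑ k, ‖sf X f k‖ ^ 2 : ℝ) : ℂ) = (((P : ℝ) ^ 2 * ∑ i, f i ^ 2 : ℝ) : ℂ) := by
    rw [Complex.ofReal_sum, Finset.sum_congr rfl fun k _ => h1 k, Finset.sum_comm]
    push_cast
    rw [Finset.mul_sum]
    refine Finset.sum_congr rfl fun i _ => ?_
    rw [Finset.sum_comm]
    have h3 : ∀ j, ∑ k, (f i : ℂ) * (f j : ℂ) * (X.s i k * conj (X.s j k)) =
        if i = j then (P : ℂ) ^ 2 * (f i : ℂ) ^ 2 else 0 := by
      intro j
      rw [← Finset.mul_sum, X.s_uni i j]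
      by_cases hij : i = j
      · rw [if_pos hij, if_pos hij, hij]; ring
      · rw [if_neg hij, if_neg hij, mul_zero]
    rw [Finset.sum_congr rfl fun j _ => h3 j]
    simp
  exact_mod_cast h2

open Classical in
/-- The inequality RAY. -/
theorem ray (X : PK I p a P) (f : I → ℝ) (hf : ∀ c i, f (X.pi c i) = f i)
    (ht : ∀ i, f i ≠ 0 → X.t i = 1) :
    (p : ℝ) * ∑ k, (if X.t k = 1 then ‖sf X f k‖ ^ 2 else 0) ≤
      (P : ℝ) ^ 2 * ∑ i, f i ^ 2 + ((p : ℝ) - 1) * P * ∑ i, f i * (sf X f i).re := by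
  obtain ⟨b, rfl⟩ := Nat.exists_eq_succ_of_ne_zero (show a ≠ 0 by have := X.a_pos; omega)
  have hp := X.prime
  have : NeZero (p ^ (b + 1)) := ⟨pow_ne_zero _ hp.ne_zero⟩
  have hp0 : (0 : ℝ) < (p : ℝ) ^ b := by
    have : (0 : ℝ) < p := by exact_mod_cast hp.pos
    positivity
  set S : ℝ := ∑ i, f i * (sf X f i).re with hS
  have hSC : (∑ i, (f i : ℂ) * sf X f i) = (S : ℂ) := by
    rw [hS]
    push_cast
    refine Finset.sum_congr rfl fun i _ => ?_
    rw [sf_re X f hf]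
  set M1 : ℝ := ∑ k, (if X.t k = 1 then ‖sf X f k‖ ^ 2 else 0) with hM1
  set Mp : ℝ := ∑ k, (if X.t k ^ p = 1 then ‖sf X f k‖ ^ 2 else 0) with hMp
  have h1 : ∑ w : (ZMod (p ^ (b + 1)))ˣ,
      ∑ k, X.t k ^ (w : ZMod (p ^ (b + 1))).val * (sf X f k) ^ 2 =
      ((p : ℂ) ^ (b + 1) * M1 - (p : ℂ) ^ b * Mp) := by
    rw [Finset.sum_comm, hM1, hMp]
    push_cast
    rw [Finset.mul_sum, Finset.mul_sum, ← Finset.sum_sub_distrib]
    refine Finset.sum_congr rfl fun k _ => ?_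
    rw [← Finset.sum_mul, units_pow hp (X.t k) (X.t_pow k), sf_sq X f hf]
    by_cases h2 : X.t k = 1
    · have h3 : X.t k ^ p = 1 := by rw [h2, one_pow]
      simp only [if_pos h2, if_pos h3]
      push_cast
      ring
    · by_cases h3 : X.t k ^ p = 1
      · simp only [if_neg h2, if_pos h3]
        push_cast
        ring
      · simp only [if_neg h2, if_neg h3]
        push_cast
        ring
  have h2 : ∑ w : (ZMod (p ^ (b + 1)))ˣ,
      ∑ k, X.t k ^ (w : ZMod (p ^ (b + 1))).val * (sf X f k) ^ 2 =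
      ((p : ℂ) ^ (b + 1) - (p : ℂ) ^ b) * ((P : ℂ) * (S : ℂ)) := by
    rw [Finset.sum_congr rfl fun w _ => sf_t X f hf ht w, hSC]
    have h3 := units_pow (a := b) hp 1 (one_pow _)
    simp only [one_pow, if_true] at h3
    rw [← h3, Finset.sum_mul]
    refine Finset.sum_congr rfl fun w _ => ?_
    rw [one_mul]
  rw [h1] at h2
  have h3 : (p : ℝ) ^ (b + 1) * M1 - (p : ℝ) ^ b * Mp =
      ((p : ℝ) ^ (b + 1) - (p : ℝ) ^ b) * ((P : ℝ) * S) := by
    exact_mod_cast h2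
  have h4 : Mp ≤ (P : ℝ) ^ 2 * ∑ i, f i ^ 2 := by
    rw [← sf_norm X f, hMp]
    refine Finset.sum_le_sum fun k _ => ?_
    split_ifs
    · exact le_refl _
    · positivity
  have h5 : (p : ℝ) ^ b * ((p : ℝ) * M1 - Mp - ((p : ℝ) - 1) * P * S) = 0 := by
    rw [pow_succ] at h3
    linear_combination h3
  have h6 := (mul_eq_zero.1 h5).resolve_left hp0.ne'
  linarith

end

end Pool.Agent.Helper89.P2
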